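import Pool.Agent.Work.MP_b928c0_nt_tr.Interface

/-!
# MP_b928c0_nt, trade-off: basic lemmas
-/

set_option autoImplicit false

namespace Pool.Agent.Work.MP_b928c0_nt_tr

open Finset Classical

/-! ### root part and type -/

theorem ar_mul_xr_pow (l n : ℕ) (hn : n ≠ 0) : ar l n * xr l n ^ l = n := by
  unfold ar xr Finsupp.prod
  rw [← Finset.prod_pow, ← Finset.prod_mul_distrib]
  conv_rhs => rw [← Nat.prod_factorization_pow_eq_self hn]
  unfold Finsupp.prod
  refine Finset.prod_congr rfl fun p _ => ?_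
  rw [← pow_mul, ← pow_add, mul_comm _ l, Nat.mod_add_div]

theorem ar_pos (l n : ℕ) : 0 < ar l n := by
  unfold ar Finsupp.prod
  refine Finset.prod_pos fun p hp => ?_
  rw [Nat.support_factorization] at hp
  exact pow_pos (Nat.prime_of_mem_primeFactors hp).pos _

theorem xr_pos (l n : ℕ) : 0 < xr l n := by
  unfold xr Finsupp.prod
  refine Finset.prod_pos fun p hp => ?_
  rw [Nat.support_factorization] at hp
  exact pow_pos (Nat.prime_of_mem_primeFactors hp).pos _

theorem xr_pow_le (l n : ℕ) (hn : n ≠ 0) : xr l n ^ l ≤ n := by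
  conv_rhs => rw [← ar_mul_xr_pow l n hn]
  exact Nat.le_mul_of_pos_left _ (ar_pos l n)

theorem ar_le (l n : ℕ) (hn : n ≠ 0) : ar l n ≤ n := by
  conv_rhs => rw [← ar_mul_xr_pow l n hn]
  exact Nat.le_mul_of_pos_right _ (pow_pos (xr_pos l n) _)

theorem xr_lt (l n M m : ℕ) (hn : n ≠ 0) (h : n < 2 ^ M) (hm : M ≤ l * m) : xr l n < 2 ^ m := by
  by_contra hc
  have h1 : (2 ^ m) ^ l ≤ xr l n ^ l := Nat.pow_le_pow_left (not_lt.mp hc) l
  have h2 := xr_pow_le l n hn
  have h3 : 2 ^ M ≤ (2 ^ m) ^ l := by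
    rw [← pow_mul, mul_comm m l]
    exact Nat.pow_le_pow_right (by norm_num) hm
  omega

theorem factorization_xr (l n : ℕ) (p : ℕ) :
    (xr l n).factorization p = n.factorization p / l := by
  unfold xr Finsupp.prod
  rw [Nat.support_factorization]
  by_cases hp : p ∈ n.primeFactors
  · rw [Nat.factorization_prod (fun q hq => pow_ne_zero _ (Nat.prime_of_mem_primeFactors hq).ne_zero)]
    rw [Finsupp.finsetSum_apply, Finset.sum_eq_single p]
    · have hpp := Nat.prime_of_mem_primeFactors hp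
      rw [hpp.factorization_pow, Finsupp.single_eq_same]
    · intro q hq hqp
      have hqq := Nat.prime_of_mem_primeFactors hq
      rw [hqq.factorization_pow, Finsupp.single_eq_of_ne hqp.symm]
    · exact fun h => absurd hp h
  · rw [Nat.factorization_prod (fun q hq => pow_ne_zero _ (Nat.prime_of_mem_primeFactors hq).ne_zero)]
    rw [Finsupp.finsetSum_apply]
    have h0 : n.factorization p = 0 := by
      rw [← Finsupp.notMem_support_iff, Nat.support_factorization]
      exact hp
    rw [h0, Nat.zero_div]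
    refine Finset.sum_eq_zero fun q hq => ?_
    have hqq := Nat.prime_of_mem_primeFactors hq
    rw [hqq.factorization_pow, Finsupp.single_eq_of_ne (by rintro rfl; exact hp hq)]

theorem dvd_xr (l n y : ℕ) (hl : 0 < l) (hn : n ≠ 0) (h : y ^ l ∣ n) : y ∣ xr l n := by
  have hy : y ≠ 0 := by
    rintro rfl
    rw [zero_pow (by omega), zero_dvd_iff] at h
    exact hn h
  rw [← Nat.factorization_le_iff_dvd hy (xr_pos l n).ne']
  intro p
  rw [factorization_xr]
  have h1 := (Nat.factorization_le_iff_dvd (pow_ne_zero l hy) hn).mpr h p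
  rw [Nat.factorization_pow] at h1
  rw [Nat.le_div_iff_mul_le hl]
  simpa [mul_comm] using h1

theorem st_le (l n : ℕ) (hn : n ≠ 0) : st l n ≤ (Nat.log 2 n) ^ 2 := by
  have h1 : ∑ p ∈ n.primeFactors, n.factorization p ≤ Nat.log 2 n := by
    refine Nat.le_log_of_pow_le (by norm_num) ?_
    conv_rhs => rw [← Nat.prod_factorization_pow_eq_self hn]
    unfold Finsupp.prod
    rw [Nat.support_factorization, ← Finset.prod_pow_eq_pow_sum]
    exact Finset.prod_le_prod' fun p hp =>
      Nat.pow_le_pow_left (Nat.prime_of_mem_primeFactors hp).two_le _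
  unfold st Finsupp.sum
  rw [Nat.support_factorization]
  calc ∑ p ∈ n.primeFactors, (n.factorization p / l) ^ 2
      ≤ ∑ p ∈ n.primeFactors, (n.factorization p) ^ 2 :=
        Finset.sum_le_sum fun p _ => Nat.pow_le_pow_left (Nat.div_le_self _ _) 2
    _ ≤ (∑ p ∈ n.primeFactors, n.factorization p) ^ 2 := by
        rw [sq (∑ p ∈ n.primeFactors, n.factorization p), Finset.sum_mul]
        refine Finset.sum_le_sum fun p hp => ?_
        rw [sq]
        exact Nat.mul_le_mul_left _ (Finset.single_le_sum (f := fun p => n.factorization p)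
          (fun _ _ => Nat.zero_le _) hp)
    _ ≤ _ := Nat.pow_le_pow_left h1 2

theorem stmt_TY : Stmt_TY := fun l n hl hn =>
  ⟨ar_mul_xr_pow l n hn, ar_pos l n, xr_pos l n, st_le l n hn, fun y h => dvd_xr l n y hl hn h⟩

/-! ### terms of a window -/

theorem bb_pos (u p q K t : ℕ) (hu : 0 < u) (hp : 0 < p) (hq : 0 < q) : 0 < bb u p q K t := by
  unfold bb; positivity

theorem le_bb (u p q K t : ℕ) (hp : 0 < p) (hq : 0 < q) : u ≤ bb u p q K t := by
  unfold bb
  have h1 : 0 < p ^ t := pow_pos hp _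
  have h2 : 0 < q ^ (K - 1 - t) := pow_pos hq _
  calc u ≤ u * p ^ t := Nat.le_mul_of_pos_right _ h1
    _ ≤ _ := Nat.le_mul_of_pos_right _ h2

theorem bb_step (u p q K t : ℕ) (h : t + 1 < K) : q * bb u p q K (t + 1) = p * bb u p q K t := by
  unfold bb
  have h1 : K - 1 - t = (K - 1 - (t + 1)) + 1 := by omega
  rw [h1, pow_succ, pow_succ]
  ring

/-- `q^d b_(t+d) = p^d b_t` -/
theorem bb_add (u p q K t d : ℕ) (h : t + d < K) :
    q ^ d * bb u p q K (t + d) = p ^ d * bb u p q K t := by
  unfold bb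
  have h1 : K - 1 - t = (K - 1 - (t + d)) + d := by omega
  rw [h1, pow_add, pow_add]
  ring

/-- `b_(t1+d) b_t2 = b_t1 b_(t2+d)` -/
theorem bb_cross (u p q K t1 t2 d : ℕ) (h1 : t1 + d < K) (h2 : t2 + d < K) :
    bb u p q K (t1 + d) * bb u p q K t2 = bb u p q K t1 * bb u p q K (t2 + d) := by
  unfold bb
  have e1 : K - 1 - t1 = (K - 1 - (t1 + d)) + d := by omega
  have e2 : K - 1 - t2 = (K - 1 - (t2 + d)) + d := by omega
  rw [e1, e2, pow_add, pow_add, pow_add, pow_add]
  ring

/-- gaps add up -/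
theorem bb_far (u p q K h : ℕ) (H : ∀ t, t + 1 < K → bb u p q K t + h ≤ bb u p q K (t + 1))
    (t d : ℕ) (hd : 0 < d) (ht : t + d < K) : bb u p q K t + h ≤ bb u p q K (t + d) := by
  induction d with
  | zero => omega
  | succ d ih =>
    have h1 := H (t + d) (by omega)
    rcases Nat.eq_zero_or_pos d with h0 | h0
    · subst h0
      simpa using h1
    · have h2 := ih h0 (by omega)
      have h3 : t + (d + 1) = t + d + 1 := by ring
      rw [h3]
      omega

/-! ### blocks of integers -/

theorem self_mem_blk (h n : ℕ) (hh : 0 < h) : n ∈ blk h n := by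
  unfold blk
  rw [Finset.mem_Ico]
  have h1 := Nat.div_add_mod n h
  have h2 := Nat.mod_lt n hh
  constructor
  · omega
  · omega

theorem mem_blk (h n x : ℕ) (hx : x ∈ blk h n) : x < n + h ∧ n < x + h := by
  have hh : 0 < h := by
    unfold blk at hx
    rw [Finset.mem_Ico] at hx
    omega
  unfold blk at hx
  rw [Finset.mem_Ico] at hx
  have h1 := Nat.div_add_mod n h
  have h2 := Nat.mod_lt n hh
  omega

theorem mem_blk_iff (h n x : ℕ) (hh : 0 < h) : x ∈ blk h n ↔ x / h = n / h := by
  unfold blk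
  rw [Finset.mem_Ico]
  have h1 := Nat.div_add_mod x h
  have h2 := Nat.mod_lt x hh
  constructor
  · rintro ⟨h3, h4⟩
    refine le_antisymm ?_ ?_
    · by_contra hc
      have h5 : n / h + 1 ≤ x / h := by omega
      have h6 : h * (n / h + 1) ≤ h * (x / h) := Nat.mul_le_mul_left _ h5
      rw [mul_add] at h6
      omega
    · by_contra hc
      have h5 : x / h + 1 ≤ n / h := by omega
      have h6 : h * (x / h + 1) ≤ h * (n / h) := Nat.mul_le_mul_left _ h5
      rw [mul_add] at h6
      omega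
  · intro h3
    rw [← h3]
    omega

theorem card_blk (h n : ℕ) : (blk h n).card = h := by
  unfold blk
  simp

/-- every `2 h` consecutive integers contain a full block -/
theorem exists_blk (h n : ℕ) (hh : 0 < h) : ∃ b, n ≤ b ∧ b < n + h ∧ h * (b / h) = b ∧
    ∀ x ∈ blk h b, n ≤ x ∧ x < n + 2 * h := by
  refine ⟨h * ((n + h - 1) / h), ?_, ?_, ?_, ?_⟩
  · have h1 := Nat.div_add_mod (n + h - 1) h
    have h2 := Nat.mod_lt (n + h - 1) hh
    omega
  · have h1 := Nat.div_add_mod (n + h - 1) h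
    omega
  · rw [Nat.mul_div_cancel_left _ hh]
  · intro x hx
    unfold blk at hx
    rw [Finset.mem_Ico, Nat.mul_div_cancel_left _ hh] at hx
    have h1 := Nat.div_add_mod (n + h - 1) h
    have h2 := Nat.mod_lt (n + h - 1) hh
    omega

/-- monotonicity in the gap -/
theorem ScaleOK.mono {L K h h' : ℕ} (H : ScaleOK L K h) (hh : h ≤ h') : ScaleOK L K h' := by
  obtain ⟨A, h1, h2⟩ := H
  refine ⟨A, fun n hn hn' => ?_, h2⟩
  obtain ⟨a, ha, h3, h4⟩ := h1 n hn (by omega)
  exact ⟨a, ha, h3, by omega⟩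

end Pool.Agent.Work.MP_b928c0_nt_tr
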