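import Pool.Agent.Work.MP_b928c0_nt_tr.API

set_option autoImplicit false

namespace Pool.Agent.Work.MP_b928c0_nt_tr

open Finset Classical

namespace N3Aux

theorem exists_N (α : ℝ) (h0 : 0 < α) :
    ∃ N : ℕ, ∀ i : ℕ, N ≤ i → (25 : ℝ) * i < ((4 : ℝ) ^ i) ^ α := by
  have hb : (1 : ℝ) < (4 : ℝ) ^ α := Real.one_lt_rpow (by norm_num) h0
  have ht := tendsto_pow_const_div_const_pow_of_one_lt 1 hb
  have he := ht.eventually_lt_const (show (0 : ℝ) < 1 / 25 by norm_num)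
  obtain ⟨N, hN⟩ := Filter.eventually_atTop.1 he
  refine ⟨N, fun i hi => ?_⟩
  have h1 := hN i hi
  have h2 : (0 : ℝ) < ((4 : ℝ) ^ α) ^ i := by positivity
  rw [pow_one, div_lt_iff₀ h2] at h1
  have h3 : ((4 : ℝ) ^ i) ^ α = ((4 : ℝ) ^ α) ^ i := by
    rw [← Real.rpow_natCast, ← Real.rpow_mul (by norm_num), mul_comm,
      Real.rpow_mul (by norm_num), Real.rpow_natCast]
  rw [h3]
  linarith

theorem three_four (n : ℕ) : 3 ^ n * 4 ^ (n / 5) ≤ 4 ^ n := by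
  have h := Nat.div_add_mod n 5
  set q := n / 5
  set r := n % 5
  rw [← h, pow_add, pow_add, pow_mul, pow_mul]
  calc (3 ^ 5) ^ q * 3 ^ r * 4 ^ q = (3 ^ 5 * 4) ^ q * 3 ^ r := by rw [mul_pow]; ring
    _ ≤ (4 ^ 5) ^ q * 4 ^ r :=
      Nat.mul_le_mul (Nat.pow_le_pow_left (by norm_num) q) (Nat.pow_le_pow_left (by norm_num) r)

theorem sq_le_four_pow (i : ℕ) : (i + 1) ^ 2 ≤ 4 ^ i := by
  have h : i + 1 ≤ 2 ^ i := Nat.lt_two_pow_self
  calc (i + 1) ^ 2 ≤ (2 ^ i) ^ 2 := Nat.pow_le_pow_left h 2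
    _ = 4 ^ i := by rw [← pow_mul, mul_comm, pow_mul]; norm_num

theorem log_ineq (s : ℕ) (hs : 2 ≤ s) : (s + 2) ^ 2 ≤ 4 * 2 ^ s := by
  induction s, hs using Nat.le_induction with
  | base => norm_num
  | succ n hn ih =>
    rw [pow_succ 2 n]
    nlinarith

theorem big_pow (j : ℕ) (hj : 4 ≤ j) : 64 + 4 * j < 4 ^ j := by
  induction j, hj using Nat.le_induction with
  | base => norm_num
  | succ n hn ih => rw [pow_succ]; omega

theorem sq26 (L : ℕ) (h : 1 ≤ L) : (4 * L + 1) ^ 2 + 1 ≤ 26 * L ^ 2 := by nlinarith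

theorem lin400 (x : ℝ) (hx : 4 ≤ x) :
    40 * x + 324 + 5 * (x + 5) ≤ 400 * (x + 1) ^ 2 := by nlinarith

theorem core (i L l h : ℕ) (X Y : ℝ) (hi4 : 4 ≤ i) (hL : L = 4 ^ i) (hX1 : 1 ≤ X) (hY1 : 1 ≤ Y)
    (hXY : X ^ 2 * Y = L) (hNi : (25 : ℝ) * i < X) (hlX : X ≤ l) (hlX' : (l : ℝ) < X + 1)
    (hhY : (2 : ℝ) ^ 20 * (Y + ((i : ℝ) + 1) ^ 2) ≤ h)
    (hhY' : (h : ℝ) < (2 : ℝ) ^ 20 * (Y + ((i : ℝ) + 1) ^ 2) + 1) :
    ∃ m m' g : ℕ, 2 ≤ l ∧ 1 ≤ 24 * i + 32 ∧ 64 * h * 2 ^ (2 * m) < 2 ^ L ∧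
      2 * h < 2 ^ l ∧ 2 * h ^ 2 < 2 ^ g ∧ 2 + 4 * (24 * i + 32) * g ≤ h ∧
      4 * L + 1 ≤ l * m ∧ 4 * L ≤ l * (24 * i + 32) * m' ∧
      3 * ((4 * L + 1) ^ 2 + 1) ^ 3 ≤ 2 ^ ((24 * i + 32) / 2) ∧
      16 * (l * (24 * i + 32)) ^ 2 * h ^ 2 * (24 * i + 32) ^ l * 2 ^ (m + 2 * m') *
        3 ^ (l * h / 2) ≤ 4 ^ (l * h / 2) := by
  have hi4R : (4 : ℝ) ≤ i := by exact_mod_cast hi4
  have hL1' : (1 : ℝ) ≤ L := by
    have : 1 ≤ L := by rw [hL]; exact Nat.one_le_pow _ _ (by norm_num)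
    exact_mod_cast this
  have hX21 : (1 : ℝ) ≤ X ^ 2 := one_le_pow₀ hX1
  have hYL : Y ≤ L := by
    rw [← hXY]
    exact le_mul_of_one_le_left (by linarith) hX21
  have hX2 : X ^ 2 ≤ L := by
    rw [← hXY]
    exact le_mul_of_one_le_right (by linarith) hY1
  have hXL : X ≤ 2 ^ i := by
    have h : ((2 : ℝ) ^ i) ^ 2 = L := by
      rw [hL]
      push_cast
      rw [← pow_mul, mul_comm, pow_mul]; norm_num
    have h2 : X ^ 2 ≤ ((2 : ℝ) ^ i) ^ 2 := by rw [h]; exact hX2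
    exact (pow_le_pow_iff_left₀ (by linarith) (by positivity) (by norm_num)).1 h2
  have hl1R : (1 : ℝ) ≤ l := le_trans hX1 hlX
  have hl0R : (0 : ℝ) < l := by linarith
  have hl0 : 0 < l := by exact_mod_cast hl0R
  have hlbig : 2 * i + 23 < l := by
    have : (25 : ℝ) * i < l := lt_of_lt_of_le hNi hlX
    have : 25 * i < l := by exact_mod_cast this
    omega
  have hl2 : l ≤ 2 ^ (i + 1) := by
    have h2 : (l : ℝ) < 2 ^ i + 1 := by linarith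
    have h3 : l < 2 ^ i + 1 := by exact_mod_cast h2
    have h4 : 1 ≤ 2 ^ i := Nat.one_le_two_pow
    rw [pow_succ]; omega
  have hsq : (((i : ℝ) + 1) ^ 2) ≤ L := by
    have := sq_le_four_pow i
    rw [hL]; exact_mod_cast this
  have hhup : h ≤ 2 ^ (2 * i + 22) := by
    have h2 : (h : ℝ) < 2 ^ 20 * (L + L) + 1 := by
      refine lt_of_lt_of_le hhY' ?_
      have : Y + ((i : ℝ) + 1) ^ 2 ≤ L + L := add_le_add hYL hsq
      linarith
    have h3 : h < 2 ^ 20 * (L + L) + 1 := by exact_mod_cast h2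
    have h4 : 2 ^ (2 * i + 22) = 2 ^ 22 * L := by
      rw [hL, pow_add, pow_mul]; norm_num [mul_comm]
    have h5 : 1 ≤ L := by rw [hL]; exact Nat.one_le_pow _ _ (by norm_num)
    rw [h4]; omega
  have hK2 : 24 * i + 32 ≤ 2 ^ (i + 5) := by
    have h : i + 1 ≤ 2 ^ i := Nat.lt_two_pow_self
    rw [pow_add]; omega
  have hh0 : 2 ^ 20 * (i + 1) ^ 2 ≤ h := by
    have h2 : (2 : ℝ) ^ 20 * ((i : ℝ) + 1) ^ 2 ≤ h := by
      refine le_trans ?_ hhY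
      have : (0 : ℝ) ≤ Y := by linarith
      linarith
    exact_mod_cast h2
  have hhpos : 0 < h := by
    have : 1 ≤ (i + 1) ^ 2 := Nat.one_le_pow _ _ (by omega)
    omega
  have hLbig : 64 + 4 * i < L := by rw [hL]; exact big_pow i hi4
  -- m, m', g
  obtain ⟨m, hm⟩ : ∃ m : ℕ, m = (4 * L + 1) / l + 1 := ⟨_, rfl⟩
  obtain ⟨m', hm'⟩ : ∃ m' : ℕ, m' = 4 * L / (l * (24 * i + 32)) + 1 := ⟨_, rfl⟩
  have hlK : 0 < l * (24 * i + 32) := Nat.mul_pos hl0 (by omega)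
  have hmR : (m : ℝ) ≤ 5 * (L / l) + 1 := by
    rw [hm]
    push_cast
    have h2 : (((4 * L + 1) / l : ℕ) : ℝ) ≤ ((4 * L + 1 : ℕ) : ℝ) / l := Nat.cast_div_le
    have h3 : ((4 * L + 1 : ℕ) : ℝ) / l ≤ 5 * (L / l) := by
      push_cast
      rw [← mul_div_assoc]
      exact div_le_div_of_nonneg_right (by linarith) hl0R.le
    linarith
  have hmR' : (m' : ℝ) ≤ L / l + 1 := by
    rw [hm']
    push_cast
    have h2 : ((4 * L / (l * (24 * i + 32)) : ℕ) : ℝ)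
        ≤ ((4 * L : ℕ) : ℝ) / ((l * (24 * i + 32) : ℕ) : ℝ) := Nat.cast_div_le
    have h3 : ((4 * L : ℕ) : ℝ) / ((l * (24 * i + 32) : ℕ) : ℝ) ≤ L / l := by
      push_cast
      have hA : (0 : ℝ) < l * (24 * i + 32) := mul_pos hl0R (by linarith)
      rw [div_le_div_iff₀ hA hl0R]
      have hB : (0 : ℝ) ≤ (L : ℝ) * l := mul_nonneg (by linarith) hl0R.le
      calc 4 * (L : ℝ) * l = (L * l) * 4 := by ring
        _ ≤ (L * l) * (24 * i + 32) := mul_le_mul_of_nonneg_left (by linarith) hB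
        _ = L * (l * (24 * i + 32)) := by ring
    linarith
  have hLl : (L : ℝ) / l ≤ l * Y := by
    rw [div_le_iff₀ hl0R, ← hXY]
    have h2 : X ^ 2 ≤ (l : ℝ) ^ 2 := pow_le_pow_left₀ (by linarith) hlX 2
    calc X ^ 2 * Y ≤ (l : ℝ) ^ 2 * Y := mul_le_mul_of_nonneg_right h2 (by linarith)
      _ = l * Y * l := by ring
  have hLl20 : (L : ℝ) / l * 100 ≤ L := by
    rw [div_mul_eq_mul_div, div_le_iff₀ hl0R]
    have h2 : (100 : ℝ) ≤ l := by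
      have : (25 : ℝ) * i < l := lt_of_lt_of_le hNi hlX
      linarith
    exact mul_le_mul_of_nonneg_left h2 (by linarith)
  have hhlog : h < 2 ^ (Nat.log 2 h + 1) := Nat.lt_pow_succ_log_self (by norm_num) h
  have hhlog' : 2 ^ Nat.log 2 h ≤ h := Nat.pow_log_le_self 2 hhpos.ne'
  refine ⟨m, m', 2 * Nat.log 2 h + 4, by omega, by omega, ?_, ?_, ?_, ?_, ?_, ?_, ?_, ?_⟩
  · -- 64 h 2^(2m) < 2^L
    have h2 : (2 * m : ℝ) + 2 * i + 28 < L := by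
      have h3 : (64 : ℝ) + 4 * i < L := by exact_mod_cast hLbig
      linarith
    have h3 : 2 * m + 2 * i + 28 < L := by exact_mod_cast h2
    calc 64 * h * 2 ^ (2 * m) ≤ 64 * 2 ^ (2 * i + 22) * 2 ^ (2 * m) :=
          Nat.mul_le_mul_right _ (Nat.mul_le_mul_left _ hhup)
      _ = 2 ^ (2 * m + 2 * i + 28) := by
          rw [show (64 : ℕ) = 2 ^ 6 by norm_num, ← pow_add, ← pow_add]; congr 1; ring
      _ < 2 ^ L := Nat.pow_lt_pow_right (by norm_num) h3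
  · calc 2 * h ≤ 2 * 2 ^ (2 * i + 22) := Nat.mul_le_mul_left _ hhup
      _ = 2 ^ (2 * i + 23) := by rw [← pow_succ']
      _ < 2 ^ l := Nat.pow_lt_pow_right (by norm_num) hlbig
  · calc 2 * h ^ 2 < 2 * (2 ^ (Nat.log 2 h + 1)) ^ 2 := by
          have := Nat.pow_lt_pow_left hhlog (show 2 ≠ 0 by norm_num)
          omega
      _ = 2 ^ (2 * Nat.log 2 h + 3) := by rw [← pow_mul, ← pow_succ']; congr 1; ring
      _ ≤ 2 ^ (2 * Nat.log 2 h + 4) := Nat.pow_le_pow_right (by norm_num) (by omega)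
  · -- 2 + 4 K0 g ≤ h
    obtain ⟨s, hs⟩ : ∃ s : ℕ, s = Nat.log 2 h := ⟨_, rfl⟩
    rw [← hs] at hhlog'
    rw [← hs]
    have hs2 : 2 ≤ s := by
      rw [hs]
      refine Nat.le_log_of_pow_le (by norm_num) ?_
      refine le_trans ?_ hh0
      have : 1 ≤ (i + 1) ^ 2 := Nat.one_le_pow _ _ (by omega)
      omega
    have h1 : 2 + 4 * (24 * i + 32) * (2 * s + 4) ≤ 512 * (i + 1) * (s + 2) := by
      have hp : 1 ≤ (i + 1) * (s + 2) := Nat.mul_pos (by omega) (by omega)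
      have hq : (3 * i + 4) * (s + 2) ≤ (4 * (i + 1)) * (s + 2) :=
        Nat.mul_le_mul_right _ (by omega)
      calc 2 + 4 * (24 * i + 32) * (2 * s + 4) = 2 + 64 * ((3 * i + 4) * (s + 2)) := by ring
        _ ≤ 2 * ((i + 1) * (s + 2)) + 64 * ((4 * (i + 1)) * (s + 2)) :=
            Nat.add_le_add (by omega) (Nat.mul_le_mul_left _ hq)
        _ = 258 * ((i + 1) * (s + 2)) := by ring
        _ ≤ 512 * ((i + 1) * (s + 2)) := Nat.mul_le_mul_right _ (by norm_num)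
        _ = 512 * (i + 1) * (s + 2) := by ring
    refine le_trans h1 ?_
    have h2 : (512 * (i + 1) * (s + 2)) ^ 2 ≤ h ^ 2 := by
      calc (512 * (i + 1) * (s + 2)) ^ 2 = 2 ^ 18 * (i + 1) ^ 2 * (s + 2) ^ 2 := by ring
        _ ≤ 2 ^ 18 * (i + 1) ^ 2 * (4 * 2 ^ s) :=
            Nat.mul_le_mul_left _ (log_ineq s hs2)
        _ = (2 ^ 20 * (i + 1) ^ 2) * 2 ^ s := by ring
        _ ≤ h * h := Nat.mul_le_mul hh0 hhlog'
        _ = h ^ 2 := by ring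
    exact (Nat.pow_le_pow_iff_left (by norm_num)).1 h2
  · rw [hm]
    have := Nat.lt_mul_div_succ (4 * L + 1) hl0
    exact this.le
  · rw [hm']
    have := Nat.lt_mul_div_succ (4 * L) hlK
    exact this.le
  · -- 3 ((4L+1)^2+1)^3 ≤ 2^(12 i + 16)
    have hd : (24 * i + 32) / 2 = 12 * i + 16 := by omega
    rw [hd]
    have hL1N : 1 ≤ L := by rw [hL]; exact Nat.one_le_pow _ _ (by norm_num)
    have h2 : (4 * L + 1) ^ 2 + 1 ≤ 26 * L ^ 2 := sq26 L hL1N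
    calc 3 * ((4 * L + 1) ^ 2 + 1) ^ 3 ≤ 3 * (26 * L ^ 2) ^ 3 :=
          Nat.mul_le_mul_left _ (Nat.pow_le_pow_left h2 3)
      _ = 52728 * L ^ 6 := by ring
      _ ≤ 65536 * L ^ 6 := Nat.mul_le_mul_right _ (by norm_num)
      _ = 2 ^ (12 * i + 16) := by
          rw [hL, pow_add, ← pow_mul, show (4 : ℕ) = 2 ^ 2 by norm_num, ← pow_mul, mul_comm]
          congr 2
          ring
  · -- the last one
    obtain ⟨n, hn⟩ : ∃ n : ℕ, n = l * h / 2 := ⟨_, rfl⟩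
    rw [← hn]
    have hlh : 5 * (8 * i + 60 + (i + 5) * l + m + 2 * m') + 9 ≤ l * h := by
      have h2 : (5 * (8 * i + 60 + (i + 5) * l + m + 2 * m') + 9 : ℝ) ≤ l * h := by
        have h3 : (l : ℝ) * ((2 : ℝ) ^ 20 * (Y + ((i : ℝ) + 1) ^ 2)) ≤ l * h :=
          mul_le_mul_of_nonneg_left hhY hl0R.le
        have hlY : (0 : ℝ) ≤ l * Y := mul_nonneg hl0R.le (by linarith)
        have h4 : (m : ℝ) + 2 * m' ≤ 7 * (l * Y) + 3 := by linarith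
        have h7 : (40 * i + 324 : ℝ) ≤ (40 * i + 324) * l :=
          le_mul_of_one_le_right (by linarith) hl1R
        have h8 : (40 * i + 324 + 5 * (i + 5) : ℝ) ≤ 400 * ((i : ℝ) + 1) ^ 2 := lin400 i hi4R
        have h9 : (l : ℝ) * (40 * i + 324 + 5 * (i + 5)) ≤ l * (400 * ((i : ℝ) + 1) ^ 2) :=
          mul_le_mul_of_nonneg_left h8 hl0R.le
        have h6 : (0 : ℝ) ≤ l * ((i : ℝ) + 1) ^ 2 := mul_nonneg hl0R.le (sq_nonneg _)
        linarith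
      exact_mod_cast h2
    have hE : 8 * i + 60 + (i + 5) * l + m + 2 * m' ≤ 2 * (n / 5) := by
      generalize 8 * i + 60 + (i + 5) * l + m + 2 * m' = E at hlh ⊢
      generalize l * h = P at hlh hn
      omega
    have hA : 16 * (l * (24 * i + 32)) ^ 2 * h ^ 2 * (24 * i + 32) ^ l * 2 ^ (m + 2 * m')
        ≤ 4 ^ (n / 5) := by
      calc 16 * (l * (24 * i + 32)) ^ 2 * h ^ 2 * (24 * i + 32) ^ l * 2 ^ (m + 2 * m')
          ≤ 16 * (2 ^ (i + 1) * 2 ^ (i + 5)) ^ 2 * (2 ^ (2 * i + 22)) ^ 2 *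
            (2 ^ (i + 5)) ^ l * 2 ^ (m + 2 * m') := by
            refine Nat.mul_le_mul_right _ (Nat.mul_le_mul (Nat.mul_le_mul
              (Nat.mul_le_mul_left _ (Nat.pow_le_pow_left (Nat.mul_le_mul hl2 hK2) 2))
              (Nat.pow_le_pow_left hhup 2)) (Nat.pow_le_pow_left hK2 l))
        _ = 2 ^ (8 * i + 60 + (i + 5) * l + m + 2 * m') := by
            rw [show (16 : ℕ) = 2 ^ 4 by norm_num, ← pow_add, ← pow_mul, ← pow_mul, ← pow_mul,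
              ← pow_add, ← pow_add, ← pow_add, ← pow_add]
            congr 1
            ring
        _ ≤ 2 ^ (2 * (n / 5)) := Nat.pow_le_pow_right (by norm_num) hE
        _ = 4 ^ (n / 5) := by rw [pow_mul]; norm_num
    calc 16 * (l * (24 * i + 32)) ^ 2 * h ^ 2 * (24 * i + 32) ^ l * 2 ^ (m + 2 * m') * 3 ^ n
        ≤ 4 ^ (n / 5) * 3 ^ n := Nat.mul_le_mul_right _ hA
      _ = 3 ^ n * 4 ^ (n / 5) := mul_comm _ _
      _ ≤ 4 ^ n := three_four n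

end N3Aux

open N3Aux in
theorem stmt_N3 : Stmt_N3 := by
  intro α h0 h1
  obtain ⟨N, hN⟩ := exists_N α h0
  refine ⟨2 ^ 22, max N 4, fun i => ⌈((4 : ℝ) ^ i) ^ α⌉₊,
    fun i => ⌈(2 : ℝ) ^ 20 * (((4 : ℝ) ^ i) ^ (1 - 2 * α) + ((i : ℝ) + 1) ^ 2)⌉₊,
    fun i => 24 * i + 32, by norm_num, le_trans (by norm_num) (le_max_right N 4), ?_⟩
  intro i hi
  have hi4 : 4 ≤ i := le_trans (le_max_right N 4) hi
  have hNi := hN i (le_trans (le_max_left N 4) hi)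
  have hL1 : (1 : ℝ) ≤ (4 : ℝ) ^ i := one_le_pow₀ (by norm_num)
  have hLpos : (0 : ℝ) < (4 : ℝ) ^ i := by positivity
  have hX1 : 1 ≤ ((4 : ℝ) ^ i) ^ α := Real.one_le_rpow hL1 h0.le
  have hY1 : 1 ≤ ((4 : ℝ) ^ i) ^ (1 - 2 * α) := Real.one_le_rpow hL1 (by linarith)
  have hXY : (((4 : ℝ) ^ i) ^ α) ^ 2 * ((4 : ℝ) ^ i) ^ (1 - 2 * α) = ((4 ^ i : ℕ) : ℝ) := by
    push_cast
    rw [← Real.rpow_natCast (((4 : ℝ) ^ i) ^ α) 2, ← Real.rpow_mul hLpos.le,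
      ← Real.rpow_add hLpos]
    have : α * ((2 : ℕ) : ℝ) + (1 - 2 * α) = 1 := by push_cast; ring
    rw [this, Real.rpow_one]
  have hlX : ((4 : ℝ) ^ i) ^ α ≤ (⌈((4 : ℝ) ^ i) ^ α⌉₊ : ℝ) := Nat.le_ceil _
  have hlX' : (⌈((4 : ℝ) ^ i) ^ α⌉₊ : ℝ) < ((4 : ℝ) ^ i) ^ α + 1 :=
    Nat.ceil_lt_add_one (by linarith)
  have hhY := Nat.le_ceil ((2 : ℝ) ^ 20 * (((4 : ℝ) ^ i) ^ (1 - 2 * α) + ((i : ℝ) + 1) ^ 2))
  have hhY' := Nat.ceil_lt_add_one
    (show (0 : ℝ) ≤ (2 : ℝ) ^ 20 * (((4 : ℝ) ^ i) ^ (1 - 2 * α) + ((i : ℝ) + 1) ^ 2) by positivity)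
  refine ⟨core i (4 ^ i) _ _ _ _ hi4 rfl hX1 hY1 hXY hNi hlX hlX' hhY hhY', ?_, ?_, ?_⟩
  · refine Nat.mul_le_mul (Nat.ceil_mono ?_) (by dsimp only; omega)
    refine Real.rpow_le_rpow hLpos.le ?_ h0.le
    exact pow_le_pow_right₀ (by norm_num) (by omega)
  · have h2 : (0 : ℝ) ≤ ((i : ℝ) + 1) ^ 2 := by positivity
    dsimp only
    linarith
  · dsimp only
    push_cast
    generalize ((4 : ℝ) ^ i) ^ α = X at hX1 hlX'
    generalize (⌈X⌉₊ : ℝ) = l at hlX' ⊢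
    have hi0 : (0 : ℝ) ≤ i := by positivity
    have h2 : l ≤ 2 * X := by linarith
    have h3 : l * (24 * i + 32) ≤ 2 * X * (32 * (i + 1)) := by
      refine le_trans (mul_le_mul_of_nonneg_right h2 (by positivity)) ?_
      exact mul_le_mul_of_nonneg_left (by linarith) (by linarith)
    have h4 : (1 : ℝ) ≤ X * (i + 1) := by nlinarith
    nlinarith

end Pool.Agent.Work.MP_b928c0_nt_tr
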