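import Pool.Agent.Work.MP_b928c0_nt_tr.All1
import Pool.Agent.Work.MP_b928c0_nt_tr.N3

/-!
# MP_b928c0_nt: assembly of T3
-/

set_option autoImplicit false

namespace Pool.Agent.Work.MP_b928c0_nt_tr

theorem all_F3 : Stmt_F3 := stmt_F3 all_SC stmt_N3 stmt_GL

end Pool.Agent.Work.MP_b928c0_nt_tr
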