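import Pool.Agent.Work.MP_b928c0_nt_tr.API

set_option autoImplicit false

namespace Pool.Agent.Work.MP_b928c0_nt_tr

theorem stmt_BD : Stmt_BD := by
  intro l L m h hl hh hbig hL hm n n' hn hnn' hn'h hn' heq
  have hn0 : n ≠ 0 := by
    have : 0 < 2 ^ (L - 1) := by positivity
    omega
  have hn'0 : n' ≠ 0 := by omega
  have e1 := ar_mul_xr_pow l n hn0
  have e2 := ar_mul_xr_pow l n' hn'0
  have hy : xr l n < 2 ^ m := xr_lt l n (4 * L + 1) m hn0 (by omega) hm
  rw [← heq] at e2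
  generalize ar l n = a at *
  generalize xr l n = y at *
  generalize xr l n' = z at *
  obtain ⟨k, rfl⟩ : ∃ k, l = k + 1 := ⟨l - 1, by omega⟩
  have hyz : y < z := by
    by_contra hc
    have h1 : z ^ (k + 1) ≤ y ^ (k + 1) := Nat.pow_le_pow_left (not_lt.mp hc) _
    have h2 : a * z ^ (k + 1) ≤ a * y ^ (k + 1) := Nat.mul_le_mul_left a h1
    omega
  have h3 : y ^ (k + 1) + y ^ k ≤ z ^ (k + 1) := by
    have h4 : y ^ k ≤ z ^ k := Nat.pow_le_pow_left hyz.le k
    calc y ^ (k + 1) + y ^ k = y ^ k * (y + 1) := by ring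
      _ ≤ z ^ k * z := Nat.mul_le_mul h4 hyz
      _ = z ^ (k + 1) := by ring
  have h5 : a * y ^ (k + 1) + a * y ^ k ≤ a * z ^ (k + 1) := by
    rw [← Nat.mul_add]
    exact Nat.mul_le_mul_left a h3
  have h6 : a * y ^ k < h := by omega
  have h7 : n = a * y ^ k * y := by rw [← e1]; ring
  have h8 : n ≤ h * 2 ^ m := by
    rw [h7]
    exact Nat.mul_le_mul h6.le hy.le
  have h9 : 2 ^ L = 2 * 2 ^ (L - 1) := by
    rw [← pow_succ']
    congr 1
    omega
  have h10 : h * 2 ^ m ≤ h * 2 ^ (2 * m) :=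
    Nat.mul_le_mul_left h (Nat.pow_le_pow_right (by norm_num) (by omega))
  have h11 : 64 * h * 2 ^ (2 * m) = 64 * (h * 2 ^ (2 * m)) := by ring
  omega

end Pool.Agent.Work.MP_b928c0_nt_tr
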