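import Pool.Agent.Work.MP_b928c0_nt_tr.API

/-!
# MP_b928c0_nt, trade-off: block BH (scale theorem for T1, large gap)
-/

set_option autoImplicit false

namespace Pool.Agent.Work.MP_b928c0_nt_tr

open Finset Classical
open Pool.Agent.Work.MP_db9399_all (pr DepOnI PackI Stmt_LLLI)

namespace BHAux

theorem exp_half_le : Real.exp (1 / 2) ≤ 2 := by
  have h1 : Real.exp (1 / 2) * Real.exp (1 / 2) = Real.exp 1 := by
    rw [← Real.exp_add]; norm_num
  have h2 := Real.exp_one_lt_d9
  by_contra hc
  have h3 : 2 < Real.exp (1 / 2) := not_le.mp hc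
  nlinarith

/-- value at a block number -/
noncomputable def vl {N H : ℕ} (f : Fin (N + 1) → Fin H) (n : ℕ) : ℕ :=
  if h : n < N + 1 then (f ⟨n, h⟩ : ℕ) else 0

/-- the singleton coordinate set -/
noncomputable def sg (N n : ℕ) : Finset (Fin (N + 1)) := univ.filter (fun y => (y : ℕ) = n)

theorem vl_congr {N H : ℕ} (f f' : Fin (N + 1) → Fin H) (n : ℕ) (h : ∀ y ∈ sg N n, f y = f' y) :
    vl f n = vl f' n := by
  unfold vl
  by_cases hn : n < N + 1
  · rw [dif_pos hn, dif_pos hn, h ⟨n, hn⟩ (by simp [sg])]
  · rw [dif_neg hn, dif_neg hn]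

theorem mem_sg {N n : ℕ} (y : Fin (N + 1)) : y ∈ sg N n ↔ (y : ℕ) = n := by
  simp [sg]

theorem card_sg (N n : ℕ) : (sg N n).card ≤ 1 := by
  rw [Finset.card_le_one]
  intro a ha b hb
  rw [mem_sg] at ha hb
  exact Fin.ext (ha.trans hb.symm)

theorem pr_congr {Ω : Type} {i : Fintype Ω} (E F : Ω → Prop) (h : ∀ x, E x ↔ F x) :
    @pr Ω i E = @pr Ω i F := by
  have : E = F := funext fun x => propext (h x)
  rw [this]

theorem card_biUnion_sg_le (N K : ℕ) (g : ℕ → ℕ) :
    ((Finset.range K).biUnion (fun t => sg N (g t))).card ≤ K := by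
  refine (Finset.card_biUnion_le).trans ?_
  calc ∑ t ∈ Finset.range K, (sg N (g t)).card ≤ ∑ _t ∈ Finset.range K, 1 :=
        Finset.sum_le_sum fun t _ => card_sg N (g t)
    _ = K := by simp

end BHAux

open BHAux in
theorem stmt_BH (hFA : Stmt_FA) (hWC : Stmt_WC) (hP1 : Stmt_P1) (hIN : Stmt_IN) (hLW : Stmt_LW) :
    Stmt_BH := by
  intro L K m D H hK hL hH hKm hHm hD hbig
  set N : ℕ := 2 ^ (4 * L) / H with hN
  have hH0 : 0 < H := by omega
  have hKr : (1 : ℝ) ≤ K := by exact_mod_cast hK
  have hHr : (2 : ℝ) ≤ H := by exact_mod_cast hH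
  have hHK : (0 : ℝ) < (H : ℝ) ^ K := by positivity
  -- the data
  let b : ℕ × ℕ × ℕ → ℕ → ℕ := fun r t => bb r.1 r.2.1 r.2.2 K t
  let Sc : ℕ × ℕ × ℕ → Finset (Fin (N + 1)) := fun r =>
    (Finset.range K).biUnion (fun t => sg N (b r t / H))
  let P : ℕ × ℕ × ℕ → (Fin (N + 1) → Fin H) → Prop := fun r f =>
    ¬ ∀ t < K, vl f (b r t / H) = b r t % H
  have key := hLW L K (Fin (N + 1)) H (1 / (4 * K)) (2 / (H : ℝ) ^ K) Sc P hK hH0 (by positivity)
    (by
      rw [div_le_div_iff₀ (by positivity) (by norm_num)]
      nlinarith)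
    (by
      intro r hW hS
      have hfar := hFA L m H K r.1 r.2.1 r.2.2 hK hKm hHm hW hS
      have hfar2 : ∀ s t, s < t → t < K → b r s / H < b r t / H := by
        intro s t hst ht
        have h1 := bb_far r.1 r.2.1 r.2.2 K H hfar s (t - s) (by omega) (by omega)
        have h2 : s + (t - s) = t := by omega
        rw [h2] at h1
        have h3 : b r s + H ≤ b r t := h1
        calc b r s / H < b r s / H + 1 := Nat.lt_succ_self _
          _ = (b r s + H) / H := by rw [Nat.add_div_right _ hH0]
          _ ≤ b r t / H := Nat.div_le_div_right h3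
      have hlt : ∀ t < K, b r t / H < N + 1 := by
        intro t ht
        have h1 := (hS t ht).2
        have h2 : b r t / H ≤ 2 ^ (4 * L) / H := Nat.div_le_div_right h1.le
        omega
      refine ⟨Unit, inferInstance, fun _ => Sc r,
        fun _ f => ∀ t ∈ Finset.range K, vl f (b r t / H) = b r t % H, ?_, ?_, ?_, ?_, ?_⟩
      · intro _ f f' hff
        refine propext (forall₂_congr fun t ht => ?_)
        rw [vl_congr f f' _ (fun y hy => hff y (Finset.mem_biUnion.mpr ⟨t, ht, hy⟩))]
      · intro _
        refine ⟨⟨b r 0 / H, hlt 0 (by omega)⟩, Finset.mem_biUnion.mpr ⟨0, ?_, ?_⟩⟩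
        · rw [Finset.mem_range]; omega
        · rw [mem_sg]
      · intro _
        exact Finset.Subset.refl _
      · have hpr := hIN (Fin (N + 1)) H ℕ (Finset.range K) (fun t => sg N (b r t / H))
            (fun t f => vl f (b r t / H) = b r t % H) (1 / (H : ℝ)) hH0 (by positivity)
            (by
              intro t _ f f' hff
              have h := vl_congr f f' _ hff
              simp only [h])
            (by
              intro s hs t ht hst
              rw [Finset.mem_range] at hs ht
              rw [Finset.disjoint_left]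
              intro y hy hy'
              rw [mem_sg] at hy hy'
              rcases Nat.lt_or_gt_of_ne hst with h | h
              · have := hfar2 s t h ht; omega
              · have := hfar2 t s h hs; omega)
            (by
              intro t ht
              rw [Finset.mem_range] at ht
              have h1 := hP1 (Fin (N + 1)) H ⟨b r t / H, hlt t ht⟩
                {⟨b r t % H, Nat.mod_lt _ hH0⟩} hH0
              rw [Finset.card_singleton, Nat.cast_one] at h1
              rw [← h1]
              refine le_of_eq (pr_congr _ _ fun f => ?_)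
              rw [Finset.mem_singleton]
              unfold vl
              rw [dif_pos (hlt t ht)]
              constructor
              · intro h; exact Fin.ext h
              · intro h; rw [h])
        rw [Finset.card_range] at hpr
        have hcard : ((Sc r).card : ℝ) ≤ K := by exact_mod_cast card_biUnion_sg_le N K _
        have hexp : Real.exp (2 * (1 / (4 * (K : ℝ))) * ((Sc r).card : ℝ)) ≤ 2 := by
          refine (Real.exp_le_exp.mpr ?_).trans exp_half_le
          have h1 : 2 * (1 / (4 * (K : ℝ))) * ((Sc r).card : ℝ) ≤ 2 * (1 / (4 * (K : ℝ))) * K :=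
            mul_le_mul_of_nonneg_left hcard (by positivity)
          refine h1.trans (le_of_eq ?_)
          field_simp
          norm_num
        rw [Fintype.sum_unique]
        calc _ ≤ (1 / (H : ℝ)) ^ K * 2 :=
              mul_le_mul hpr hexp (Real.exp_pos _).le (by positivity)
          _ = 2 / (H : ℝ) ^ K := by rw [one_div, inv_pow]; ring
      · intro f hf hall
        exact hf () fun t ht => hall t (Finset.mem_range.mp ht))
    (by
      intro y R hR
      -- number of windows
      have hcount : R.card ≤ H * (K * D ^ 2) := by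
        have hsub : R ⊆ (Finset.range H).biUnion (fun i => R.filter (fun r =>
            ∃ t < K, bb r.1 r.2.1 r.2.2 K t = H * y + i)) := by
          intro r hr
          obtain ⟨hW, hS, hy⟩ := hR r hr
          obtain ⟨t, ht, hty⟩ := Finset.mem_biUnion.mp hy
          rw [Finset.mem_range] at ht
          rw [mem_sg] at hty
          refine Finset.mem_biUnion.mpr ⟨b r t % H, Finset.mem_range.mpr (Nat.mod_lt _ hH0), ?_⟩
          rw [Finset.mem_filter]
          refine ⟨hr, t, ht, ?_⟩
          rw [hty]
          exact (Nat.div_add_mod _ _).symm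
        refine (Finset.card_le_card hsub).trans (Finset.card_biUnion_le.trans ?_)
        calc ∑ i ∈ Finset.range H, (R.filter (fun r =>
              ∃ t < K, bb r.1 r.2.1 r.2.2 K t = H * y + i)).card
            ≤ ∑ _i ∈ Finset.range H, K * D ^ 2 := by
              refine Finset.sum_le_sum fun i _ => ?_
              rcases (R.filter (fun r => ∃ t < K, bb r.1 r.2.1 r.2.2 K t = H * y + i)).eq_empty_or_nonempty
                with h0 | ⟨r, hr⟩
              · rw [h0]; simp
              · rw [Finset.mem_filter] at hr
                obtain ⟨hr, t, ht, hbt⟩ := hr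
                obtain ⟨hW, hS, _⟩ := hR r hr
                have h1 := hS t ht
                rw [hbt] at h1
                have h2 : 0 < H * (y : ℕ) + i := lt_of_lt_of_le (by positivity) h1.1
                refine hWC K D (H * y + i) hK h2 (hD _ h2 h1.2) _ fun r' hr' => ?_
                rw [Finset.mem_filter] at hr'
                exact ⟨(hR r' hr'.1).1, hr'.2⟩
          _ = H * (K * D ^ 2) := by simp
      have hcountR : (R.card : ℝ) ≤ H * (K * D ^ 2) := by exact_mod_cast hcount
      have hbigR : (16 : ℝ) * K ^ 2 * H * D ^ 2 ≤ (H : ℝ) ^ K := by exact_mod_cast hbig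
      rw [mul_div_assoc', div_le_div_iff₀ hHK (by positivity)]
      have h3 : (R.card : ℝ) * K ≤ H * (K * D ^ 2) * K :=
        mul_le_mul_of_nonneg_right hcountR (by positivity)
      have h4 : (0 : ℝ) ≤ (K : ℝ) ^ 2 * H * D ^ 2 := by positivity
      nlinarith)
  obtain ⟨f, hf⟩ := key
  refine ⟨{n | vl f (n / H) = n % H}, ?_, ?_⟩
  · intro n _ hn2
    obtain ⟨c, hc1, hc2, hc3, hc4⟩ := exists_blk H n hH0
    have hlt : c / H < N + 1 := by
      have h1 : c / H ≤ 2 ^ (4 * L) / H := Nat.div_le_div_right (by omega)
      omega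
    have hv : vl f (c / H) < H := by
      unfold vl
      rw [dif_pos hlt]
      exact (f _).2
    have hdiv : (H * (c / H) + vl f (c / H)) / H = c / H := by
      rw [Nat.mul_add_div hH0, Nat.div_eq_of_lt hv, add_zero]
    refine ⟨H * (c / H) + vl f (c / H), ?_, ?_⟩
    · show vl f ((H * (c / H) + vl f (c / H)) / H) = (H * (c / H) + vl f (c / H)) % H
      rw [hdiv, Nat.mul_add_mod, Nat.mod_eq_of_lt hv]
    · refine hc4 _ ?_
      rw [mem_blk_iff _ _ _ hH0, hdiv]
  · intro u p q hW hS hall
    exact hf (u, p, q) hW hS hall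

end Pool.Agent.Work.MP_b928c0_nt_tr
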