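import Pool.Agent.Work.MP_b928c0_nt_tr.API

/-!
# MP_b928c0_nt, trade-off: block BS (scale theorem for T1, gap 2)
-/

set_option autoImplicit false

namespace Pool.Agent.Work.MP_b928c0_nt_tr

open Finset Classical
open Pool.Agent.Work.MP_db9399_all (pr DepOnI PackI Stmt_LLLI)

namespace BSAux

theorem exp_half_le : Real.exp (1 / 2) ≤ 2 := by
  have h1 : Real.exp (1 / 2) * Real.exp (1 / 2) = Real.exp 1 := by
    rw [← Real.exp_add]; norm_num
  have h2 := Real.exp_one_lt_d9
  by_contra hc
  have h3 : 2 < Real.exp (1 / 2) := not_le.mp hc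
  nlinarith

/-- value at a number -/
noncomputable def vl {N : ℕ} (f : Fin (N + 1) → Fin 2) (n : ℕ) : ℕ :=
  if h : n < N + 1 then (f ⟨n, h⟩ : ℕ) else 0

/-- the coordinate set `{n, n+1}` -/
noncomputable def sg (N n : ℕ) : Finset (Fin (N + 1)) :=
  univ.filter (fun y => (y : ℕ) = n ∨ (y : ℕ) = n + 1)

/-- membership in the random set -/
def In {N : ℕ} (f : Fin (N + 1) → Fin 2) (n : ℕ) : Prop := ¬ (vl f n = 1 ∧ vl f (n + 1) = 0)

theorem mem_sg {N n : ℕ} (y : Fin (N + 1)) : y ∈ sg N n ↔ ((y : ℕ) = n ∨ (y : ℕ) = n + 1) := by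
  simp [sg]

theorem vl_congr {N : ℕ} (f f' : Fin (N + 1) → Fin 2) (n k : ℕ) (hk : k = n ∨ k = n + 1)
    (h : ∀ y ∈ sg N n, f y = f' y) : vl f k = vl f' k := by
  unfold vl
  by_cases hn : k < N + 1
  · rw [dif_pos hn, dif_pos hn, h ⟨k, hn⟩ (by rw [mem_sg]; exact hk)]
  · rw [dif_neg hn, dif_neg hn]

theorem in_congr {N : ℕ} (f f' : Fin (N + 1) → Fin 2) (n : ℕ) (h : ∀ y ∈ sg N n, f y = f' y) :
    In f n ↔ In f' n := by
  unfold In
  rw [vl_congr f f' n n (Or.inl rfl) h, vl_congr f f' n (n + 1) (Or.inr rfl) h]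

theorem card_sg (N n : ℕ) : (sg N n).card ≤ 2 := by
  have h : ((sg N n).image (fun y : Fin (N + 1) => (y : ℕ))) ⊆ {n, n + 1} := by
    intro x hx
    obtain ⟨y, hy, rfl⟩ := Finset.mem_image.mp hx
    rw [mem_sg] at hy
    simpa using hy
  have h2 : ((sg N n).image (fun y : Fin (N + 1) => (y : ℕ))).card = (sg N n).card :=
    Finset.card_image_of_injective _ (fun a b hab => Fin.ext hab)
  rw [← h2]
  exact (Finset.card_le_card h).trans Finset.card_le_two

theorem pr_congr {Ω : Type} {i : Fintype Ω} (E F : Ω → Prop) (h : ∀ x, E x ↔ F x) :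
    @pr Ω i E = @pr Ω i F := by
  have : E = F := funext fun x => propext (h x)
  rw [this]

theorem pr_or_le {Ω : Type} {i : Fintype Ω} (E F G : Ω → Prop) (h : ∀ x, E x → F x ∨ G x) :
    @pr Ω i E ≤ @pr Ω i F + @pr Ω i G := by
  unfold pr
  rw [← add_div]
  refine div_le_div_of_nonneg_right ?_ (by positivity)
  have h1 : (univ.filter E) ⊆ (univ.filter F) ∪ (univ.filter G) := by
    intro x hx
    rw [Finset.mem_filter] at hx
    rw [Finset.mem_union, Finset.mem_filter, Finset.mem_filter]
    rcases h x hx.2 with h' | h'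
    · exact Or.inl ⟨Finset.mem_univ _, h'⟩
    · exact Or.inr ⟨Finset.mem_univ _, h'⟩
  have h2 := (Finset.card_le_card h1).trans (Finset.card_union_le _ _)
  exact_mod_cast h2

theorem card_biUnion_sg_le (N K : ℕ) (g : ℕ → ℕ) :
    ((Finset.range K).biUnion (fun t => sg N (g t))).card ≤ 2 * K := by
  refine (Finset.card_biUnion_le).trans ?_
  calc ∑ t ∈ Finset.range K, (sg N (g t)).card ≤ ∑ _t ∈ Finset.range K, 2 :=
        Finset.sum_le_sum fun t _ => card_sg N (g t)
    _ = 2 * K := by simp [mul_comm]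

/-- one term is in the random set with probability at most `3/4` -/
theorem pr_in_le (hP1 : Stmt_P1) (hIN : Stmt_IN) (N n : ℕ) (hn : n + 1 < N + 1) :
    @pr _ (@Pi.instFintype (Fin (N + 1)) (fun _ => Fin 2) (fun a b => propDecidable (a = b)) _ _)
      (fun f : Fin (N + 1) → Fin 2 => In f n) ≤ 3 / 4 := by
  have hn0 : n < N + 1 := by omega
  have hne : (⟨n, hn0⟩ : Fin (N + 1)) ≠ ⟨n + 1, hn⟩ := by
    intro h
    have := congrArg Fin.val h
    simp at this
  have h1 := hP1 (Fin (N + 1)) 2 ⟨n, hn0⟩ {0} (by norm_num)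
  have h2 := hIN (Fin (N + 1)) 2 (Fin (N + 1)) {⟨n, hn0⟩, ⟨n + 1, hn⟩} (fun a => {a})
    (fun a f => f a ∈ ({1} : Finset (Fin 2))) (1 / 2) (by norm_num) (by norm_num)
    (by
      intro a _ f f' hff
      have h := hff a (by simp)
      simp only [h])
    (by
      intro a _ b _ hab
      simpa using hab)
    (by
      intro a _
      have h3 := hP1 (Fin (N + 1)) 2 a {1} (by norm_num)
      rw [Finset.card_singleton] at h3
      rw [h3]
      norm_num)
  rw [Finset.card_pair hne] at h2
  rw [Finset.card_singleton] at h1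
  refine (pr_or_le _ (fun f => f ⟨n, hn0⟩ ∈ ({0} : Finset (Fin 2)))
    (fun f => ∀ a ∈ ({⟨n, hn0⟩, ⟨n + 1, hn⟩} : Finset (Fin (N + 1))), f a ∈ ({1} : Finset (Fin 2)))
    (fun f hf => ?_)).trans ?_
  · unfold In vl at hf
    rw [dif_pos hn0, dif_pos hn] at hf
    have key : ∀ x y : Fin 2, ¬ ((x : ℕ) = 1 ∧ (y : ℕ) = 0) → x = 0 ∨ (x = 1 ∧ y = 1) := by
      decide
    rcases key _ _ hf with h | ⟨h, h'⟩
    · left
      simpa using h
    · right
      intro a ha
      rw [Finset.mem_insert, Finset.mem_singleton] at ha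
      rcases ha with rfl | rfl
      · simpa using h
      · simpa using h'
  · rw [h1]
    have h3 := add_le_add_right h2 (((1 : ℕ) : ℝ) / ((2 : ℕ) : ℝ))
    refine h3.trans ?_
    norm_num

end BSAux

open BSAux in
theorem stmt_BS (hFA : Stmt_FA) (hWC : Stmt_WC) (hP1 : Stmt_P1) (hIN : Stmt_IN) (hLW : Stmt_LW) :
    Stmt_BS := by
  intro L K m D hK hL hKm hHm hD hbig
  set N : ℕ := 2 ^ (4 * L) with hN
  have hKr : (1 : ℝ) ≤ K := by exact_mod_cast hK
  -- the data
  let b : ℕ × ℕ × ℕ → ℕ → ℕ := fun r t => bb r.1 r.2.1 r.2.2 K t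
  let Sc : ℕ × ℕ × ℕ → Finset (Fin (N + 1)) := fun r =>
    (Finset.range K).biUnion (fun t => sg N (b r t))
  let P : ℕ × ℕ × ℕ → (Fin (N + 1) → Fin 2) → Prop := fun r f =>
    ¬ ∀ t < K, In f (b r t)
  have key := hLW L K (Fin (N + 1)) 2 (1 / (8 * K)) (2 * (3 / 4 : ℝ) ^ K) Sc P hK (by norm_num)
    (by positivity)
    (by
      rw [div_le_div_iff₀ (by positivity) (by norm_num)]
      nlinarith)
    (by
      intro r hW hS
      have hfar := hFA L m 2 K r.1 r.2.1 r.2.2 hK hKm hHm hW hS
      have hfar2 : ∀ s t, s < t → t < K → b r s + 2 ≤ b r t := by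
        intro s t hst ht
        have h1 := bb_far r.1 r.2.1 r.2.2 K 2 hfar s (t - s) (by omega) (by omega)
        have h2 : s + (t - s) = t := by omega
        rw [h2] at h1
        exact h1
      have hlt : ∀ t < K, b r t < N := fun t ht => (hS t ht).2
      refine ⟨Unit, inferInstance, fun _ => Sc r,
        fun _ f => ∀ t ∈ Finset.range K, In f (b r t), ?_, ?_, ?_, ?_, ?_⟩
      · intro _ f f' hff
        refine propext (forall₂_congr fun t ht => ?_)
        exact in_congr f f' _ (fun y hy => hff y (Finset.mem_biUnion.mpr ⟨t, ht, hy⟩))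
      · intro _
        have h0 := hlt 0 (by omega)
        refine ⟨⟨b r 0, by omega⟩, Finset.mem_biUnion.mpr ⟨0, ?_, ?_⟩⟩
        · rw [Finset.mem_range]; omega
        · rw [mem_sg]
          exact Or.inl rfl
      · intro _
        exact Finset.Subset.refl _
      · have hpr := hIN (Fin (N + 1)) 2 ℕ (Finset.range K) (fun t => sg N (b r t))
            (fun t f => In f (b r t)) (3 / 4) (by norm_num) (by norm_num)
            (by
              intro t _ f f' hff
              exact propext (in_congr f f' _ hff))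
            (by
              intro s hs t ht hst
              rw [Finset.mem_range] at hs ht
              rw [Finset.disjoint_left]
              intro y hy hy'
              rw [mem_sg] at hy hy'
              rcases Nat.lt_or_gt_of_ne hst with h | h
              · have := hfar2 s t h ht; omega
              · have := hfar2 t s h hs; omega)
            (by
              intro t ht
              rw [Finset.mem_range] at ht
              have h1 := hlt t ht
              exact pr_in_le hP1 hIN N (b r t) (by omega))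
        rw [Finset.card_range] at hpr
        have hcard : ((Sc r).card : ℝ) ≤ 2 * K := by exact_mod_cast card_biUnion_sg_le N K _
        have hexp : Real.exp (2 * (1 / (8 * (K : ℝ))) * ((Sc r).card : ℝ)) ≤ 2 := by
          refine (Real.exp_le_exp.mpr ?_).trans exp_half_le
          have h1 : 2 * (1 / (8 * (K : ℝ))) * ((Sc r).card : ℝ) ≤
              2 * (1 / (8 * (K : ℝ))) * (2 * K) :=
            mul_le_mul_of_nonneg_left hcard (by positivity)
          refine h1.trans (le_of_eq ?_)
          field_simp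
          norm_num
        rw [Fintype.sum_unique]
        calc _ ≤ (3 / 4 : ℝ) ^ K * 2 :=
              mul_le_mul hpr hexp (Real.exp_pos _).le (by positivity)
          _ = 2 * (3 / 4 : ℝ) ^ K := by ring
      · intro f hf hall
        exact hf () fun t ht => hall t (Finset.mem_range.mp ht))
    (by
      intro y R hR
      -- windows with a given term
      have hone : ∀ n : ℕ, (R.filter (fun r => ∃ t < K, bb r.1 r.2.1 r.2.2 K t = n)).card ≤
          K * D ^ 2 := by
        intro n
        rcases (R.filter (fun r => ∃ t < K, bb r.1 r.2.1 r.2.2 K t = n)).eq_empty_or_nonempty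
          with h0 | ⟨r, hr⟩
        · rw [h0]; simp
        · rw [Finset.mem_filter] at hr
          obtain ⟨hr, t, ht, hbt⟩ := hr
          obtain ⟨hW, hS, _⟩ := hR r hr
          have h1 := hS t ht
          rw [hbt] at h1
          have h2 : 0 < n := lt_of_lt_of_le (by positivity) h1.1
          refine hWC K D n hK h2 (hD _ h2 h1.2) _ fun r' hr' => ?_
          rw [Finset.mem_filter] at hr'
          exact ⟨(hR r' hr'.1).1, hr'.2⟩
      have hcount : R.card ≤ 2 * (K * D ^ 2) := by
        have hsub : R ⊆ (R.filter (fun r => ∃ t < K, bb r.1 r.2.1 r.2.2 K t = y)) ∪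
            (R.filter (fun r => ∃ t < K, bb r.1 r.2.1 r.2.2 K t = (y : ℕ) - 1)) := by
          intro r hr
          obtain ⟨hW, hS, hy⟩ := hR r hr
          obtain ⟨t, ht, hty⟩ := Finset.mem_biUnion.mp hy
          rw [Finset.mem_range] at ht
          rw [mem_sg] at hty
          rw [Finset.mem_union, Finset.mem_filter, Finset.mem_filter]
          rcases hty with h | h
          · exact Or.inl ⟨hr, t, ht, h.symm⟩
          · refine Or.inr ⟨hr, t, ht, ?_⟩
            rw [h]
            rfl
        have h1 := (Finset.card_le_card hsub).trans (Finset.card_union_le _ _)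
        have h2 := hone y
        have h3 := hone ((y : ℕ) - 1)
        omega
      have hcountR : (R.card : ℝ) ≤ 2 * (K * D ^ 2) := by exact_mod_cast hcount
      have hbigR : (64 : ℝ) * K ^ 2 * D ^ 2 * 3 ^ K ≤ 4 ^ K := by exact_mod_cast hbig
      have h34 : ((3 : ℝ) / 4) ^ K = 3 ^ K / 4 ^ K := div_pow _ _ _
      rw [h34, ← mul_div_assoc, ← mul_div_assoc, div_le_div_iff₀ (by positivity) (by positivity)]
      have h3 : (R.card : ℝ) * (K * 3 ^ K) ≤ 2 * (K * D ^ 2) * (K * 3 ^ K) :=
        mul_le_mul_of_nonneg_right hcountR (by positivity)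
      have h4 : (0 : ℝ) ≤ (K : ℝ) ^ 2 * D ^ 2 * 3 ^ K := by positivity
      nlinarith)
  obtain ⟨f, hf⟩ := key
  refine ⟨{n | In f n}, ?_, ?_⟩
  · intro n _ _
    by_cases hc : In f n
    · exact ⟨n, hc, le_rfl, by omega⟩
    · refine ⟨n + 1, ?_, by omega, by omega⟩
      show In f (n + 1)
      unfold In at hc ⊢
      rw [not_not] at hc
      intro h
      omega
  · intro u p q hW hS hall
    exact hf (u, p, q) hW hS hall

end Pool.Agent.Work.MP_b928c0_nt_tr
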