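import Pool.Agent.Work.MP_b928c0_nt_tr.API

/-!
# MP_b928c0_nt, trade-off: block CO
-/

set_option autoImplicit false

namespace Pool.Agent.Work.MP_b928c0_nt_tr

open Finset Classical

namespace COAux

/-- the number of colourings which are `false` on `Z` -/
theorem card_false {V : ℕ} (Z : Finset (Fin (V + 1))) :
    (univ.filter (fun ψ : Fin (V + 1) → Bool => ∀ x ∈ Z, ψ x = false)).card * 2 ^ Z.card =
      2 ^ (V + 1) := by
  have h1 : univ.filter (fun ψ : Fin (V + 1) → Bool => ∀ x ∈ Z, ψ x = false) =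
      Fintype.piFinset (fun x => if x ∈ Z then {false} else univ) := by
    ext ψ
    simp only [mem_filter, mem_univ, true_and, Fintype.mem_piFinset]
    constructor
    · intro h x
      split_ifs with hx
      · rw [mem_singleton]
        exact h x hx
      · exact mem_univ _
    · intro h x hx
      have := h x
      rw [if_pos hx, mem_singleton] at this
      exact this
  rw [h1, Fintype.card_piFinset]
  have h2 : ∀ x : Fin (V + 1), (if x ∈ Z then ({false} : Finset Bool) else univ).card =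
      if x ∈ Z then 1 else 2 := by
    intro x
    split_ifs <;> simp
  have h3 : (2 : ℕ) ^ Z.card = ∏ x : Fin (V + 1), if x ∈ Z then 2 else 1 := by
    rw [prod_ite_mem, univ_inter, prod_const]
  rw [prod_congr rfl fun x _ => h2 x, h3, ← prod_mul_distrib]
  have h4 : ∀ x : Fin (V + 1), ((if x ∈ Z then 1 else 2) * if x ∈ Z then 2 else 1) = 2 := by
    intro x
    split_ifs <;> rfl
  rw [prod_congr rfl fun x _ => h4 x, prod_const, card_univ, Fintype.card_fin]

/-- the values of the quadratic progression with first terms `T` -/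
noncomputable def Zs (V K0 : ℕ) (T : Fin (V + 1) × Fin (V + 1) × Fin (V + 1)) :
    Finset (Fin (V + 1)) :=
  univ.filter fun x => ∃ i < K0, 2 * (x.1 : ℤ) = 2 * (T.1.1 : ℤ) +
    (4 * (T.2.1.1 : ℤ) - 3 * T.1.1 - T.2.2.1) * i + ((T.2.2.1 : ℤ) - 2 * T.2.1.1 + T.1.1) * (i : ℤ) ^ 2

/-- a quadratic progression has at least `K0 / 2` values -/
theorem card_Zs {V K0 : ℕ} (hK : 4 ≤ K0) {w : ℕ → ℕ} {α β γ : ℤ} (hγ : 1 ≤ γ)
    (hw : ∀ i < K0, w i ≤ V ∧ (w i : ℤ) = α + β * i + γ * (i : ℤ) ^ 2) :
    K0 / 2 ≤ (Zs V K0 (Fin.ofNat (V + 1) (w 0), Fin.ofNat (V + 1) (w 1),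
      Fin.ofNat (V + 1) (w 2))).card ∧
    ∀ x ∈ Zs V K0 (Fin.ofNat (V + 1) (w 0), Fin.ofNat (V + 1) (w 1), Fin.ofNat (V + 1) (w 2)),
      ∃ i < K0, w i = x.1 := by
  have hv : ∀ i < K0, ((Fin.ofNat (V + 1) (w i)).1 : ℤ) = w i := by
    intro i hi
    have := (hw i hi).1
    have h1 : (Fin.ofNat (V + 1) (w i)).1 = w i := by
      simp only [Fin.ofNat]
      exact Nat.mod_eq_of_lt (by omega)
    rw [h1]
  have h0 := (hw 0 (by omega)).2
  have h1 := (hw 1 (by omega)).2
  have h2 := (hw 2 (by omega)).2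
  push_cast at h0 h1 h2
  have key : ∀ i : ℕ, i < K0 → 2 * (w i : ℤ) = 2 * (w 0 : ℤ) + (4 * (w 1 : ℤ) - 3 * w 0 - w 2) * i +
      ((w 2 : ℤ) - 2 * w 1 + w 0) * (i : ℤ) ^ 2 := by
    intro i hi
    rw [(hw i hi).2, h0, h1, h2]
    ring
  constructor
  · have hinj : K0 ≤ 2 * ((range K0).image w).card := by
      have h3 := card_le_mul_card_image (s := range K0) (f := w) 2 (fun v _ => by
        by_contra hcon
        rw [not_le, two_lt_card] at hcon
        obtain ⟨a, ha, b, hb, c, hc, hab, hac, hbc⟩ := hcon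
        rw [mem_filter, mem_range] at ha hb hc
        have ea := (hw a ha.1).2
        have eb := (hw b hb.1).2
        have ec := (hw c hc.1).2
        rw [ha.2] at ea
        rw [hb.2] at eb
        rw [hc.2] at ec
        have f1 : ((b : ℤ) - a) * (β + γ * (a + b)) = 0 := by linear_combination ea - eb
        have f2 : ((c : ℤ) - b) * (β + γ * (b + c)) = 0 := by linear_combination eb - ec
        have g1 : ((b : ℤ) - a) ≠ 0 := by
          intro h
          exact hab (by exact_mod_cast (sub_eq_zero.1 h).symm)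
        have g2 : ((c : ℤ) - b) ≠ 0 := by
          intro h
          exact hbc (by exact_mod_cast (sub_eq_zero.1 h).symm)
        have k1 := (mul_eq_zero.1 f1).resolve_left g1
        have k2 := (mul_eq_zero.1 f2).resolve_left g2
        have k3 : γ * ((c : ℤ) - a) = 0 := by linear_combination k2 - k1
        rcases mul_eq_zero.1 k3 with h | h
        · omega
        · exact hac (by exact_mod_cast (sub_eq_zero.1 h).symm))
      rwa [card_range] at h3
    have hsub : ((range K0).image w).card ≤ (Zs V K0 (Fin.ofNat (V + 1) (w 0),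
        Fin.ofNat (V + 1) (w 1), Fin.ofNat (V + 1) (w 2))).card := by
      refine card_le_card_of_injOn (fun v => Fin.ofNat (V + 1) v) (fun v hv' => ?_) ?_
      · obtain ⟨i, hi, rfl⟩ := mem_image.1 (mem_coe.1 hv')
        have hi' := mem_range.1 hi
        rw [mem_coe]
        unfold Zs
        rw [mem_filter]
        refine ⟨mem_univ _, i, hi', ?_⟩
        simp only
        rw [hv i hi', hv 0 (by omega), hv 1 (by omega), hv 2 (by omega)]
        exact key i hi'
      · intro v hv' v' hv'' h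
        obtain ⟨i, hi, rfl⟩ := mem_image.1 (mem_coe.1 hv')
        obtain ⟨j, hj, rfl⟩ := mem_image.1 (mem_coe.1 hv'')
        have e1 := hv i (mem_range.1 hi)
        have e2 := hv j (mem_range.1 hj)
        simp only at h
        rw [h] at e1
        rw [e1] at e2
        exact_mod_cast e2
    omega
  · intro x hx
    unfold Zs at hx
    rw [mem_filter] at hx
    obtain ⟨-, i, hi, h⟩ := hx
    simp only at h
    rw [hv 0 (by omega), hv 1 (by omega), hv 2 (by omega), ← key i hi] at h
    refine ⟨i, hi, ?_⟩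
    have h3 : (w i : ℤ) = (x.1 : ℤ) := by linarith
    exact_mod_cast h3

end COAux

open COAux

theorem stmt_CO : Stmt_CO := by
  intro V K0 hVK
  have hK : 4 ≤ K0 := by
    by_contra hcon
    have h1 : K0 / 2 ≤ 1 := by omega
    have h2 : 2 ^ (K0 / 2) ≤ 2 ^ 1 := Nat.pow_le_pow_right (by norm_num) h1
    have h3 : 1 ≤ (V + 1) ^ 3 := Nat.one_le_pow _ _ (by omega)
    omega
  set good := univ.filter (fun ψ : Fin (V + 1) → Bool => Good V K0 ψ) with hgood
  set bad := univ.filter (fun ψ : Fin (V + 1) → Bool => ¬ Good V K0 ψ) with hbad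
  have htot : good.card + bad.card = 2 ^ (V + 1) := by
    rw [hgood, hbad, card_filter_add_card_filter_not]
    simp
  set Tr : Finset (Fin (V + 1) × Fin (V + 1) × Fin (V + 1)) :=
    univ.filter fun T => K0 / 2 ≤ (Zs V K0 T).card with hTr
  have hcov : bad ⊆ Tr.biUnion fun T =>
      univ.filter (fun ψ : Fin (V + 1) → Bool => ∀ x ∈ Zs V K0 T, ψ x = false) := by
    intro ψ hψ
    rw [hbad, mem_filter] at hψ
    have h1 := hψ.2
    unfold Good at h1
    push Not at h1
    obtain ⟨w, α, β, γ, hγ, hw, hk⟩ := h1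
    obtain ⟨h2, h3⟩ := card_Zs hK hγ hw
    refine mem_biUnion.2 ⟨_, mem_filter.2 ⟨mem_univ _, h2⟩, mem_filter.2 ⟨mem_univ _, ?_⟩⟩
    intro x hx
    obtain ⟨i, hi, hix⟩ := h3 x hx
    have h4 := hk i hi
    rw [hix] at h4
    unfold ev at h4
    rw [dif_pos x.2] at h4
    exact Bool.eq_false_iff.2 h4
  have hTrc : Tr.card ≤ (V + 1) ^ 3 := by
    refine (card_le_univ _).trans (le_of_eq ?_)
    rw [Fintype.card_prod, Fintype.card_prod, Fintype.card_fin]
    ring
  have hone : ∀ T ∈ Tr,
      (univ.filter (fun ψ : Fin (V + 1) → Bool => ∀ x ∈ Zs V K0 T, ψ x = false)).card *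
        2 ^ (K0 / 2) ≤ 2 ^ (V + 1) := by
    intro T hT
    rw [← card_false (Zs V K0 T)]
    exact Nat.mul_le_mul_left _ (Nat.pow_le_pow_right (by norm_num) (mem_filter.1 hT).2)
  have hbadc : bad.card * 2 ^ (K0 / 2) ≤ (V + 1) ^ 3 * 2 ^ (V + 1) := by
    calc bad.card * 2 ^ (K0 / 2) ≤ (∑ T ∈ Tr,
        (univ.filter (fun ψ : Fin (V + 1) → Bool => ∀ x ∈ Zs V K0 T, ψ x = false)).card) *
          2 ^ (K0 / 2) := Nat.mul_le_mul_right _ ((card_le_card hcov).trans card_biUnion_le)
      _ = ∑ T ∈ Tr, (univ.filter (fun ψ : Fin (V + 1) → Bool => ∀ x ∈ Zs V K0 T, ψ x = false)).card *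
          2 ^ (K0 / 2) := sum_mul _ _ _
      _ ≤ ∑ T ∈ Tr, 2 ^ (V + 1) := sum_le_sum hone
      _ = Tr.card * 2 ^ (V + 1) := by rw [sum_const, smul_eq_mul]
      _ ≤ (V + 1) ^ 3 * 2 ^ (V + 1) := Nat.mul_le_mul_right _ hTrc
  have h3b : 3 * bad.card ≤ 2 ^ (V + 1) := by
    have h1 : (V + 1) ^ 3 * (3 * bad.card) ≤ (V + 1) ^ 3 * 2 ^ (V + 1) := by
      refine le_trans ?_ hbadc
      calc (V + 1) ^ 3 * (3 * bad.card) = bad.card * (3 * (V + 1) ^ 3) := by ring
        _ ≤ bad.card * 2 ^ (K0 / 2) := Nat.mul_le_mul_left _ hVK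
    exact Nat.le_of_mul_le_mul_left h1 (pow_pos (by omega) 3)
  have hmain : 2 * 2 ^ (V + 1) ≤ 3 * good.card := by omega
  refine ⟨hmain, fun v => ?_⟩
  have hv : (univ.filter (fun ψ : Fin (V + 1) → Bool => Good V K0 ψ ∧ ev ψ v = true)).card ≤
      2 ^ V := by
    by_cases hvV : v < V + 1
    · have h1 : (univ.filter (fun ψ : Fin (V + 1) → Bool => ∀ x ∈ ({⟨v, hvV⟩} : Finset (Fin (V + 1))),
          ψ x = false)).card * 2 ^ 1 = 2 ^ (V + 1) := by
        have := card_false (V := V) {⟨v, hvV⟩}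
        rwa [card_singleton] at this
      have h2 : (univ.filter (fun ψ : Fin (V + 1) → Bool => Good V K0 ψ ∧ ev ψ v = true)).card +
          (univ.filter (fun ψ : Fin (V + 1) → Bool => ∀ x ∈ ({⟨v, hvV⟩} : Finset (Fin (V + 1))),
          ψ x = false)).card ≤ 2 ^ (V + 1) := by
        rw [← card_union_of_disjoint]
        · refine (card_le_univ _).trans (le_of_eq ?_)
          simp
        · rw [disjoint_left]
          intro ψ h3 h4
          have h5 := (mem_filter.1 h3).2.2
          have h6 := (mem_filter.1 h4).2 _ (mem_singleton_self _)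
          unfold ev at h5
          rw [dif_pos hvV, h6] at h5
          exact Bool.false_ne_true h5
      rw [pow_succ] at h1 h2
      omega
    · have h1 : univ.filter (fun ψ : Fin (V + 1) → Bool => Good V K0 ψ ∧ ev ψ v = true) = ∅ := by
        rw [filter_eq_empty_iff]
        rintro ψ - ⟨-, h⟩
        unfold ev at h
        rw [dif_neg hvV] at h
        exact Bool.false_ne_true h
      rw [h1, card_empty]
      exact Nat.zero_le _
  rw [pow_succ] at hmain
  omega

end Pool.Agent.Work.MP_b928c0_nt_tr
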