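import Pool.Agent.Work.MP_b928c0_nt_tr.API

/-!
# MP_b928c0_nt, trade-off: block CT (number of windows with a given type in a block)
-/

set_option autoImplicit false

namespace Pool.Agent.Work.MP_b928c0_nt_tr

open Finset Classical

namespace CTAux

/-- `u` is recovered from a term -/
theorem div_bb (u p q K t : ℕ) (hp : 0 < p) (hq : 0 < q) :
    bb u p q K t / (p ^ t * q ^ (K - 1 - t)) = u := by
  have h1 : 0 < p ^ t * q ^ (K - 1 - t) := Nat.mul_pos (pow_pos hp _) (pow_pos hq _)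
  have h2 : bb u p q K t = u * (p ^ t * q ^ (K - 1 - t)) := by
    unfold bb
    ring
  rw [h2]
  exact Nat.mul_div_cancel _ h1

/-- the base of a window in the scale is small -/
theorem base_lt (L K m' x u b : ℕ) (hm : 4 * L ≤ K * m') (hx : x ^ K ∣ u)
    (hu : 0 < u) (hub : u ≤ b) (hb : b < 2 ^ (4 * L)) : x < 2 ^ m' := by
  by_contra hc
  have h1 : (2 ^ m') ^ K ≤ x ^ K := Nat.pow_le_pow_left (not_lt.mp hc) K
  have h2 : x ^ K ≤ u := Nat.le_of_dvd hu hx
  have h3 : 2 ^ (4 * L) ≤ (2 ^ m') ^ K := by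
    rw [← pow_mul, mul_comm m' K]
    exact Nat.pow_le_pow_right (by norm_num) hm
  omega

end CTAux

theorem stmt_CT : Stmt_CT := by
  intro l L m m' h K a hl hh hL hhL hm hm' hK R hR
  have hsub : R ⊆ (Finset.range (2 ^ m) ×ˢ (Finset.range h ×ˢ (Finset.range K ×ˢ
      (Finset.range (2 ^ m') ×ˢ Finset.range (2 ^ m'))))).image
      (fun z : ℕ × ℕ × ℕ × ℕ × ℕ =>
        ((h * (a * z.1 ^ l / h) + z.2.1) / (z.2.2.2.1 ^ z.2.2.1 * z.2.2.2.2 ^ (K - 1 - z.2.2.1)),
          z.2.2.2.1, z.2.2.2.2)) := by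
    rintro ⟨u, p, q⟩ hr
    obtain ⟨⟨hu, hq, hqp, hco, hdv⟩, hsc, t, ht, n, hn, han⟩ := hR _ hr
    simp only at hu hq hqp hco hdv hn
    have hp : 0 < p := by omega
    obtain ⟨hs1, hs2⟩ := hsc t ht
    simp only at hs1 hs2
    have hub : u ≤ bb u p q K t := le_bb u p q K t hp hq
    have hpu : p ^ K ∣ u := dvd_trans (pow_dvd_pow_of_dvd (Nat.dvd_mul_right p q) K) hdv
    have hqu : q ^ K ∣ u := dvd_trans (pow_dvd_pow_of_dvd (Nat.dvd_mul_left q p) K) hdv
    have hpl := CTAux.base_lt L K m' p u _ hm' hpu hu hub hs2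
    have hql := CTAux.base_lt L K m' q u _ hm' hqu hu hub hs2
    have hmem := mem_blk h _ n hn
    have hblk := (mem_blk_iff h _ n hh).mp hn
    have hpow : 2 ^ (L - 1) * 2 = 2 ^ L := by
      rw [← pow_succ]
      congr 1
      omega
    have hpos : 0 < 2 ^ (L - 1) := pow_pos (by norm_num) _
    have hn0 : n ≠ 0 := by
      have := hmem.2
      omega
    have hpow2 : 2 ^ (4 * L + 1) = 2 ^ (4 * L) + 2 ^ (4 * L) := by
      rw [pow_succ]
      ring
    have hpow3 : 2 ^ (L - 1) ≤ 2 ^ (4 * L) := Nat.pow_le_pow_right (by norm_num) (by omega)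
    have hn1 : n < 2 ^ (4 * L + 1) := by
      have := hmem.1
      omega
    have hy : xr l n < 2 ^ m := xr_lt l n (4 * L + 1) m hn0 hn1 hm
    have hny : a * xr l n ^ l = n := by
      rw [← han]
      exact ar_mul_xr_pow l n hn0
    rw [Finset.mem_image]
    refine ⟨(xr l n, bb u p q K t % h, t, p, q), ?_, ?_⟩
    · simp only [Finset.mem_product, Finset.mem_range]
      exact ⟨hy, Nat.mod_lt _ hh, ht, hpl, hql⟩
    · simp only
      rw [hny, hblk, Nat.div_add_mod, CTAux.div_bb u p q K t hp hq]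
  calc R.card ≤ _ := Finset.card_le_card hsub
    _ ≤ _ := Finset.card_image_le
    _ = 2 ^ m * (h * (K * (2 ^ m' * 2 ^ m'))) := by
        simp only [Finset.card_product, Finset.card_range]
    _ = 2 ^ m * h * K * 2 ^ (2 * m') := by
        rw [two_mul, pow_add]
        ring

end Pool.Agent.Work.MP_b928c0_nt_tr
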