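import Pool.Agent.Work.MP_b928c0_nt_tr.API

/-!
# MP_b928c0_nt, block DC: many distinct types in `l` blocks
-/

set_option autoImplicit false

namespace Pool.Agent.Work.MP_b928c0_nt_tr

open Finset Classical

namespace DCAux

/-- Number of elements is at most number of values plus a bound for the non representatives. The key
`k` decreases strictly from an element to its representative, and the non representatives with given
drop are at most `B`. -/
theorem card_le_values {α : Type} (U : Finset α) (f : α → ℕ) (k : α → ℕ) (K B : ℕ)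
    (hk : ∀ a ∈ U, k a < K)
    (hinj : ∀ a ∈ U, ∀ b ∈ U, f a = f b → k a = k b → a = b)
    (hB : ∀ (d : ℕ) (S : Finset α) (r : α → α), 0 < d → S ⊆ U →
      (∀ a ∈ S, r a ∈ U ∧ f (r a) = f a ∧ k (r a) + d = k a) → S.card ≤ B) :
    U.card ≤ (U.image f).card + B * K := by
  classical
  have hex : ∀ a : α, a ∈ U → ∃ b ∈ U, f b = f a ∧ ∀ c ∈ U, f c = f a → k b ≤ k c := by
    intro a ha
    obtain ⟨b, hb, hbm⟩ := Finset.exists_min_image (U.filter (fun c => f c = f a)) k
      ⟨a, by simp [ha]⟩
    rw [Finset.mem_filter] at hb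
    exact ⟨b, hb.1, hb.2, fun c hc hfc => hbm c (by simp [hc, hfc])⟩
  choose! r hrU hrf hrm using hex
  have hsplit := Finset.card_filter_add_card_filter_not (s := U) (fun a => r a = a)
  have h1 : (U.filter (fun a => r a = a)).card ≤ (U.image f).card := by
    rw [← Finset.card_image_of_injOn (s := U.filter (fun a => r a = a)) (f := f)]
    · exact Finset.card_le_card (Finset.image_subset_image (Finset.filter_subset _ _))
    · intro a ha b hb hab
      rw [Finset.mem_coe, Finset.mem_filter] at ha hb
      refine hinj a ha.1 b hb.1 hab (le_antisymm ?_ ?_)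
      · have := hrm a ha.1 b hb.1 hab.symm
        rwa [ha.2] at this
      · have := hrm b hb.1 a ha.1 hab
        rwa [hb.2] at this
  have h2 : (U.filter (fun a => ¬ r a = a)).card ≤ B * (Finset.range K).card := by
    refine Finset.card_le_mul_card_image_of_maps_to (f := fun a => k a - k (r a)) ?_ B ?_
    · intro a ha
      rw [Finset.mem_filter] at ha
      have := hk a ha.1
      rw [Finset.mem_range]
      omega
    · intro d _
      rcases Nat.eq_zero_or_pos d with h0 | h0
      · have : ((U.filter (fun a => ¬ r a = a)).filter (fun a => k a - k (r a) = d)) = ∅ := by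
          rw [Finset.filter_eq_empty_iff]
          intro a ha
          rw [Finset.mem_filter] at ha
          intro hd
          have h3 := hrm a ha.1 a ha.1 rfl
          have h4 : k (r a) = k a := by omega
          exact ha.2 (hinj _ (hrU a ha.1) _ ha.1 (hrf a ha.1) h4)
        rw [this]
        simp
      · refine hB d _ r h0 ?_ ?_
        · intro a ha
          rw [Finset.mem_filter, Finset.mem_filter] at ha
          exact ha.1.1
        · intro a ha
          rw [Finset.mem_filter, Finset.mem_filter] at ha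
          refine ⟨hrU a ha.1.1, hrf a ha.1.1, ?_⟩
          omega
  rw [Finset.card_range] at h2
  omega

end DCAux

theorem stmt_DC (hTH : Stmt_TH) (hBD : Stmt_BD) (hFA : Stmt_FA) : Stmt_DC := by
  intro l L m h g K0 u p q hl hh hL hL1 hhl hg hK0g hK0 hlm hW hS τ hτ
  have hm1 : 1 ≤ 2 ^ m := Nat.one_le_two_pow
  have h2m : 2 ^ (2 * m) = 2 ^ m * 2 ^ m := by rw [two_mul, pow_add]
  have hKpos : 1 ≤ l * K0 := Nat.one_le_iff_ne_zero.mpr (Nat.mul_ne_zero (by omega) (by omega))
  -- far apart
  have hfar : ∀ t, t + 1 < l * K0 → bb u p q (l * K0) t + 2 * h ≤ bb u p q (l * K0) (t + 1) := by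
    refine hFA L m (2 * h) (l * K0) u p q hKpos ?_ ?_ hW hS
    · have h1 : l * m ≤ l * K0 * m := by
        rw [mul_assoc]
        exact Nat.mul_le_mul_left _ (Nat.le_mul_of_pos_left _ (by omega))
      omega
    · have h1 : 2 * h * 2 ^ m ≤ 64 * h * 2 ^ (2 * m) := by
        rw [h2m]
        calc 2 * h * 2 ^ m ≤ 64 * h * 2 ^ m := Nat.mul_le_mul_right _ (by omega)
          _ ≤ 64 * h * (2 ^ m * 2 ^ m) := by
            rw [← mul_assoc]
            exact Nat.le_mul_of_pos_right _ (by omega)
      omega
  have h64 : 64 * h < 2 ^ L := by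
    have h1 : 64 * h ≤ 64 * h * 2 ^ (2 * m) := Nat.le_mul_of_pos_right _ (by positivity)
    omega
  have hLL : 2 ^ L = 2 * 2 ^ (L - 1) := by
    rw [← pow_succ']
    congr 1
    omega
  -- the indices
  set idx : ℕ → ℕ := fun ρ => ρ + l * τ ρ with hidx
  have hidx_lt : ∀ ρ < l, idx ρ < l * K0 := by
    intro ρ hρ
    have h1 := hτ ρ hρ
    have h2 : l * (τ ρ + 1) ≤ l * K0 := Nat.mul_le_mul_left _ h1
    rw [mul_add] at h2
    simp only [hidx]
    omega
  have hidx_inj : Set.InjOn idx (Finset.range l : Finset ℕ) := by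
    intro a ha b hb hab
    rw [Finset.mem_coe, Finset.mem_range] at ha hb
    have h1 : idx a % l = a := by
      simp only [hidx]
      rw [Nat.add_mul_mod_self_left, Nat.mod_eq_of_lt ha]
    have h2 : idx b % l = b := by
      simp only [hidx]
      rw [Nat.add_mul_mod_self_left, Nat.mod_eq_of_lt hb]
    rw [← h1, hab, h2]
  set T : Finset ℕ := (Finset.range l).image idx with hT
  have hTcard : T.card = l := by
    rw [hT, Finset.card_image_of_injOn hidx_inj, Finset.card_range]
  have hTlt : ∀ t ∈ T, t < l * K0 := by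
    intro t ht
    rw [hT, Finset.mem_image] at ht
    obtain ⟨ρ, hρ, rfl⟩ := ht
    exact hidx_lt ρ (Finset.mem_range.mp hρ)
  set V : ℕ → Finset ℕ := fun t => (blk h (bb u p q (l * K0) t)).erase (bb u p q (l * K0) t) with hV
  set U : Finset (Σ _ : ℕ, ℕ) := T.sigma V with hU
  have hUcard : U.card = l * (h - 1) := by
    rw [hU, Finset.card_sigma]
    have : ∀ t ∈ T, (V t).card = h - 1 := by
      intro t _
      rw [hV]
      simp only
      rw [Finset.card_erase_of_mem (self_mem_blk h _ hh), card_blk]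
    rw [Finset.sum_congr rfl this, Finset.sum_const, hTcard, smul_eq_mul]
  have hmem : ∀ a ∈ U, a.1 < l * K0 ∧ a.2 ∈ blk h (bb u p q (l * K0) a.1) ∧
      a.2 ≠ bb u p q (l * K0) a.1 := by
    intro a ha
    rw [hU, Finset.mem_sigma] at ha
    obtain ⟨h1, h2⟩ := ha
    rw [hV] at h2
    simp only at h2
    rw [Finset.mem_erase] at h2
    exact ⟨hTlt _ h1, h2.2, h2.1⟩
  -- equal types in one block
  have hblock : ∀ t, t < l * K0 → ∀ x ∈ blk h (bb u p q (l * K0) t),
      ∀ y ∈ blk h (bb u p q (l * K0) t), x < y → ar l x ≠ ar l y := by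
    intro t ht x hx y hy hxy
    have hs := hS t ht
    have h1 := mem_blk _ _ _ hx
    have h2 := mem_blk _ _ _ hy
    have hpow : 2 ^ (4 * L + 1) = 2 * 2 ^ (4 * L) := by rw [pow_succ']
    have hpow2 : 2 ^ L ≤ 2 ^ (4 * L) := Nat.pow_le_pow_right (by norm_num) (by omega)
    refine hBD l L m h hl hh hL hL1 hlm x y ?_ hxy ?_ ?_
    · omega
    · unfold blk at hx hy
      rw [Finset.mem_Ico] at hx hy
      omega
    · omega
  have key := DCAux.card_le_values U (fun a => ar l a.2) (fun a => a.1) (l * K0) (2 * g)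
    (fun a ha => (hmem a ha).1) ?_ ?_
  · rw [hUcard] at key
    have himg : (U.image (fun a => ar l a.2)).card ≤
        (((Finset.range l).biUnion
          (fun ρ => blk h (bb u p q (l * K0) (ρ + l * τ ρ)))).image (ar l)).card := by
      refine Finset.card_le_card ?_
      intro c hc
      rw [Finset.mem_image] at hc
      obtain ⟨a, ha, rfl⟩ := hc
      rw [Finset.mem_image]
      refine ⟨a.2, ?_, rfl⟩
      rw [Finset.mem_biUnion]
      have ha' := ha
      rw [hU, Finset.mem_sigma] at ha'
      obtain ⟨h1, _⟩ := ha'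
      rw [hT, Finset.mem_image] at h1
      obtain ⟨ρ, hρ, hρe⟩ := h1
      refine ⟨ρ, hρ, ?_⟩
      have h2 := (hmem a ha).2.1
      rw [← hρe] at h2
      exact h2
    have e1 : 2 * (l * (h - 1)) + 2 * l = 2 * (l * h) := by
      obtain ⟨h', rfl⟩ : ∃ h', h = h' + 1 := ⟨h - 1, by omega⟩
      rw [Nat.add_sub_cancel]
      ring
    have e2 : l * (2 + 4 * K0 * g) ≤ l * h := Nat.mul_le_mul_left _ hK0g
    have e3 : l * (2 + 4 * K0 * g) = 2 * l + 2 * (2 * g * (l * K0)) := by ring
    omega
  · intro a ha b hb hf hk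
    obtain ⟨t, x⟩ := a
    obtain ⟨t', y⟩ := b
    simp only at hf hk
    subst hk
    have h1 := hmem _ ha
    have h2 := hmem _ hb
    simp only at h1 h2
    rcases lt_trichotomy x y with h3 | h3 | h3
    · exact absurd hf (hblock t h1.1 x h1.2.1 y h2.2.1 h3)
    · rw [h3]
    · exact absurd hf.symm (hblock t h1.1 y h2.2.1 x h1.2.1 h3)
  · intro d S r hd hSU hr
    set Φ : (Σ _ : ℕ, ℕ) → ℕ × (ℕ × ℕ) := fun a => ((r a).1, (a.2, (r a).2)) with hΦ
    have hinj : Set.InjOn Φ S := by
      intro a ha b hb hab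
      rw [Finset.mem_coe] at ha hb
      simp only [hΦ, Prod.mk.injEq] at hab
      obtain ⟨e1, e2, _⟩ := hab
      have h1 := (hr a ha).2.2
      have h2 := (hr b hb).2.2
      try simp only at h1 h2
      obtain ⟨t, x⟩ := a
      obtain ⟨t', y⟩ := b
      simp only at h1 h2 e2
      subst e2
      have : t = t' := by omega
      rw [this]
    rw [← Finset.card_image_of_injOn hinj]
    refine hTH l L m h g u p q (l * K0) d hl hh hL hhl hg hlm hW hS hd hfar _ ?_
    intro y hy
    rw [Finset.mem_image] at hy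
    obtain ⟨a, ha, rfl⟩ := hy
    obtain ⟨h1, h2, h3⟩ := hr a ha
    have h4 := hmem a (hSU ha)
    have h5 := hmem _ h1
    try simp only at h2 h3
    have h6 := mem_blk _ _ _ h4.2.1
    have h7 := mem_blk _ _ _ h5.2.1
    simp only [hΦ]
    unfold Coin
    simp only
    rw [h3]
    exact ⟨h4.1, h6.1, h6.2, h7.1, h7.2, h4.2.2, h5.2.2, h2.symm⟩

end Pool.Agent.Work.MP_b928c0_nt_tr
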