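import Pool.Agent.Work.MP_b928c0_nt_tr.API

/-!
# MP_b928c0_nt, trade-off: the determinant argument
-/

set_option autoImplicit false

namespace Pool.Agent.Work.MP_b928c0_nt_tr

namespace DTAux

/-- `p ^ k` divides a nonzero integer of absolute value `< 2 ^ g`, so `k < g`. -/
theorem lt_of_dvd (g k p : ℕ) (x : ℤ) (hp : 2 ≤ p) (hx : x ≠ 0) (hd : ((p : ℤ) ^ k) ∣ x)
    (hb : |x| < 2 ^ g) : k < g := by
  have h1 : (p : ℤ) ^ k ≤ |x| := by
    refine Int.le_of_dvd (abs_pos.mpr hx) ?_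
    exact (dvd_abs _ _).mpr hd
  have h2 : (2 : ℤ) ^ k ≤ (p : ℤ) ^ k := by
    refine pow_le_pow_left₀ (by norm_num) ?_ k
    exact_mod_cast hp
  have h3 : (2 : ℤ) ^ k < 2 ^ g := by linarith
  exact (pow_lt_pow_iff_right₀ (by norm_num)).mp h3

theorem abs_mul_lt (x y : ℤ) (h : ℤ) (hx : |x| < h) (hy : |y| < h) : |x * y| ≤ h ^ 2 := by
  rw [abs_mul, sq]
  exact mul_le_mul hx.le hy.le (abs_nonneg _) (le_trans (abs_nonneg _) hx.le)

end DTAux

theorem stmt_DT : Stmt_DT := by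
  intro g h p q c s s' E Q Y Z e1 e1' e2 e2' e3 e3' hg hc hq hqp hcop hE hQ a1 a1' a2 a2' a3 a3'
    n2 n3 E1 E2 E3
  have hp2 : 2 ≤ p := by omega
  have hpc : IsCoprime (p : ℤ) (q : ℤ) := Nat.isCoprime_iff_coprime.mpr hcop
  have hc0 : (c : ℤ) ≠ 0 := by exact_mod_cast hc.ne'
  have hg' : 2 * (h : ℤ) ^ 2 < 2 ^ g := by exact_mod_cast hg
  push_cast at E1 E2 E3
  by_cases h0 : e2' * e3 - e2 * e3' = 0
  · right
    have h1 : E * (c * (p : ℤ) ^ s) * (e3 * (q : ℤ) ^ s') =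
        E * (c * (p : ℤ) ^ s) * (e2 * (p : ℤ) ^ s') := by
      have e4 : e3 * (E * (c * (p : ℤ) ^ s * (q : ℤ) ^ s')) =
          e2 * (E * (c * (p : ℤ) ^ (s + s'))) := by
        rw [E2, E3]
        linear_combination (Q * Y) * h0
      rw [pow_add] at e4
      linear_combination e4
    have hne : E * (c * (p : ℤ) ^ s) ≠ 0 := by
      refine mul_ne_zero hE (mul_ne_zero hc0 (pow_ne_zero _ ?_))
      exact_mod_cast (show p ≠ 0 by omega)
    have h2 : e3 * (q : ℤ) ^ s' = e2 * (p : ℤ) ^ s' := mul_left_cancel₀ hne h1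
    have h3 : (p : ℤ) ^ s' ∣ e3 := by
      have h4 : (p : ℤ) ^ s' ∣ e3 * (q : ℤ) ^ s' := by
        rw [h2]
        exact dvd_mul_left _ _
      exact (IsCoprime.pow (m := s') (n := s') hpc).dvd_of_dvd_mul_right h4
    refine DTAux.lt_of_dvd g s' p e3 hp2 n3 h3 ?_
    have h5 : (h : ℤ) ≤ 2 * (h : ℤ) ^ 2 := by
      have : h ≤ 2 * h ^ 2 := by nlinarith [Nat.zero_le h, sq_nonneg (h : ℤ)]
      exact_mod_cast this
    linarith
  · left
    have h1 : E * c * ((e2' * e3 - e2 * e3') * (q : ℤ) ^ (s + s') +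
        (e3' * e1 - e3 * e1') * ((p : ℤ) ^ s * (q : ℤ) ^ s') +
        (e1' * e2 - e1 * e2') * (p : ℤ) ^ (s + s')) = 0 := by
      linear_combination (e2' * e3 - e2 * e3') * E1 + (e3' * e1 - e3 * e1') * E2 +
        (e1' * e2 - e1 * e2') * E3
    have h2 := (mul_eq_zero.mp h1).resolve_left (mul_ne_zero hE hc0)
    have h3 : (p : ℤ) ^ s ∣ (e2' * e3 - e2 * e3') * (q : ℤ) ^ (s + s') := by
      refine ⟨-((e3' * e1 - e3 * e1') * (q : ℤ) ^ s' + (e1' * e2 - e1 * e2') * (p : ℤ) ^ s'), ?_⟩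
      rw [pow_add (p : ℤ)] at h2
      linear_combination h2
    have h4 : (p : ℤ) ^ s ∣ (e2' * e3 - e2 * e3') :=
      (IsCoprime.pow (m := s) (n := s + s') hpc).dvd_of_dvd_mul_right h3
    refine DTAux.lt_of_dvd g s p _ hp2 h0 h4 ?_
    have h5 := DTAux.abs_mul_lt e2' e3 h a2' a3
    have h6 := DTAux.abs_mul_lt e2 e3' h a2 a3'
    have h7 := abs_sub (e2' * e3) (e2 * e3')
    linarith

end Pool.Agent.Work.MP_b928c0_nt_tr
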