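import Pool.Agent.Work.MP_b928c0_nt_tr.API

/-!
# MP_b928c0_nt, trade-off: block DV (divisor bound)
-/

set_option autoImplicit false

namespace Pool.Agent.Work.MP_b928c0_nt_tr

open Finset Classical

namespace DVAux

/-- `(log m)^2 ≤ 16 √m` -/
theorem log_sq_le (m : ℝ) (hm : 1 ≤ m) : Real.log m ^ 2 ≤ 16 * Real.sqrt m := by
  have h0 : 0 < m := by linarith
  have h1 : Real.log m = 4 * Real.log (Real.sqrt (Real.sqrt m)) := by
    rw [Real.log_sqrt (Real.sqrt_nonneg _), Real.log_sqrt h0.le]
    ring
  have h2 : 0 < Real.sqrt (Real.sqrt m) := Real.sqrt_pos.mpr (Real.sqrt_pos.mpr h0)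
  have h3 : Real.log (Real.sqrt (Real.sqrt m)) ≤ Real.sqrt (Real.sqrt m) := by
    have := Real.log_le_sub_one_of_pos h2
    linarith
  have h4 : 0 ≤ Real.log m := Real.log_nonneg hm
  have h5 : 0 ≤ Real.log (Real.sqrt (Real.sqrt m)) := by linarith
  calc Real.log m ^ 2 = 16 * Real.log (Real.sqrt (Real.sqrt m)) ^ 2 := by rw [h1]; ring
    _ ≤ 16 * Real.sqrt (Real.sqrt m) ^ 2 := by
        have := pow_le_pow_left₀ h5 h3 2
        linarith
    _ = 16 * Real.sqrt m := by rw [Real.sq_sqrt (Real.sqrt_nonneg _)]

/-- `Σ v_p log p = log x` -/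
theorem sum_log (x : ℕ) (hx : 0 < x) :
    ∑ p ∈ x.primeFactors, (x.factorization p : ℝ) * Real.log p = Real.log x := by
  have h1 := Nat.prod_factorization_pow_eq_self hx.ne'
  unfold Finsupp.prod at h1
  rw [Nat.support_factorization] at h1
  conv_rhs => rw [← h1]
  push_cast
  rw [Real.log_prod]
  · exact Finset.sum_congr rfl fun p _ => by rw [Real.log_pow]
  · intro p hp
    have := (Nat.prime_of_mem_primeFactors hp).pos
    positivity

end DVAux

open DVAux in
theorem stmt_DV : Stmt_DV := by
  refine ⟨18, by norm_num, ?_⟩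
  intro m x hm hx hxm
  have hmR : (2 : ℝ) ≤ m := by exact_mod_cast hm
  have hlm : 0 < Real.log m := Real.log_pos (by linarith)
  have hxR : (0 : ℝ) < x := by exact_mod_cast hx
  have hlx : Real.log x ≤ m := by
    have h1 : Real.log x ≤ Real.log ((2 : ℝ) ^ m) :=
      Real.log_le_log hxR (by exact_mod_cast hxm.le)
    rw [Real.log_pow] at h1
    have h2 : Real.log 2 ≤ 1 := by linarith [Real.log_two_lt_d9]
    have h3 : (m : ℝ) * Real.log 2 ≤ m * 1 := mul_le_mul_of_nonneg_left h2 (by linarith)
    linarith
  have hterm : ∀ p ∈ x.primeFactors, Real.log ((x.factorization p : ℝ) + 1) ≤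
      2 / Real.log m * ((x.factorization p : ℝ) * Real.log p) +
        (if p ^ 2 < m then Real.log m else 0) := by
    intro p hp
    have hpp := Nat.prime_of_mem_primeFactors hp
    have hp2 : (2 : ℝ) ≤ p := by exact_mod_cast hpp.two_le
    have hlp : 0 < Real.log p := Real.log_pos (by linarith)
    have hv0 : (0 : ℝ) ≤ x.factorization p := Nat.cast_nonneg _
    by_cases hc : p ^ 2 < m
    · rw [if_pos hc]
      have h1 : x.factorization p + 1 ≤ m := by
        have h2 : 2 ^ x.factorization p ≤ x :=
          le_trans (Nat.pow_le_pow_left hpp.two_le _) (Nat.ordProj_le p hx.ne')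
        have h3 : 2 ^ x.factorization p < 2 ^ m := lt_of_le_of_lt h2 hxm
        have h4 := (Nat.pow_lt_pow_iff_right (by norm_num : 1 < 2)).mp h3
        omega
      have h2 : Real.log ((x.factorization p : ℝ) + 1) ≤ Real.log m :=
        Real.log_le_log (by linarith) (by exact_mod_cast h1)
      have h3 : 0 ≤ 2 / Real.log m * ((x.factorization p : ℝ) * Real.log p) := by positivity
      linarith
    · rw [if_neg hc, add_zero]
      have h1 : (m : ℝ) ≤ (p : ℝ) ^ 2 := by exact_mod_cast (not_lt.mp hc)
      have h2 : Real.log m ≤ 2 * Real.log p := by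
        have := Real.log_le_log (by linarith) h1
        rwa [Real.log_pow] at this
      have h3 : Real.log ((x.factorization p : ℝ) + 1) ≤ x.factorization p := by
        have := Real.log_le_sub_one_of_pos (by linarith : (0 : ℝ) < (x.factorization p : ℝ) + 1)
        linarith
      have h4 : (x.factorization p : ℝ) ≤
          2 / Real.log m * ((x.factorization p : ℝ) * Real.log p) := by
        rw [div_mul_eq_mul_div, le_div_iff₀ hlm]
        nlinarith
      linarith
  have hcard : ((x.primeFactors.filter (fun p => p ^ 2 < m)).card : ℝ) ≤ Real.sqrt m := by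
    have h1 : (x.primeFactors.filter (fun p => p ^ 2 < m)).card ≤ Nat.sqrt m := by
      calc (x.primeFactors.filter (fun p => p ^ 2 < m)).card
          ≤ (Finset.Icc 1 (Nat.sqrt m)).card := by
            refine Finset.card_le_card fun p hp => ?_
            rw [Finset.mem_filter] at hp
            rw [Finset.mem_Icc]
            refine ⟨(Nat.prime_of_mem_primeFactors hp.1).pos, ?_⟩
            rw [Nat.le_sqrt]
            have := hp.2
            nlinarith
        _ = Nat.sqrt m := by simp
    calc ((x.primeFactors.filter (fun p => p ^ 2 < m)).card : ℝ) ≤ (Nat.sqrt m : ℝ) := by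
          exact_mod_cast h1
      _ ≤ Real.sqrt m := Real.nat_sqrt_le_real_sqrt
  have hsum : Real.log (x.divisors.card : ℝ) ≤ 18 * m / Real.log m := by
    rw [Nat.card_divisors hx.ne']
    push_cast
    rw [Real.log_prod (fun p _ => by positivity)]
    calc ∑ p ∈ x.primeFactors, Real.log ((x.factorization p : ℝ) + 1)
        ≤ ∑ p ∈ x.primeFactors, (2 / Real.log m * ((x.factorization p : ℝ) * Real.log p) +
          (if p ^ 2 < m then Real.log m else 0)) := Finset.sum_le_sum hterm
      _ = 2 / Real.log m * Real.log x +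
          ((x.primeFactors.filter (fun p => p ^ 2 < m)).card : ℝ) * Real.log m := by
          rw [Finset.sum_add_distrib, ← Finset.mul_sum, sum_log x hx, ← Finset.sum_filter,
            Finset.sum_const, nsmul_eq_mul]
      _ ≤ 2 / Real.log m * m + Real.sqrt m * Real.log m := by
          refine add_le_add ?_ ?_
          · exact mul_le_mul_of_nonneg_left hlx (by positivity)
          · exact mul_le_mul_of_nonneg_right hcard hlm.le
      _ ≤ 18 * m / Real.log m := by
          rw [le_div_iff₀ hlm, add_mul]
          have h1 : 2 / Real.log m * m * Real.log m = 2 * m := by field_simp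
          have h2 := log_sq_le m (by linarith)
          have h3 : Real.sqrt m * Real.sqrt m = m := Real.mul_self_sqrt (by linarith)
          have h4 : 0 ≤ Real.sqrt m := Real.sqrt_nonneg _
          rw [h1]
          have h5 : Real.sqrt m * Real.log m * Real.log m = Real.sqrt m * Real.log m ^ 2 := by ring
          rw [h5]
          have h6 : Real.sqrt m * Real.log m ^ 2 ≤ Real.sqrt m * (16 * Real.sqrt m) :=
            mul_le_mul_of_nonneg_left h2 h4
          nlinarith
  have hdpos : (0 : ℝ) < x.divisors.card := by
    have : 0 < x.divisors.card := Finset.card_pos.mpr (Nat.nonempty_divisors.mpr hx.ne')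
    exact_mod_cast this
  rw [← Real.log_le_iff_le_exp hdpos]
  exact hsum

end Pool.Agent.Work.MP_b928c0_nt_tr
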