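import Pool.Agent.Work.MP_b928c0_nt_tr.API

/-!
# MP_b928c0_nt, trade-off: consecutive terms of a window are far apart
-/

set_option autoImplicit false

namespace Pool.Agent.Work.MP_b928c0_nt_tr

theorem stmt_FA : Stmt_FA := by
  intro L m h K u p q hK hm hh hW hS t ht
  obtain ⟨hu, hq, hqp, -, hdvd⟩ := hW
  have hp : 0 < p := lt_trans hq hqp
  have h1 : q ^ K ≤ u := by
    calc q ^ K ≤ (p * q) ^ K := Nat.pow_le_pow_left (Nat.le_mul_of_pos_left _ hp) K
      _ ≤ u := Nat.le_of_dvd hu hdvd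
  have h2 : u ≤ bb u p q K t := le_bb u p q K t hp hq
  have h3 := hS t (by omega)
  have hq2 : q < 2 ^ m := by
    by_contra hc
    have h4 : (2 ^ m) ^ K ≤ q ^ K := Nat.pow_le_pow_left (not_lt.mp hc) K
    have h5 : 2 ^ (4 * L) ≤ (2 ^ m) ^ K := by
      rw [← pow_mul, mul_comm m K]
      exact Nat.pow_le_pow_right (by norm_num) hm
    omega
  have h6 : q * bb u p q K (t + 1) = p * bb u p q K t := bb_step u p q K t ht
  have h7 : q * h ≤ bb u p q K t := by
    calc q * h ≤ 2 ^ m * h := Nat.mul_le_mul_right _ hq2.le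
      _ = h * 2 ^ m := mul_comm _ _
      _ ≤ 2 ^ L := hh
      _ ≤ _ := h3.1
  refine le_of_mul_le_mul_left (a := q) ?_ hq
  calc q * (bb u p q K t + h) = q * bb u p q K t + q * h := by ring
    _ ≤ q * bb u p q K t + bb u p q K t := by omega
    _ = (q + 1) * bb u p q K t := by ring
    _ ≤ p * bb u p q K t := Nat.mul_le_mul_right _ hqp
    _ = q * bb u p q K (t + 1) := h6.symm

end Pool.Agent.Work.MP_b928c0_nt_tr
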