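import Pool.Agent.Work.MP_b928c0_nt_tr.API

/-!
# MP_b928c0_nt, trade-off: gluing of scales (block GL)
-/

set_option autoImplicit false

namespace Pool.Agent.Work.MP_b928c0_nt_tr

open Finset Classical

namespace GLAux

/-- a geometric progression of integers in normal form -/
theorem normal_form (b : ℕ → ℕ) (k : ℕ) (hk : 1 ≤ k) (h0 : 0 < b 0) (h1 : b 0 < b 1)
    (hb : ∀ j < k, b j * b 0 ^ j = b 0 * b 1 ^ j) :
    ∃ v p q : ℕ, 0 < v ∧ 0 < q ∧ q < p ∧ Nat.Coprime p q ∧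
      ∀ j < k, b j = v * p ^ j * q ^ (k - 1 - j) := by
  obtain ⟨g, hg⟩ : ∃ g, g = Nat.gcd (b 1) (b 0) := ⟨_, rfl⟩
  have hgpos : 0 < Nat.gcd (b 1) (b 0) := Nat.gcd_pos_of_pos_right _ h0
  obtain ⟨p, hp⟩ : g ∣ b 1 := hg ▸ Nat.gcd_dvd_left _ _
  obtain ⟨q, hq⟩ : g ∣ b 0 := hg ▸ Nat.gcd_dvd_right _ _
  have hcop : Nat.Coprime p q := by
    have h2 := Nat.coprime_div_gcd_div_gcd hgpos
    rw [← hg] at h2 hgpos
    rw [hp, hq, Nat.mul_div_cancel_left _ hgpos, Nat.mul_div_cancel_left _ hgpos] at h2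
    exact h2
  rw [← hg] at hgpos
  have hqpos : 0 < q := by
    rcases Nat.eq_zero_or_pos q with h2 | h2
    · subst h2; simp at hq; omega
    · exact h2
  have hqp : q < p := by
    rw [hp, hq] at h1
    exact lt_of_mul_lt_mul_left h1 (Nat.zero_le _)
  have hbj : ∀ j < k, b j * q ^ j = b 0 * p ^ j := by
    intro j hj
    have h2 := hb j hj
    have h3 : g ^ j * (b j * q ^ j) = g ^ j * (b 0 * p ^ j) := by
      calc g ^ j * (b j * q ^ j) = b j * (g * q) ^ j := by rw [mul_pow]; ring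
        _ = b j * b 0 ^ j := by rw [← hq]
        _ = b 0 * b 1 ^ j := h2
        _ = b 0 * (g * p) ^ j := by rw [← hp]
        _ = g ^ j * (b 0 * p ^ j) := by rw [mul_pow]; ring
    exact Nat.eq_of_mul_eq_mul_left (pow_pos hgpos j) h3
  obtain ⟨v, hv⟩ : q ^ (k - 1) ∣ b 0 := by
    have h2 := hbj (k - 1) (by omega)
    have h3 : q ^ (k - 1) ∣ b 0 * p ^ (k - 1) := ⟨b (k - 1), by rw [← h2]; ring⟩
    exact Nat.Coprime.dvd_of_dvd_mul_right (Nat.Coprime.pow _ _ hcop.symm) h3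
  refine ⟨v, p, q, ?_, hqpos, hqp, hcop, ?_⟩
  · rcases Nat.eq_zero_or_pos v with h2 | h2
    · subst h2; simp at hv; omega
    · exact h2
  · intro j hj
    have h2 := hbj j hj
    have h3 : k - 1 = (k - 1 - j) + j := by omega
    have h4 : b j * q ^ j = (v * p ^ j * q ^ (k - 1 - j)) * q ^ j := by
      rw [h2, hv]
      conv_lhs => rw [h3, pow_add]
      ring
    exact Nat.eq_of_mul_eq_mul_right (pow_pos hqpos j) h4

/-- the scale of an integer -/
theorem exists_scale (i0 n : ℕ) (hn : 2 ^ 4 ^ i0 ≤ n) :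
    ∃ i, i0 ≤ i ∧ 2 ^ 4 ^ i ≤ n ∧ n < 2 ^ 4 ^ (i + 1) := by
  have hn0 : n ≠ 0 := by
    have : 0 < 2 ^ 4 ^ i0 := by positivity
    omega
  have h1 : 4 ^ i0 ≤ Nat.log 2 n := Nat.le_log_of_pow_le (by norm_num) hn
  have hl0 : Nat.log 2 n ≠ 0 := by
    have : 0 < 4 ^ i0 := by positivity
    omega
  refine ⟨Nat.log 4 (Nat.log 2 n), Nat.le_log_of_pow_le (by norm_num) h1, ?_, ?_⟩
  · calc 2 ^ 4 ^ Nat.log 4 (Nat.log 2 n) ≤ 2 ^ Nat.log 2 n :=
        Nat.pow_le_pow_right (by norm_num) (Nat.pow_log_le_self 4 hl0)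
      _ ≤ n := Nat.pow_log_le_self 2 hn0
  · have h2 : Nat.log 2 n < 4 ^ (Nat.log 4 (Nat.log 2 n) + 1) :=
      Nat.lt_pow_succ_log_self (by norm_num) _
    calc n < 2 ^ (Nat.log 2 n + 1) := Nat.lt_pow_succ_log_self (by norm_num) _
      _ ≤ _ := Nat.pow_le_pow_right (by norm_num) h2

/-- comparing scales -/
theorem lt_of_scale {i s n : ℕ} (h1 : 2 ^ 4 ^ i ≤ n) (h2 : n < 2 ^ 4 ^ s) : i < s := by
  have h3 : 2 ^ 4 ^ i < 2 ^ 4 ^ s := lt_of_le_of_lt h1 h2
  exact (Nat.pow_lt_pow_iff_right (by norm_num)).mp ((Nat.pow_lt_pow_iff_right (by norm_num)).mp h3)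

/-- the glued set -/
def Gl (i0 : ℕ) (A : ℕ → Set ℕ) : Set ℕ :=
  {n | (∃ i, i0 ≤ i ∧ 2 ^ 4 ^ i ≤ n ∧ n < 2 ^ 4 ^ (i + 1) ∧ n ∈ A i) ∨ ∃ i, i0 ≤ i ∧ n = 2 ^ 4 ^ i}

theorem Gl_ge {i0 : ℕ} {A : ℕ → Set ℕ} {n : ℕ} (hn : n ∈ Gl i0 A) : 2 ^ 4 ^ i0 ≤ n := by
  rcases hn with ⟨i, hi, h1, _⟩ | ⟨i, hi, h1⟩
  · exact le_trans (Nat.pow_le_pow_right (by norm_num) (Nat.pow_le_pow_right (by norm_num) hi)) h1
  · rw [h1]
    exact Nat.pow_le_pow_right (by norm_num) (Nat.pow_le_pow_right (by norm_num) hi)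

theorem Gl_interior {i0 : ℕ} {A : ℕ → Set ℕ} {n s : ℕ} (hn : n ∈ Gl i0 A) (h1 : 2 ^ 4 ^ s < n)
    (h2 : n < 2 ^ 4 ^ (s + 1)) : n ∈ A s := by
  rcases hn with ⟨i, hi, h3, h4, h5⟩ | ⟨i, hi, h3⟩
  · have h6 := lt_of_scale h3 h2
    have h7 := lt_of_scale h1.le h4
    have h8 : i = s := by omega
    rw [← h8]; exact h5
  · rw [h3] at h1 h2
    have h6 := lt_of_scale le_rfl h2
    have h7 : s < i :=
      (Nat.pow_lt_pow_iff_right (by norm_num)).mp ((Nat.pow_lt_pow_iff_right (by norm_num)).mp h1)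
    omega

theorem Gl_infinite (i0 : ℕ) (A : ℕ → Set ℕ) : (Gl i0 A).Infinite := by
  refine Set.infinite_of_injective_forall_mem (f := fun i => 2 ^ 4 ^ (i0 + i)) ?_ ?_
  · intro i j hij
    have h1 := Nat.pow_right_injective (le_refl 2) hij
    have h2 := Nat.pow_right_injective (by norm_num : 2 ≤ 4) h1
    omega
  · intro i
    exact Or.inr ⟨i0 + i, by omega, rfl⟩

/-- the window argument in one scale -/
theorem run {i0 : ℕ} {A : ℕ → Set ℕ} {s K k v p q : ℕ}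
    (hA : ∀ u p q, Win K u p q → InSc (4 ^ s) K u p q → ¬ ∀ t < K, bb u p q K t ∈ A s)
    (hv : 0 < v) (hq : 0 < q) (hqp : q < p) (hcop : Nat.Coprime p q)
    (hmem : ∀ j < k, v * p ^ j * q ^ (k - 1 - j) ∈ Gl i0 A)
    (hmono : ∀ i j, i < j → j < k →
      v * p ^ i * q ^ (k - 1 - i) < v * p ^ j * q ^ (k - 1 - j))
    (j1 j2 : ℕ) (hj1 : k / 3 ≤ j1) (hj : j1 ≤ j2) (hj2 : j2 < 2 * (k / 3))
    (h1 : 2 ^ 4 ^ s ≤ v * p ^ j1 * q ^ (k - 1 - j1))
    (h2 : v * p ^ j2 * q ^ (k - 1 - j2) < 2 ^ 4 ^ (s + 1)) : j2 < j1 + K := by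
  by_contra hc
  push Not at hc
  have hk : 2 * (k / 3) + k / 3 ≤ k := by omega
  have hp : 0 < p := by omega
  have hbb : ∀ t < K, bb (v * p ^ (j1 + 1) * q ^ (k - (j1 + 1) - K)) p q K t =
      v * p ^ (j1 + 1 + t) * q ^ (k - 1 - (j1 + 1 + t)) := by
    intro t ht
    unfold bb
    have e1 : k - 1 - (j1 + 1 + t) = (k - (j1 + 1) - K) + (K - 1 - t) := by omega
    rw [e1, pow_add, pow_add]
    ring
  have hin : ∀ t < K, 2 ^ 4 ^ s < v * p ^ (j1 + 1 + t) * q ^ (k - 1 - (j1 + 1 + t)) ∧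
      v * p ^ (j1 + 1 + t) * q ^ (k - 1 - (j1 + 1 + t)) < 2 ^ 4 ^ (s + 1) := by
    intro t ht
    constructor
    · exact lt_of_le_of_lt h1 (hmono j1 (j1 + 1 + t) (by omega) (by omega))
    · rcases (show j1 + 1 + t = j2 ∨ j1 + 1 + t < j2 by omega) with h3 | h3
      · rw [h3]; exact h2
      · exact lt_trans (hmono (j1 + 1 + t) j2 h3 (by omega)) h2
  refine hA (v * p ^ (j1 + 1) * q ^ (k - (j1 + 1) - K)) p q ?_ ?_ ?_
  · refine ⟨by positivity, hq, hqp, hcop, ?_⟩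
    have e1 : j1 + 1 = K + (j1 + 1 - K) := by omega
    have e2 : k - (j1 + 1) - K = K + (k - (j1 + 1) - K - K) := by omega
    refine ⟨v * p ^ (j1 + 1 - K) * q ^ (k - (j1 + 1) - K - K), ?_⟩
    have e3 : p ^ (j1 + 1) = p ^ K * p ^ (j1 + 1 - K) := by rw [← pow_add, ← e1]
    have e4 : q ^ (k - (j1 + 1) - K) = q ^ K * q ^ (k - (j1 + 1) - K - K) := by
      rw [← pow_add, ← e2]
    rw [e3, e4, mul_pow]
    ring
  · intro t ht
    rw [hbb t ht]
    have h3 := hin t ht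
    refine ⟨h3.1.le, ?_⟩
    have e1 : 4 * 4 ^ s = 4 ^ (s + 1) := by ring
    rw [e1]
    exact h3.2
  · intro t ht
    rw [hbb t ht]
    have h3 := hin t ht
    exact Gl_interior (hmem _ (by omega)) h3.1 h3.2

/-- increasing progressions -/
theorem core (i0 : ℕ) (κ : ℕ → ℕ) (A : ℕ → Set ℕ) (hκ : ∀ i, i0 ≤ i → κ i ≤ κ (i + 1))
    (hA : ∀ i, i0 ≤ i → ∀ u p q, Win (κ i) u p q → InSc (4 ^ i) (κ i) u p q →
      ¬ ∀ t < κ i, bb u p q (κ i) t ∈ A i)
    (k : ℕ) (hk : 12 < k) (b : ℕ → ℕ) (hmem : ∀ j < k, b j ∈ Gl i0 A) (h01 : b 0 < b 1)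
    (hb : ∀ j < k, b j * b 0 ^ j = b 0 * b 1 ^ j) :
    ∃ i, i0 ≤ i ∧ (∃ j < k, 2 ^ 4 ^ i ≤ b j) ∧ k ≤ 6 * κ i + 12 := by
  have h0 : 0 < b 0 := by
    have h1 := Gl_ge (hmem 0 (by omega))
    have : 0 < 2 ^ 4 ^ i0 := by positivity
    omega
  obtain ⟨v, p, q, hv, hq, hqp, hcop, hbj⟩ := normal_form b k (by omega) h0 h01 hb
  have hp : 0 < p := by omega
  obtain ⟨M, hM⟩ : ∃ M, M = k / 3 := ⟨_, rfl⟩
  have hstep : ∀ i, i + 1 < k →
      v * p ^ i * q ^ (k - 1 - i) < v * p ^ (i + 1) * q ^ (k - 1 - (i + 1)) := by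
    intro i hi
    have e1 : k - 1 - i = (k - 1 - (i + 1)) + 1 := by omega
    rw [e1, pow_succ, pow_succ]
    have h1 : 0 < v * p ^ i * q ^ (k - 1 - (i + 1)) := by positivity
    calc v * p ^ i * (q ^ (k - 1 - (i + 1)) * q) = v * p ^ i * q ^ (k - 1 - (i + 1)) * q := by ring
      _ < v * p ^ i * q ^ (k - 1 - (i + 1)) * p := Nat.mul_lt_mul_of_pos_left hqp h1
      _ = _ := by ring
  have hmono : ∀ i j, i < j → j < k →
      v * p ^ i * q ^ (k - 1 - i) < v * p ^ j * q ^ (k - 1 - j) := by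
    intro i j hij
    induction j with
    | zero => omega
    | succ j ih =>
      intro hj
      rcases (show i = j ∨ i < j by omega) with h1 | h1
      · rw [h1]; exact hstep j hj
      · exact lt_trans (ih h1 (by omega)) (hstep j hj)
  have hmem' : ∀ j < k, v * p ^ j * q ^ (k - 1 - j) ∈ Gl i0 A := by
    intro j hj
    rw [← hbj j hj]
    exact hmem j hj
  obtain ⟨i, hi, hi1, hi2⟩ := exists_scale i0 _ (Gl_ge (hmem' M (by omega)))
  -- the last term of the middle third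
  have hlast : v * p ^ (2 * M - 1) * q ^ (k - 1 - (2 * M - 1)) < 2 ^ 4 ^ (i + 2) := by
    have h1 : v * p ^ (2 * M - 1) * q ^ (k - 1 - (2 * M - 1)) ≤
        (v * p ^ M * q ^ (k - 1 - M)) * (v * p ^ M * q ^ (k - 1 - M)) := by
      have e1 : 2 * M - 1 = M + (M - 1) := by omega
      have h2 : q ^ (k - 1 - (2 * M - 1)) ≤ q ^ (k - 1 - M) :=
        Nat.pow_le_pow_right hq (by omega)
      have h3 : p ^ (M - 1) ≤ v * p ^ M * q ^ (k - 1 - M) := by
        have h4 : p ^ (M - 1) ≤ p ^ M := Nat.pow_le_pow_right hp (by omega)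
        have h5 : 0 < v * q ^ (k - 1 - M) := by positivity
        calc p ^ (M - 1) ≤ p ^ M := h4
          _ ≤ p ^ M * (v * q ^ (k - 1 - M)) := Nat.le_mul_of_pos_right _ h5
          _ = _ := by ring
      calc v * p ^ (2 * M - 1) * q ^ (k - 1 - (2 * M - 1))
          ≤ v * p ^ (2 * M - 1) * q ^ (k - 1 - M) := Nat.mul_le_mul_left _ h2
        _ = (v * p ^ M * q ^ (k - 1 - M)) * p ^ (M - 1) := by rw [e1, pow_add]; ring
        _ ≤ _ := Nat.mul_le_mul_left _ h3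
    calc v * p ^ (2 * M - 1) * q ^ (k - 1 - (2 * M - 1))
        ≤ (v * p ^ M * q ^ (k - 1 - M)) * (v * p ^ M * q ^ (k - 1 - M)) := h1
      _ < 2 ^ 4 ^ (i + 1) * 2 ^ 4 ^ (i + 1) := Nat.mul_lt_mul'' hi2 hi2
      _ = 2 ^ (4 ^ (i + 1) + 4 ^ (i + 1)) := (pow_add 2 _ _).symm
      _ ≤ 2 ^ 4 ^ (i + 2) := by
          refine Nat.pow_le_pow_right (by norm_num) ?_
          have : 4 ^ (i + 2) = 4 * 4 ^ (i + 1) := by ring
          omega
  -- the last index of the first scale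
  by_cases hall : v * p ^ (2 * M - 1) * q ^ (k - 1 - (2 * M - 1)) < 2 ^ 4 ^ (i + 1)
  · refine ⟨i, hi, ⟨M, by omega, by rw [hbj M (by omega)]; exact hi1⟩, ?_⟩
    have h1 := run (hA i hi) hv hq hqp hcop hmem' hmono M (2 * M - 1) (by omega) (by omega)
      (by omega) hi1 hall
    omega
  · obtain ⟨J, hJ, hJmin⟩ : ∃ J, (M ≤ J ∧ 2 ^ 4 ^ (i + 1) ≤ v * p ^ J * q ^ (k - 1 - J)) ∧
        ∀ J' < J, ¬ (M ≤ J' ∧ 2 ^ 4 ^ (i + 1) ≤ v * p ^ J' * q ^ (k - 1 - J')) := by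
      have hex : ∃ J, M ≤ J ∧ 2 ^ 4 ^ (i + 1) ≤ v * p ^ J * q ^ (k - 1 - J) :=
        ⟨2 * M - 1, by omega, by omega⟩
      exact ⟨Nat.find hex, Nat.find_spec hex, fun J' hJ' => Nat.find_min hex hJ'⟩
    have hJ2 : J ≤ 2 * M - 1 := by
      by_contra hc
      exact hJmin (2 * M - 1) (by omega) ⟨by omega, by omega⟩
    have hMJ : M < J := by
      rcases (show M = J ∨ M < J by omega) with h1 | h1
      · exfalso
        rw [← h1] at hJ
        omega
      · exact h1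
    have hJ1 : v * p ^ (J - 1) * q ^ (k - 1 - (J - 1)) < 2 ^ 4 ^ (i + 1) := by
      by_contra hc
      exact hJmin (J - 1) (by omega) ⟨by omega, by omega⟩
    have h1 := run (hA i hi) hv hq hqp hcop hmem' hmono M (J - 1) (by omega) (by omega)
      (by omega) hi1 hJ1
    have h2 := run (hA (i + 1) (by omega)) hv hq hqp hcop hmem' hmono J (2 * M - 1) (by omega)
      (by omega) (by omega) hJ.2 hlast
    have h3 := hκ i hi
    refine ⟨i + 1, by omega, ⟨J, by omega, by rw [hbj J (by omega)]; exact hJ.2⟩, ?_⟩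
    omega

end GLAux

open GLAux in
theorem stmt_GL : Stmt_GL := by
  intro i0 κ η H
  have hex : ∀ i, ∃ A : Set ℕ, i0 ≤ i →
      ((∀ n, 2 ^ 4 ^ i ≤ n → n + η i ≤ 2 ^ (4 * 4 ^ i) → ∃ a ∈ A, n ≤ a ∧ a < n + η i) ∧
        ∀ u p q, Win (κ i) u p q → InSc (4 ^ i) (κ i) u p q →
          ¬ ∀ t < κ i, bb u p q (κ i) t ∈ A) := by
    intro i
    by_cases hi : i0 ≤ i
    · obtain ⟨A, hA⟩ := (H i hi).2
      exact ⟨A, fun _ => hA⟩
    · exact ⟨∅, fun h => absurd h hi⟩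
  choose A hA using hex
  have hinf := Gl_infinite i0 A
  have hinf' : {n | n ∈ Gl i0 A}.Infinite := hinf
  have hmono : StrictMono (Nat.nth (fun n => n ∈ Gl i0 A)) := Nat.nth_strictMono hinf'
  have hmem : ∀ n, Nat.nth (fun n => n ∈ Gl i0 A) n ∈ Gl i0 A := fun n =>
    Nat.nth_mem_of_infinite hinf' n
  have hnext : ∀ n s, s ∈ Gl i0 A → Nat.nth (fun n => n ∈ Gl i0 A) n < s →
      Nat.nth (fun n => n ∈ Gl i0 A) (n + 1) ≤ s := by
    intro n s hs hlt
    have h1 : Nat.nth (fun n => n ∈ Gl i0 A) (Nat.count (fun n => n ∈ Gl i0 A) s) = s :=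
      Nat.nth_count hs
    rw [← h1] at hlt ⊢
    have h2 := hmono.lt_iff_lt.mp hlt
    exact hmono.monotone h2
  refine ⟨Nat.nth (fun n => n ∈ Gl i0 A), hmono, Gl_ge (hmem 0), ?_, ?_⟩
  · intro n i hi h1 h2
    have hAi := (hA i hi).1
    have e1 : 4 * 4 ^ i = 4 ^ (i + 1) := by ring
    rw [e1] at hAi
    by_cases h3 : Nat.nth (fun n => n ∈ Gl i0 A) n + 1 + η i ≤ 2 ^ 4 ^ (i + 1)
    · obtain ⟨s, hs, h4, h5⟩ := hAi (Nat.nth (fun n => n ∈ Gl i0 A) n + 1) (by omega) h3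
      have h6 := hnext n s (Or.inl ⟨i, hi, by omega, by omega, hs⟩) (by omega)
      omega
    · have h6 := hnext n (2 ^ 4 ^ (i + 1)) (Or.inr ⟨i + 1, by omega, rfl⟩) h2
      omega
  · intro k x r N hGP hk
    obtain ⟨hx, hr0, hr1, hrm1, hterms⟩ := hGP
    have hidx : ∀ j, ∃ m : ℕ, j < k → (Nat.nth (fun n => n ∈ Gl i0 A) m : ℝ) = x * r ^ j := by
      intro j
      by_cases hj : j < k
      · obtain ⟨m, hm⟩ := (hterms j hj).2
        exact ⟨m, fun _ => hm⟩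
      · exact ⟨0, fun h => absurd h hj⟩
    choose m hm using hidx
    obtain ⟨b, hbdef⟩ : ∃ b : ℕ → ℕ, b = fun j => Nat.nth (fun n => n ∈ Gl i0 A) (m j) := ⟨_, rfl⟩
    have hbmem : ∀ j, b j ∈ Gl i0 A := fun j => by rw [hbdef]; exact hmem _
    have hbx : ∀ j < k, (b j : ℝ) = x * r ^ j := fun j hj => by rw [hbdef]; exact hm j hj
    have hpos : ∀ j, 0 < b j := by
      intro j
      have h1 := Gl_ge (hbmem j)
      have : 0 < 2 ^ 4 ^ i0 := by positivity
      omega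
    have hN : ∀ j < k, (b j : ℝ) ≤ N := fun j hj => by rw [hbx j hj]; exact (hterms j hj).1
    by_cases hk12 : k ≤ 12
    · refine ⟨i0, le_rfl, ?_, by omega⟩
      have h1 := Gl_ge (hbmem 0)
      have h2 : ((2 ^ 4 ^ i0 : ℕ) : ℝ) ≤ (b 0 : ℝ) := by exact_mod_cast h1
      push_cast at h2
      exact le_trans h2 (hN 0 (by omega))
    · push Not at hk12
      have hxpos : 0 < x := by
        have h1 := hbx 0 (by omega)
        rw [pow_zero, mul_one] at h1
        rw [← h1]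
        exact_mod_cast hpos 0
      have hrpos : 0 < r := by
        have h1 := hbx 1 (by omega)
        rw [pow_one] at h1
        have h2 : 0 < x * r := by rw [← h1]; exact_mod_cast hpos 1
        exact (mul_pos_iff_of_pos_left hxpos).mp h2
      have hfin : ∀ (i : ℕ), (∃ j < k, 2 ^ 4 ^ i ≤ b j) → (2 : ℝ) ^ 4 ^ i ≤ N := by
        rintro i ⟨j, hj, hij⟩
        have h2 : ((2 ^ 4 ^ i : ℕ) : ℝ) ≤ (b j : ℝ) := by exact_mod_cast hij
        push_cast at h2
        exact le_trans h2 (hN j hj)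
      rcases lt_or_gt_of_ne hr1 with hlt | hgt
      · -- decreasing: reverse
        have hrev : ∀ j < k, (b (k - 1 - j) : ℝ) = x * r ^ (k - 1 - j) := fun j hj =>
          hbx _ (by omega)
        obtain ⟨i, hi, ⟨j, hj, hij⟩, hik⟩ := core i0 κ A (fun i hi => (H i hi).1)
          (fun i hi => (hA i hi).2) k hk12 (fun j => b (k - 1 - j)) (fun j _ => hbmem _) (by
            have h1 := hrev 0 (by omega)
            have h2 := hrev 1 (by omega)
            have h3 : (b (k - 1 - 0) : ℝ) < (b (k - 1 - 1) : ℝ) := by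
              rw [h1, h2]
              refine mul_lt_mul_of_pos_left ?_ hxpos
              exact pow_lt_pow_right_of_lt_one₀ hrpos hlt (by omega)
            exact_mod_cast h3) (by
            intro j hj
            have h1 := hrev 0 (by omega)
            have h2 := hrev 1 (by omega)
            have h3 := hrev j hj
            have h4 : (b (k - 1 - j) : ℝ) * (b (k - 1 - 0) : ℝ) ^ j =
                (b (k - 1 - 0) : ℝ) * (b (k - 1 - 1) : ℝ) ^ j := by
              rw [h1, h2, h3]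
              have e1 : k - 1 - 0 = (k - 1 - j) + j := by omega
              have e2 : k - 1 - 0 = (k - 1 - 1) + 1 := by omega
              have e3 : r ^ (k - 1 - 0) = r ^ (k - 1 - j) * r ^ j := by rw [← pow_add, ← e1]
              have e4 : r ^ (k - 1 - 0) = r ^ (k - 1 - 1) * r := by
                rw [← pow_succ, ← e2]
              rw [mul_pow, mul_pow]
              calc x * r ^ (k - 1 - j) * (x ^ j * (r ^ (k - 1 - 0)) ^ j)
                  = x * r ^ (k - 1 - j) * (x ^ j * (r ^ (k - 1 - 1) * r) ^ j) := by rw [e4]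
                _ = x * (r ^ (k - 1 - j) * r ^ j) * (x ^ j * (r ^ (k - 1 - 1)) ^ j) := by
                    rw [mul_pow]; ring
                _ = _ := by rw [← e3]
            exact_mod_cast h4)
        exact ⟨i, hi, hfin i ⟨k - 1 - j, by omega, hij⟩, hik⟩
      · obtain ⟨i, hi, hij, hik⟩ := core i0 κ A (fun i hi => (H i hi).1)
          (fun i hi => (hA i hi).2) k hk12 b (fun j _ => hbmem _) (by
            have h1 := hbx 0 (by omega)
            have h2 := hbx 1 (by omega)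
            have h3 : (b 0 : ℝ) < (b 1 : ℝ) := by
              rw [h1, h2]
              refine mul_lt_mul_of_pos_left ?_ hxpos
              simpa using hgt
            exact_mod_cast h3) (by
            intro j hj
            have h1 := hbx 0 (by omega)
            have h2 := hbx 1 (by omega)
            have h3 := hbx j hj
            have h4 : (b j : ℝ) * (b 0 : ℝ) ^ j = (b 0 : ℝ) * (b 1 : ℝ) ^ j := by
              rw [h1, h2, h3, pow_zero, pow_one, mul_one, mul_pow]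
              ring
            exact_mod_cast h4)
        exact ⟨i, hi, hfin i hij, hik⟩

end Pool.Agent.Work.MP_b928c0_nt_tr
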