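import Pool.Agent.Work.MP_b928c0_nt_tr.API

set_option autoImplicit false

namespace Pool.Agent.Work.MP_b928c0_nt_tr

namespace GPAux

theorem core (l m Y w : ℕ) (ε P A : ℝ) (hl : 2 ≤ l) (he0 : 0 < ε)
    (he : 64 * ε * 2 ^ (2 * m) < 1) (hA : 0 < A)
    (h1 : A * (Y : ℝ) ^ l ≤ P * (1 + ε) ^ 2) (h2 : P * (1 - ε) ^ 2 ≤ A * (w : ℝ) ^ l)
    (hw : 0 < w) (hw2 : w < 2 ^ (2 * m)) : ¬ w < Y := by
  intro hlt
  have hwR : (1 : ℝ) ≤ w := by exact_mod_cast hw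
  have hwm : (w : ℝ) + 1 ≤ 2 ^ (2 * m) := by exact_mod_cast hw2
  have hYw : (w : ℝ) + 1 ≤ Y := by exact_mod_cast hlt
  have he1 : ε < 1 := by
    have h3 : (1 : ℝ) ≤ 2 ^ (2 * m) := by linarith
    nlinarith
  have h4 : ((w : ℝ) + 1) ^ 2 * (w : ℝ) ^ (l - 2) ≤ (Y : ℝ) ^ l := by
    have h5 : ((w : ℝ) + 1) ^ 2 * (w : ℝ) ^ (l - 2) ≤ ((w : ℝ) + 1) ^ 2 * ((w : ℝ) + 1) ^ (l - 2) :=
      mul_le_mul_of_nonneg_left (pow_le_pow_left₀ (by linarith) (by linarith) _) (by positivity)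
    have h6 : ((w : ℝ) + 1) ^ 2 * ((w : ℝ) + 1) ^ (l - 2) = ((w : ℝ) + 1) ^ l := by
      rw [← pow_add]
      congr 1
      omega
    have h7 : ((w : ℝ) + 1) ^ l ≤ (Y : ℝ) ^ l := pow_le_pow_left₀ (by linarith) hYw _
    linarith
  have h8 : (w : ℝ) ^ l = (w : ℝ) ^ 2 * (w : ℝ) ^ (l - 2) := by
    rw [← pow_add]
    congr 1
    omega
  set V : ℝ := A * (w : ℝ) ^ (l - 2) with hV
  have hVpos : 0 < V := by
    have : (0 : ℝ) < w := by linarith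
    positivity
  have h9 : V * ((w : ℝ) + 1) ^ 2 ≤ P * (1 + ε) ^ 2 := by
    have h10 := mul_le_mul_of_nonneg_left h4 hA.le
    rw [hV]
    calc A * (w : ℝ) ^ (l - 2) * ((w : ℝ) + 1) ^ 2
        = A * (((w : ℝ) + 1) ^ 2 * (w : ℝ) ^ (l - 2)) := by ring
      _ ≤ A * (Y : ℝ) ^ l := h10
      _ ≤ _ := h1
  have h11 : P * (1 - ε) ^ 2 ≤ V * (w : ℝ) ^ 2 := by
    rw [hV]
    calc P * (1 - ε) ^ 2 ≤ A * (w : ℝ) ^ l := h2
      _ = _ := by rw [h8]; ring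
  have h12 : V * (((w : ℝ) + 1) * (1 - ε)) ^ 2 ≤ V * ((w : ℝ) * (1 + ε)) ^ 2 := by
    have h13 := mul_le_mul_of_nonneg_right h9 (sq_nonneg (1 - ε))
    have h14 := mul_le_mul_of_nonneg_right h11 (sq_nonneg (1 + ε))
    calc V * (((w : ℝ) + 1) * (1 - ε)) ^ 2 = V * ((w : ℝ) + 1) ^ 2 * (1 - ε) ^ 2 := by ring
      _ ≤ P * (1 + ε) ^ 2 * (1 - ε) ^ 2 := h13
      _ = P * (1 - ε) ^ 2 * (1 + ε) ^ 2 := by ring
      _ ≤ V * (w : ℝ) ^ 2 * (1 + ε) ^ 2 := h14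
      _ = _ := by ring
  have h15 : (((w : ℝ) + 1) * (1 - ε)) ^ 2 ≤ ((w : ℝ) * (1 + ε)) ^ 2 :=
    le_of_mul_le_mul_left h12 hVpos
  have h16 : ((w : ℝ) + 1) * (1 - ε) ≤ (w : ℝ) * (1 + ε) := by
    have h17 : 0 ≤ (w : ℝ) * (1 + ε) := by positivity
    exact le_trans (le_abs_self _) (abs_le_of_sq_le_sq h15 h17)
  have h18 : 1 ≤ ε * (2 * w + 1) := by nlinarith
  have h19 : ε * (2 * w + 1) ≤ ε * (2 * 2 ^ (2 * m)) := by
    apply mul_le_mul_of_nonneg_left _ he0.le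
    linarith
  have h20 : (0 : ℝ) < ε * 2 ^ (2 * m) := by positivity
  nlinarith

end GPAux

theorem stmt_GP : Stmt_GP := by
  intro l L m h a c y1 z1 y2 z2 b1 b1' b2 b2' hl hh hL hb1 hb1' hb2 hb2' hbb hy1 hz1 hy2 hz2
    hy1m hz1m hy2m hz2m A1 A2 A3 A4 A5 A6 A7 A8
  set ε : ℝ := (h : ℝ) / 2 ^ L with hε
  have h2L : (0 : ℝ) < 2 ^ L := by positivity
  have hhR : (0 : ℝ) < h := by exact_mod_cast hh
  have he0 : 0 < ε := by rw [hε]; positivity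
  have hLR : 64 * (h : ℝ) * 2 ^ (2 * m) < 2 ^ L := by exact_mod_cast hL
  have he : 64 * ε * 2 ^ (2 * m) < 1 := by
    rw [hε]
    have : 64 * ((h : ℝ) / 2 ^ L) * 2 ^ (2 * m) = (64 * (h : ℝ) * 2 ^ (2 * m)) / 2 ^ L := by ring
    rw [this, div_lt_one h2L]
    exact hLR
  have he1 : ε < 1 := by
    have h3 : (1 : ℝ) ≤ 2 ^ (2 * m) := one_le_pow₀ (by norm_num)
    nlinarith
  have key : ∀ b : ℕ, 2 ^ L ≤ b → (h : ℝ) ≤ ε * b := by
    intro b hb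
    have hbR : (2 : ℝ) ^ L ≤ b := by exact_mod_cast hb
    calc (h : ℝ) = ε * 2 ^ L := by rw [hε]; field_simp
      _ ≤ ε * b := mul_le_mul_of_nonneg_left hbR he0.le
  have pos : ∀ b : ℕ, 2 ^ L ≤ b → (0 : ℝ) < b := by
    intro b hb
    have hbR : (2 : ℝ) ^ L ≤ b := by exact_mod_cast hb
    linarith
  have up : ∀ x b : ℕ, 2 ^ L ≤ b → x < b + h → (x : ℝ) ≤ b * (1 + ε) := by
    intro x b hb hx
    have hxR : (x : ℝ) < b + h := by exact_mod_cast hx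
    have := key b hb
    nlinarith
  have dn : ∀ x b : ℕ, 2 ^ L ≤ b → b < x + h → (b : ℝ) * (1 - ε) ≤ x := by
    intro x b hb hx
    have hxR : (b : ℝ) < x + h := by exact_mod_cast hx
    have := key b hb
    nlinarith
  have ha : 0 < a := by
    rcases Nat.eq_zero_or_pos a with h0 | h0
    · exfalso
      have := dn _ _ hb1 A2
      rw [h0] at this
      have hp := pos _ hb1
      simp only [zero_mul, Nat.cast_zero] at this
      have : 0 < (b1 : ℝ) * (1 - ε) := mul_pos hp (by linarith)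
      linarith
    · exact h0
  have hc : 0 < c := by
    rcases Nat.eq_zero_or_pos c with h0 | h0
    · exfalso
      have := dn _ _ hb2 A6
      rw [h0] at this
      have hp := pos _ hb2
      simp only [zero_mul, Nat.cast_zero] at this
      have : 0 < (b2 : ℝ) * (1 - ε) := mul_pos hp (by linarith)
      linarith
    · exact h0
  have hac : (0 : ℝ) < (a : ℝ) * c := by
    have h1 : (0 : ℝ) < a := by exact_mod_cast ha
    have h2 : (0 : ℝ) < c := by exact_mod_cast hc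
    positivity
  have hP : (b1 : ℝ) * b2' = b1' * b2 := by exact_mod_cast hbb
  have u1 := up _ _ hb1 A1
  have d1 := dn _ _ hb1 A2
  have u1' := up _ _ hb1' A3
  have d1' := dn _ _ hb1' A4
  have u2 := up _ _ hb2 A5
  have d2 := dn _ _ hb2 A6
  have u2' := up _ _ hb2' A7
  have d2' := dn _ _ hb2' A8
  push_cast at u1 d1 u1' d1' u2 d2 u2' d2'
  have p1 := pos _ hb1
  have p1' := pos _ hb1'
  have p2 := pos _ hb2
  have p2' := pos _ hb2'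
  have e1 : (0 : ℝ) ≤ 1 - ε := by linarith
  have hw1 : y1 * z2 < 2 ^ (2 * m) := by
    calc y1 * z2 < 2 ^ m * 2 ^ m := Nat.mul_lt_mul'' hy1m hz2m
      _ = 2 ^ (2 * m) := by rw [← pow_add]; congr 1; omega
  have hw2 : y2 * z1 < 2 ^ (2 * m) := by
    calc y2 * z1 < 2 ^ m * 2 ^ m := Nat.mul_lt_mul'' hy2m hz1m
      _ = 2 ^ (2 * m) := by rw [← pow_add]; congr 1; omega
  have F1 : (a : ℝ) * c * ((y1 * z2 : ℕ) : ℝ) ^ l ≤ (b1 : ℝ) * b2' * (1 + ε) ^ 2 := by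
    have := mul_le_mul u1 u2' (by positivity) (by positivity)
    push_cast
    calc (a : ℝ) * c * ((y1 : ℝ) * z2) ^ l = (a : ℝ) * y1 ^ l * (c * z2 ^ l) := by
          rw [mul_pow]; ring
      _ ≤ _ := this
      _ = _ := by ring
  have F2 : (a : ℝ) * c * ((y2 * z1 : ℕ) : ℝ) ^ l ≤ (b1 : ℝ) * b2' * (1 + ε) ^ 2 := by
    have := mul_le_mul u2 u1' (by positivity) (by positivity)
    push_cast
    calc (a : ℝ) * c * ((y2 : ℝ) * z1) ^ l = (c : ℝ) * y2 ^ l * (a * z1 ^ l) := by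
          rw [mul_pow]; ring
      _ ≤ _ := this
      _ = (b1' : ℝ) * b2 * (1 + ε) ^ 2 := by ring
      _ = _ := by rw [hP]
  have G1 : (b1 : ℝ) * b2' * (1 - ε) ^ 2 ≤ (a : ℝ) * c * ((y1 * z2 : ℕ) : ℝ) ^ l := by
    have := mul_le_mul d1 d2' (by positivity) (by positivity)
    push_cast
    calc (b1 : ℝ) * b2' * (1 - ε) ^ 2 = (b1 : ℝ) * (1 - ε) * (b2' * (1 - ε)) := by ring
      _ ≤ _ := this
      _ = _ := by rw [mul_pow]; ring
  have G2 : (b1 : ℝ) * b2' * (1 - ε) ^ 2 ≤ (a : ℝ) * c * ((y2 * z1 : ℕ) : ℝ) ^ l := by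
    have := mul_le_mul d2 d1' (by positivity) (by positivity)
    push_cast
    calc (b1 : ℝ) * b2' * (1 - ε) ^ 2 = (b2 : ℝ) * (1 - ε) * (b1' * (1 - ε)) := by
          rw [hP]; ring
      _ ≤ _ := this
      _ = _ := by rw [mul_pow]; ring
  have n1 := GPAux.core l m (y1 * z2) (y2 * z1) ε ((b1 : ℝ) * b2') ((a : ℝ) * c) hl he0 he hac
    F1 G2 (Nat.mul_pos hy2 hz1) hw2
  have n2 := GPAux.core l m (y2 * z1) (y1 * z2) ε ((b1 : ℝ) * b2') ((a : ℝ) * c) hl he0 he hac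
    F2 G1 (Nat.mul_pos hy1 hz2) hw1
  omega

end Pool.Agent.Work.MP_b928c0_nt_tr
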