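import Pool.Agent.Work.MP_b928c0_nt_tr.API
import Pool.Agent.Work.MP_db9399_all_helper6.LLLI

/-!
# MP_b928c0_nt, trade-off: block IN (independence for disjoint coordinate sets)
-/

set_option autoImplicit false

namespace Pool.Agent.Work.MP_b928c0_nt_tr

open Finset Classical
open Pool.Agent.Work.MP_db9399_all (pr DepOnI PackI Stmt_LLLI)

namespace INAux

theorem pr_nonneg {Ω : Type} [Fintype Ω] (E : Ω → Prop) : 0 ≤ pr E := by
  unfold pr
  positivity

theorem pr_le_one {Ω : Type} [Fintype Ω] (E : Ω → Prop) : pr E ≤ 1 := by
  unfold pr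
  refine div_le_one_of_le₀ ?_ (by positivity)
  exact_mod_cast Finset.card_le_univ _

end INAux

open INAux in
theorem stmt_IN : Stmt_IN := by
  intro J _ M ι A Q E θ hM hθ hdep hdisj hpr
  induction A using Finset.induction_on with
  | empty => simpa using pr_le_one _
  | insert a A ha ih =>
    have ih' := ih (fun b hb => hdep b (Finset.mem_insert_of_mem hb))
      (fun b hb c hc hbc => hdisj b (Finset.mem_insert_of_mem hb) c (Finset.mem_insert_of_mem hc) hbc)
      (fun b hb => hpr b (Finset.mem_insert_of_mem hb))
    have h2 : (0 : ℝ) < Fintype.card (J → Fin M) := by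
      have : Nonempty (J → Fin M) := ⟨fun _ => ⟨0, hM⟩⟩
      exact_mod_cast Fintype.card_pos
    have h1 := Pool.Agent.Work.MP_db9399_all.LLLIAux.indep' hM (Q a) (E a)
      (fun f => ∀ b ∈ A, E b f) (hdep a (Finset.mem_insert_self _ _)) (by
      intro f f' hff
      apply propext
      refine forall₂_congr fun b hb => ?_
      rw [hdep b (Finset.mem_insert_of_mem hb) f f' fun y hy => hff y ?_]
      rw [Finset.mem_compl]
      have hab : a ≠ b := by
        rintro rfl
        exact ha hb
      exact fun h => (Finset.disjoint_left.1 (hdisj a (Finset.mem_insert_self _ _) b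
        (Finset.mem_insert_of_mem hb) hab)) h hy)
    have h3 : pr (fun f : J → Fin M => ∀ b ∈ insert a A, E b f) ≤
        pr (E a) * pr (fun f : J → Fin M => ∀ b ∈ A, E b f) := by
      have e1 : pr (fun f : J → Fin M => ∀ b ∈ insert a A, E b f) =
          pr (fun f : J → Fin M => E a f ∧ ∀ b ∈ A, E b f) := by
        congr 1
        funext f
        exact propext ⟨fun h => ⟨h a (Finset.mem_insert_self _ _),
          fun b hb => h b (Finset.mem_insert_of_mem hb)⟩, fun h b hb => by
          rcases Finset.mem_insert.1 hb with rfl | hb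
          · exact h.1
          · exact h.2 b hb⟩
      rw [e1]
      unfold pr at h1 ⊢
      rw [div_le_iff₀ h2, mul_assoc, div_mul_cancel₀ _ h2.ne']
      refine le_trans (le_of_eq ?_) (h1.trans (le_of_eq ?_))
      · refine congrArg (fun n : ℕ => (n : ℝ)) (congrArg Finset.card ?_)
        ext f
        simp only [Finset.mem_filter]
      · refine congrArg₂ (fun x y : ℝ => x * y) rfl
          (congrArg (fun n : ℕ => (n : ℝ)) (congrArg Finset.card ?_))
        ext f
        simp only [Finset.mem_filter]
    calc pr (fun f : J → Fin M => ∀ b ∈ insert a A, E b f)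
        ≤ pr (E a) * pr (fun f : J → Fin M => ∀ b ∈ A, E b f) := h3
      _ ≤ θ * θ ^ A.card := mul_le_mul (hpr a (Finset.mem_insert_self _ _)) ih' (pr_nonneg _) hθ
      _ = θ ^ (insert a A).card := by
        rw [Finset.card_insert_of_notMem ha, pow_succ]
        ring

end Pool.Agent.Work.MP_b928c0_nt_tr
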