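import Pool.Agent.Work.MP_b928c0_nt_tr.API

/-!
# MP_b928c0_nt, trade-off: block NB (parameters of T1)
-/

set_option autoImplicit false

namespace Pool.Agent.Work.MP_b928c0_nt_tr

open Finset Classical

namespace NBAux

/-- The choice of `m` and `D` for given `K` and `L`. -/
theorem point (c : ℝ) (hc : 0 < c) (h : ℕ) (hh : 2 ≤ h) (i K L : ℕ)
    (hK10 : 10 ≤ K) (hKL : K ≤ L) (hh2 : 2 * h ≤ L)
    (hlog : Real.log 64 + 2 * Real.log K + Real.log h ≤ K * Real.log h / 50)
    (hm : ∀ m : ℕ, 4 * L ≤ K * m → ((i : ℝ) + 1) / 4 ≤ Real.log m)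
    (hsq : 2000 * c * L ≤ (K : ℝ) ^ 2 * Real.log h * (i + 1)) :
    ∃ m D : ℕ, 2 ≤ m ∧ 4 * L ≤ K * m ∧ h * 2 ^ m ≤ 2 ^ L ∧
        Real.exp (c * m / Real.log m) < D + 1 ∧
        (h ≤ 3 → 64 * K ^ 2 * D ^ 2 * 3 ^ K ≤ 4 ^ K) ∧
        (4 ≤ h → 16 * K ^ 2 * (h / 2) * D ^ 2 ≤ (h / 2) ^ K) := by
  obtain ⟨m, hm1, hm2⟩ : ∃ m : ℕ, 4 * L ≤ K * m ∧ K * m ≤ 5 * L := by
    refine ⟨(4 * L - 1) / K + 1, ?_, ?_⟩
    · have := Nat.lt_mul_div_succ (4 * L - 1) (show 0 < K by omega)
      omega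
    · have := Nat.mul_div_le (4 * L - 1) K
      rw [Nat.mul_add, Nat.mul_one]
      omega
  have hlm := hm m hm1
  have hKpos : (0 : ℝ) < K := by
    have : 0 < K := by omega
    exact_mod_cast this
  have hi : (0 : ℝ) < (i : ℝ) + 1 := by positivity
  have hlmpos : 0 < Real.log m := lt_of_lt_of_le (by positivity) hlm
  have hhR : (2 : ℝ) ≤ h := by exact_mod_cast hh
  have hlh : 0 < Real.log h := Real.log_pos (by linarith)
  have hE : c * m / Real.log m ≤ K * Real.log h / 100 := by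
    have h1 : (K : ℝ) * m ≤ 5 * L := by exact_mod_cast hm2
    have h2 : (K : ℝ) * (400 * c * m) ≤ K * (K * Real.log h * (i + 1)) := by
      have h3 : 400 * c * (K * m) ≤ 400 * c * (5 * L) := by
        apply mul_le_mul_of_nonneg_left h1 (by positivity)
      nlinarith
    have h3 : 400 * c * m ≤ K * Real.log h * (i + 1) := le_of_mul_le_mul_left h2 hKpos
    rw [div_le_div_iff₀ hlmpos (by norm_num)]
    have h4 : K * Real.log h * (((i : ℝ) + 1) / 4) ≤ K * Real.log h * Real.log m :=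
      mul_le_mul_of_nonneg_left hlm (by positivity)
    nlinarith
  set E := c * m / Real.log m with hEdef
  refine ⟨m, ⌊Real.exp E⌋₊, ?_, hm1, ?_, Nat.lt_floor_add_one _, ?_, ?_⟩
  · by_contra hlt
    have : m ≤ 1 := by omega
    have : K * m ≤ K * 1 := Nat.mul_le_mul_left _ this
    omega
  · have h1 : 10 * m ≤ K * m := Nat.mul_le_mul_right _ hK10
    have h2 : h + m ≤ L := by omega
    calc h * 2 ^ m ≤ 2 ^ h * 2 ^ m := Nat.mul_le_mul_right _ (Nat.lt_two_pow_self).le
      _ = 2 ^ (h + m) := by rw [pow_add]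
      _ ≤ 2 ^ L := Nat.pow_le_pow_right (by norm_num) h2
  · intro h3
    have hD : ((⌊Real.exp E⌋₊ : ℕ) : ℝ) ≤ Real.exp E := Nat.floor_le (Real.exp_pos _).le
    set D := ⌊Real.exp E⌋₊
    have hl3 : Real.log h ≤ Real.log 3 := by
      apply Real.log_le_log (by linarith)
      exact_mod_cast h3
    have h34 : 26 * Real.log 3 ≤ 25 * Real.log 4 := by
      have e1 : 26 * Real.log 3 = Real.log (3 ^ 26) := by
        rw [Real.log_pow]; norm_num
      have e2 : 25 * Real.log 4 = Real.log (4 ^ 25) := by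
        rw [Real.log_pow]; norm_num
      rw [e1, e2]
      exact Real.log_le_log (by norm_num) (by norm_num)
    have hKe : (K : ℝ) ^ 2 = Real.exp (2 * Real.log K) := by
      rw [two_mul, Real.exp_add, Real.exp_log hKpos, sq]
    have hDe : (D : ℝ) ^ 2 ≤ Real.exp (2 * E) := by
      rw [two_mul, Real.exp_add, sq]
      exact mul_le_mul hD hD (by positivity) (by positivity)
    have h64 : (64 : ℝ) = Real.exp (Real.log 64) := (Real.exp_log (by norm_num)).symm
    have h3e : (3 : ℝ) ^ K = Real.exp (K * Real.log 3) := by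
      rw [mul_comm, Real.exp_mul, Real.exp_log (by norm_num), Real.rpow_natCast]
    have h4e : (4 : ℝ) ^ K = Real.exp (K * Real.log 4) := by
      rw [mul_comm, Real.exp_mul, Real.exp_log (by norm_num), Real.rpow_natCast]
    have hgoal : (64 : ℝ) * K ^ 2 * D ^ 2 * 3 ^ K ≤ 4 ^ K := by
      rw [hKe, h3e, h4e]
      calc (64 : ℝ) * Real.exp (2 * Real.log K) * D ^ 2 * Real.exp (K * Real.log 3)
          ≤ 64 * Real.exp (2 * Real.log K) * Real.exp (2 * E) * Real.exp (K * Real.log 3) := by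
            gcongr
        _ = Real.exp (Real.log 64 + 2 * Real.log K + 2 * E + K * Real.log 3) := by
            rw [Real.exp_add, Real.exp_add, Real.exp_add, ← h64]
        _ ≤ Real.exp (K * Real.log 4) := by
            apply Real.exp_le_exp.2
            have h5 : (K : ℝ) * Real.log h ≤ K * Real.log 3 :=
              mul_le_mul_of_nonneg_left hl3 hKpos.le
            have h6 : (K : ℝ) * (26 * Real.log 3) ≤ K * (25 * Real.log 4) :=
              mul_le_mul_of_nonneg_left h34 hKpos.le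
            nlinarith
    exact_mod_cast hgoal
  · intro h4
    have hD : ((⌊Real.exp E⌋₊ : ℕ) : ℝ) ≤ Real.exp E := Nat.floor_le (Real.exp_pos _).le
    set D := ⌊Real.exp E⌋₊
    obtain ⟨q, hq⟩ : ∃ q, q = h / 2 := ⟨_, rfl⟩
    rw [← hq]
    have hq2 : 2 ≤ q := by omega
    have hhq : h ≤ 2 * q + 1 := by omega
    have hqh : q ≤ h := by omega
    have hh3 : h ≤ q ^ 3 := by
      have : 2 * q + 1 ≤ q ^ 3 := by nlinarith [Nat.mul_le_mul hq2 hq2]
      omega
    have hqR : (2 : ℝ) ≤ q := by exact_mod_cast hq2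
    have hqpos : (0 : ℝ) < q := by linarith
    have hlq : 0 < Real.log q := Real.log_pos (by linarith)
    have hlhq : Real.log h ≤ 3 * Real.log q := by
      have e1 : 3 * Real.log q = Real.log ((q : ℝ) ^ 3) := by
        rw [Real.log_pow]; norm_num
      rw [e1]
      apply Real.log_le_log (by linarith)
      exact_mod_cast hh3
    have hlqh : Real.log q ≤ Real.log h := Real.log_le_log hqpos (by exact_mod_cast hqh)
    have hKe : (K : ℝ) ^ 2 = Real.exp (2 * Real.log K) := by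
      rw [two_mul, Real.exp_add, Real.exp_log hKpos, sq]
    have hDe : (D : ℝ) ^ 2 ≤ Real.exp (2 * E) := by
      rw [two_mul, Real.exp_add, sq]
      exact mul_le_mul hD hD (by positivity) (by positivity)
    have h16 : (16 : ℝ) = Real.exp (Real.log 16) := (Real.exp_log (by norm_num)).symm
    have h1664 : Real.log 16 ≤ Real.log 64 := Real.log_le_log (by norm_num) (by norm_num)
    have hqe : (q : ℝ) ^ K = Real.exp (K * Real.log q) := by
      rw [mul_comm, Real.exp_mul, Real.exp_log hqpos, Real.rpow_natCast]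
    have hgoal : (16 : ℝ) * K ^ 2 * q * D ^ 2 ≤ q ^ K := by
      rw [hKe, hqe]
      calc (16 : ℝ) * Real.exp (2 * Real.log K) * q * D ^ 2
          ≤ 16 * Real.exp (2 * Real.log K) * q * Real.exp (2 * E) := by
            gcongr
        _ = Real.exp (Real.log 16 + 2 * Real.log K + Real.log q + 2 * E) := by
            rw [Real.exp_add, Real.exp_add, Real.exp_add, ← h16, Real.exp_log hqpos]
        _ ≤ Real.exp (K * Real.log q) := by
            apply Real.exp_le_exp.2
            have h5 : (K : ℝ) * Real.log h ≤ K * (3 * Real.log q) :=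
              mul_le_mul_of_nonneg_left hlhq hKpos.le
            have h6 : 0 < (K : ℝ) * Real.log q := by positivity
            nlinarith
    exact_mod_cast hgoal

theorem ev_log (l : ℝ) (hl : 0 < l) :
    ∀ᶠ x : ℝ in Filter.atTop, Real.log 64 + 2 * Real.log x + l ≤ x * l / 50 := by
  have h1 : ∀ᶠ x : ℝ in Filter.atTop, Real.log x ≤ (l / 200) * x := by
    have := Real.isLittleO_log_id_atTop.bound (show 0 < l / 200 by positivity)
    filter_upwards [this, Filter.eventually_ge_atTop (1 : ℝ)] with x hx hx1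
    simp only [id, Real.norm_eq_abs] at hx
    rw [abs_of_nonneg (Real.log_nonneg hx1), abs_of_nonneg (by linarith)] at hx
    exact hx
  have h2 : ∀ᶠ x : ℝ in Filter.atTop, 100 * (Real.log 64 + l) / l ≤ x :=
    Filter.eventually_ge_atTop _
  filter_upwards [h1, h2] with x hx hx2
  rw [div_le_iff₀ hl] at hx2
  nlinarith

end NBAux

open NBAux in
theorem stmt_NB : Stmt_NB := by
  intro c hc
  refine ⟨1296 * 2000 * c, by positivity, ?_⟩
  intro h hh
  have hhR : (2 : ℝ) ≤ h := by exact_mod_cast hh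
  have hlh : 0 < Real.log h := Real.log_pos (by linarith)
  obtain ⟨a, ha0, hasq⟩ : ∃ a : ℝ, 0 < a ∧ a ^ 2 * Real.log h = 2000 * c := by
    refine ⟨Real.sqrt (2000 * c / Real.log h), Real.sqrt_pos.2 (by positivity), ?_⟩
    rw [Real.sq_sqrt (by positivity)]
    field_simp
  set k : ℕ → ℝ := fun i => a * 2 ^ i / Real.sqrt (i + 1) with hk
  have hkpos : ∀ i, 0 < k i := by
    intro i
    have : 0 < Real.sqrt ((i : ℝ) + 1) := Real.sqrt_pos.2 (by positivity)
    simp only [hk]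
    positivity
  have hksq : ∀ i : ℕ, k i ^ 2 * Real.log h * (i + 1) = 2000 * c * 4 ^ i := by
    intro i
    have hs : Real.sqrt ((i : ℝ) + 1) ^ 2 = (i : ℝ) + 1 := Real.sq_sqrt (by positivity)
    have hi : (i : ℝ) + 1 ≠ 0 := by positivity
    simp only [hk]
    rw [div_pow, mul_pow, hs, ← hasq, ← pow_mul, mul_comm i 2, pow_mul]
    field_simp
    norm_num
  have hkmono : ∀ i, k i ≤ k (i + 1) := by
    intro i
    have h1 : k i ^ 2 ≤ k (i + 1) ^ 2 := by
      have e1 := hksq i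
      have e2 := hksq (i + 1)
      push_cast at e2
      have e5 : (4 : ℝ) ^ (i + 1) = 4 * 4 ^ i := by rw [pow_succ]; ring
      rw [e5] at e2
      have h2 : k i ^ 2 * (Real.log h * (i + 1 + 1)) ≤ k (i + 1) ^ 2 * (Real.log h * (i + 1 + 1)) := by
        have e3 : k i ^ 2 * (Real.log h * (i + 1 + 1)) ≤ 2 * (k i ^ 2 * Real.log h * (i + 1)) := by
          have : 0 ≤ k i ^ 2 * Real.log h * i := by positivity
          nlinarith
        have e4 : (0 : ℝ) < c * 4 ^ i := by positivity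
        nlinarith
      exact le_of_mul_le_mul_right h2 (by positivity)
    exact (sq_le_sq₀ (hkpos i).le (hkpos (i + 1)).le).1 h1
  have hkup : ∀ i, k i ≤ a * 2 ^ i := by
    intro i
    have h1 : 1 ≤ Real.sqrt ((i : ℝ) + 1) := by
      rw [Real.one_le_sqrt]
      have : (0 : ℝ) ≤ i := Nat.cast_nonneg i
      linarith
    exact div_le_self (by positivity) h1
  have htend : Filter.Tendsto k Filter.atTop Filter.atTop := by
    have h1 : Filter.Tendsto (fun i : ℕ => a * Real.sqrt ((2 : ℝ) ^ i)) Filter.atTop Filter.atTop := by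
      apply Filter.Tendsto.const_mul_atTop ha0
      exact Real.tendsto_sqrt_atTop.comp (tendsto_pow_atTop_atTop_of_one_lt (by norm_num))
    refine Filter.tendsto_atTop_mono ?_ h1
    intro i
    have h2 : Real.sqrt ((i : ℝ) + 1) ≤ Real.sqrt ((2 : ℝ) ^ i) := by
      apply Real.sqrt_le_sqrt
      have : i + 1 ≤ 2 ^ i := Nat.lt_two_pow_self
      exact_mod_cast this
    have h3 : 0 < Real.sqrt ((i : ℝ) + 1) := Real.sqrt_pos.2 (by positivity)
    have h4 : Real.sqrt ((2 : ℝ) ^ i) * Real.sqrt ((2 : ℝ) ^ i) = 2 ^ i :=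
      Real.mul_self_sqrt (by positivity)
    have h5 : 0 ≤ Real.sqrt ((2 : ℝ) ^ i) := Real.sqrt_nonneg _
    simp only [hk]
    rw [le_div_iff₀ h3]
    calc a * Real.sqrt ((2 : ℝ) ^ i) * Real.sqrt ((i : ℝ) + 1)
        ≤ a * Real.sqrt ((2 : ℝ) ^ i) * Real.sqrt ((2 : ℝ) ^ i) := by gcongr
      _ = a * 2 ^ i := by rw [mul_assoc, h4]
  have hpow2 : Filter.Tendsto (fun i : ℕ => (2 : ℝ) ^ i) Filter.atTop Filter.atTop :=
    tendsto_pow_atTop_atTop_of_one_lt (by norm_num)
  have hlog2 : (0.69 : ℝ) < Real.log 2 := by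
    have := Real.log_two_gt_d9
    linarith
  -- the threshold
  obtain ⟨X, hX⟩ := Filter.eventually_atTop.1 (ev_log (Real.log h) hlh)
  have hev : ∀ᶠ i : ℕ in Filter.atTop, 10 ≤ k i ∧ X ≤ k i ∧ 2 * a ≤ (2 : ℝ) ^ i ∧
      2 * (h : ℝ) ≤ 2 ^ i ∧ (1 / 4 - Real.log (2 / a)) / (Real.log 2 - 1 / 4) ≤ (i : ℝ) := by
    filter_upwards [htend.eventually_ge_atTop 10, htend.eventually_ge_atTop X,
      hpow2.eventually_ge_atTop (2 * a), hpow2.eventually_ge_atTop (2 * h),
      tendsto_natCast_atTop_atTop.eventually_ge_atTop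
        ((1 / 4 - Real.log (2 / a)) / (Real.log 2 - 1 / 4))] with i h1 h2 h3 h4 h5
    exact ⟨h1, h2, h3, h4, h5⟩
  obtain ⟨i1, hi1⟩ := Filter.eventually_atTop.1 hev
  refine ⟨max 1 i1, fun i => ⌈k i⌉₊, le_max_left _ _, ?_⟩
  intro i hi
  obtain ⟨hk10, hkX, h2a, h2h, hlin⟩ := hi1 i (le_trans (le_max_right _ _) hi)
  have hKge : k i ≤ (⌈k i⌉₊ : ℝ) := Nat.le_ceil _
  have hKle : (⌈k i⌉₊ : ℝ) ≤ 2 * k i := by
    have := Nat.ceil_lt_add_one (hkpos i).le
    linarith
  show 1 ≤ ⌈k i⌉₊ ∧ ⌈k i⌉₊ ≤ ⌈k (i + 1)⌉₊ ∧ _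
  set K := ⌈k i⌉₊ with hKdef
  have hKR : (10 : ℝ) ≤ K := le_trans hk10 hKge
  have hK10 : 10 ≤ K := by exact_mod_cast hKR
  refine ⟨by omega, Nat.ceil_le_ceil (hkmono i), ?_, ?_⟩
  · have h1 : (6 * (K : ℝ) + 12) ≤ 36 * k i := by linarith
    have h2 : (6 * (K : ℝ) + 12) ^ 2 ≤ (36 * k i) ^ 2 := by
      apply pow_le_pow_left₀ (by positivity) h1
    have e1 := hksq i
    calc (6 * (K : ℝ) + 12) ^ 2 * Real.log h * (i + 1)
        ≤ (36 * k i) ^ 2 * Real.log h * (i + 1) := by gcongr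
      _ = 1296 * (k i ^ 2 * Real.log h * (i + 1)) := by ring
      _ = 1296 * 2000 * c * 4 ^ i := by rw [e1]; ring
  · have h44 : ((2 : ℝ) ^ i) * 2 ^ i = 4 ^ i := by
      rw [← mul_pow]; norm_num
    have hp1 : (1 : ℝ) ≤ 2 ^ i := one_le_pow₀ (by norm_num)
    apply point c hc h hh i K (4 ^ i) hK10
    · have h1 : (K : ℝ) ≤ 4 ^ i := by
        calc (K : ℝ) ≤ 2 * k i := hKle
          _ ≤ 2 * (a * 2 ^ i) := by linarith [hkup i]
          _ = 2 * a * 2 ^ i := by ring
          _ ≤ 2 ^ i * 2 ^ i := by gcongr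
          _ = 4 ^ i := h44
      exact_mod_cast h1
    · have h1 : 2 * (h : ℝ) ≤ 4 ^ i := by
        calc 2 * (h : ℝ) ≤ 2 ^ i := h2h
          _ ≤ 2 ^ i * 2 ^ i := le_mul_of_one_le_left (by positivity) hp1
          _ = 4 ^ i := h44
      exact_mod_cast h1
    · exact hX K (le_trans hkX hKge)
    · intro m hm
      have h1 : (4 : ℝ) * 4 ^ i ≤ K * m := by exact_mod_cast hm
      have h2 : (K : ℝ) ≤ 2 * (a * 2 ^ i) := by linarith [hkup i]
      have hm0 : (0 : ℝ) ≤ m := Nat.cast_nonneg m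
      have h3 : (4 : ℝ) * 4 ^ i ≤ 2 * (a * 2 ^ i) * m :=
        le_trans h1 (mul_le_mul_of_nonneg_right h2 hm0)
      have h4 : (2 : ℝ) ^ i * (2 * 2 ^ i) ≤ 2 ^ i * (a * m) := by
        rw [← h44] at h3
        nlinarith
      have h5 : 2 * (2 : ℝ) ^ i ≤ a * m := le_of_mul_le_mul_left h4 (by positivity)
      have h6 : 2 / a * (2 : ℝ) ^ i ≤ m := by
        rw [div_mul_eq_mul_div, div_le_iff₀ ha0]
        linarith
      have h7 : Real.log (2 / a * (2 : ℝ) ^ i) ≤ Real.log m :=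
        Real.log_le_log (by positivity) h6
      rw [Real.log_mul (by positivity) (by positivity), Real.log_pow] at h7
      rw [div_le_iff₀ (by linarith)] at hlin
      nlinarith
    · have h1 : k i ^ 2 ≤ (K : ℝ) ^ 2 := pow_le_pow_left₀ (hkpos i).le hKge 2
      have e1 := hksq i
      push_cast
      rw [← e1]
      gcongr

end Pool.Agent.Work.MP_b928c0_nt_tr
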