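import Pool.Agent.Work.MP_b928c0_nt_tr.API

/-!
# MP_b928c0_nt, trade-off: block P1
-/

set_option autoImplicit false

namespace Pool.Agent.Work.MP_b928c0_nt_tr

open Finset Classical
open Pool.Agent.Work.MP_db9399_all (pr)

theorem stmt_P1 : Stmt_P1 := by
  intro J _ M y S hM
  unfold pr
  have h1 : ∀ (inst : DecidablePred (fun f : J → Fin M => f y ∈ S)),
      @Finset.filter _ (fun f : J → Fin M => f y ∈ S) inst univ =
        Fintype.piFinset (fun j => if j = y then S else (univ : Finset (Fin M))) := by
    intro inst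
    ext f
    rw [Finset.mem_filter, Fintype.mem_piFinset]
    constructor
    · rintro ⟨_, h⟩ j
      by_cases hj : j = y
      · rw [if_pos hj, hj]; exact h
      · rw [if_neg hj]; exact Finset.mem_univ _
    · intro h
      have h2 := h y
      rw [if_pos rfl] at h2
      exact ⟨Finset.mem_univ _, h2⟩
  have h2 : (∏ j : J, (if j = y then S else (univ : Finset (Fin M))).card) =
      S.card * M ^ (Fintype.card J - 1) := by
    rw [← Finset.mul_prod_erase univ _ (Finset.mem_univ y), if_pos rfl]
    congr 1
    rw [Finset.prod_congr rfl (g := fun _ => M)]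
    · rw [Finset.prod_const, Finset.card_erase_of_mem (Finset.mem_univ y), Finset.card_univ]
    · intro j hj
      rw [if_neg (Finset.ne_of_mem_erase hj), Finset.card_univ, Fintype.card_fin]
  rw [h1, Fintype.card_piFinset, h2, Fintype.card_fun, Fintype.card_fin]
  have h3 : 0 < Fintype.card J := Fintype.card_pos_iff.mpr ⟨y⟩
  obtain ⟨n, hn⟩ : ∃ n, Fintype.card J = n + 1 := ⟨Fintype.card J - 1, by omega⟩
  rw [hn, Nat.add_sub_cancel]
  have h4 : (M : ℝ) ≠ 0 := by exact_mod_cast hM.ne'
  push_cast
  rw [pow_succ]
  field_simp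

end Pool.Agent.Work.MP_b928c0_nt_tr
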