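import Pool.Agent.Work.MP_b928c0_nt_tr.API

/-!
# MP_b928c0_nt, trade-off: block QU
-/

set_option autoImplicit false

namespace Pool.Agent.Work.MP_b928c0_nt_tr

open Finset Classical

namespace QUAux

theorem fac_bb (u p q K t π : ℕ) (hu : 0 < u) (hp : 0 < p) (hq : 0 < q) :
    (bb u p q K t).factorization π =
      u.factorization π + t * p.factorization π + (K - 1 - t) * q.factorization π := by
  unfold bb
  rw [Nat.factorization_mul (Nat.mul_ne_zero hu.ne' (pow_ne_zero _ hp.ne')) (pow_ne_zero _ hq.ne'),
    Nat.factorization_mul hu.ne' (pow_ne_zero _ hp.ne'), Nat.factorization_pow,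
    Nat.factorization_pow]
  simp

theorem step (l K0 u p q ρ π i : ℕ) (hu : 0 < u) (hp : 0 < p) (hq : 0 < q) (hρ : ρ < l)
    (hi : i < K0) : (bb u p q (l * K0) (ρ + l * i)).factorization π + l * (i * q.factorization π) =
      (bb u p q (l * K0) ρ).factorization π + l * (i * p.factorization π) := by
  rw [fac_bb u p q _ _ π hu hp hq, fac_bb u p q _ _ π hu hp hq]
  have h1 : l * i + l ≤ l * K0 := by
    have := Nat.mul_le_mul_left l (Nat.succ_le_of_lt hi)
    rwa [Nat.mul_succ] at this
  obtain ⟨e, he⟩ : ∃ e, l * K0 = ρ + l * i + 1 + e := ⟨l * K0 - (ρ + l * i + 1), by omega⟩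
  have e1 : l * K0 - 1 - (ρ + l * i) = e := by omega
  have e2 : l * K0 - 1 - ρ = e + l * i := by omega
  rw [e1, e2]
  ring

theorem stepm (l K0 u p q ρ π i : ℕ) (hu : 0 < u) (hp : 0 < p) (hq : 0 < q) (hρ : ρ < l)
    (hi : i < K0) : (bb u p q (l * K0) (ρ + l * i)).factorization π % l =
      (bb u p q (l * K0) ρ).factorization π % l := by
  have h := congrArg (· % l) (step l K0 u p q ρ π i hu hp hq hρ hi)
  simpa using h

theorem stepd (l K0 u p q ρ π i : ℕ) (hl : 0 < l) (hu : 0 < u) (hp : 0 < p) (hq : 0 < q)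
    (hρ : ρ < l) (hi : i < K0) :
    (bb u p q (l * K0) (ρ + l * i)).factorization π / l + i * q.factorization π =
      (bb u p q (l * K0) ρ).factorization π / l + i * p.factorization π := by
  have h := congrArg (· / l) (step l K0 u p q ρ π i hu hp hq hρ hi)
  simpa [Nat.add_mul_div_left _ _ hl] using h

theorem supp (l K0 u p q t : ℕ) (hu : 0 < u) (hp : 0 < p) (hq : 0 < q) :
    (bb u p q (l * K0) t).factorization.support ⊆ (u * p * q).primeFactors := by
  intro π hπ
  rw [Finsupp.mem_support_iff, fac_bb u p q _ _ π hu hp hq] at hπ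
  rw [← Nat.support_factorization, Finsupp.mem_support_iff,
    Nat.factorization_mul (Nat.mul_ne_zero hu.ne' hp.ne') hq.ne',
    Nat.factorization_mul hu.ne' hp.ne', Finsupp.add_apply, Finsupp.add_apply]
  intro h
  apply hπ
  have h1 : u.factorization π = 0 := by omega
  have h2 : p.factorization π = 0 := by omega
  have h3 : q.factorization π = 0 := by omega
  rw [h1, h2, h3]
  simp

end QUAux

open QUAux

theorem stmt_QU : Stmt_QU := by
  intro l K0 u p q ρ hl hu hq hqp hρ
  have hp : 0 < p := by omega
  set S := (u * p * q).primeFactors with hS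
  set n : ℕ → ℕ := fun t => bb u p q (l * K0) t with hn
  have har : ∀ t, ar l (n t) = ∏ π ∈ S, π ^ ((n t).factorization π % l) := fun t => by
    unfold ar
    exact Finsupp.prod_of_support_subset _ (supp l K0 u p q t hu hp hq) _ fun π _ => by simp
  have hst : ∀ t, st l (n t) = ∑ π ∈ S, ((n t).factorization π / l) ^ 2 := fun t => by
    unfold st
    exact Finsupp.sum_of_support_subset _ (supp l K0 u p q t hu hp hq) _ fun π _ => by simp
  refine ⟨fun i hi => ?_, ∑ π ∈ S, (((n ρ).factorization π / l : ℕ) : ℤ) ^ 2,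
    ∑ π ∈ S, 2 * (((n ρ).factorization π / l : ℕ) : ℤ) *
      ((p.factorization π : ℤ) - q.factorization π),
    ∑ π ∈ S, ((p.factorization π : ℤ) - q.factorization π) ^ 2, ?_, fun i hi => ?_⟩
  · change ar l (n (ρ + l * i)) = ar l (n ρ)
    rw [har, har]
    exact prod_congr rfl fun π _ => by rw [stepm l K0 u p q ρ π i hu hp hq hρ hi]
  · obtain ⟨π, hπ⟩ : ∃ π, p.factorization π ≠ q.factorization π := by
      by_contra hcon
      push Not at hcon
      exact hqp.ne' (Nat.eq_of_factorization_eq hp.ne' hq.ne' hcon)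
    have hπS : π ∈ S := by
      rw [hS, ← Nat.support_factorization, Finsupp.mem_support_iff,
        Nat.factorization_mul (Nat.mul_ne_zero hu.ne' hp.ne') hq.ne',
        Nat.factorization_mul hu.ne' hp.ne', Finsupp.add_apply, Finsupp.add_apply]
      omega
    have h1 : (1 : ℤ) ≤ ((p.factorization π : ℤ) - q.factorization π) ^ 2 := by
      have h2 : ((p.factorization π : ℤ) - q.factorization π) ≠ 0 := by
        intro h
        exact hπ (by exact_mod_cast sub_eq_zero.1 h)
      have h3 := sq_pos_of_ne_zero h2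
      omega
    exact h1.trans (single_le_sum (f := fun π => ((p.factorization π : ℤ) - q.factorization π) ^ 2)
      (fun _ _ => sq_nonneg _) hπS)
  · change (st l (n (ρ + l * i)) : ℤ) = _
    rw [hst, Nat.cast_sum, sum_mul, sum_mul, ← sum_add_distrib, ← sum_add_distrib]
    refine sum_congr rfl fun π _ => ?_
    have h := stepd l K0 u p q ρ π i hl hu hp hq hρ hi
    have h' : (((n (ρ + l * i)).factorization π / l : ℕ) : ℤ) + i * q.factorization π =
        (((n ρ).factorization π / l : ℕ) : ℤ) + i * p.factorization π := by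
      exact_mod_cast h
    have h'' : (((n (ρ + l * i)).factorization π / l : ℕ) : ℤ) =
        (((n ρ).factorization π / l : ℕ) : ℤ) + i * (p.factorization π - q.factorization π) := by
      linear_combination h'
    rw [Nat.cast_pow, h'']
    ring

end Pool.Agent.Work.MP_b928c0_nt_tr
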