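import Pool.Agent.Work.MP_b928c0_nt_tr.API

/-!
# MP_b928c0_nt, trade-off: block SC, the scale theorem for T3 (helper64)
-/

set_option autoImplicit false

namespace Pool.Agent.Work.MP_b928c0_nt_tr

open Finset Classical
open Pool.Agent.Work.MP_db9399_all (pr DepOnI PackI)

namespace SCAux

/-- the finite set of types -/
def JJ (L : ℕ) : Type := Fin (2 ^ (4 * L + 1))

noncomputable instance (L : ℕ) : Fintype (JJ L) := Fin.fintype (2 ^ (4 * L + 1))

/-- value -/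
def JJ.val {L : ℕ} (y : JJ L) : ℕ := Fin.val (n := 2 ^ (4 * L + 1)) y

theorem JJ.val_injective {L : ℕ} : Function.Injective (JJ.val (L := L)) :=
  Fin.val_injective (n := 2 ^ (4 * L + 1))

/-- types as elements of a finite set -/
def tyJ (l L n : ℕ) : JJ L :=
  (⟨ar l n % 2 ^ (4 * L + 1), Nat.mod_lt _ (by positivity)⟩ : Fin (2 ^ (4 * L + 1)))

theorem tyJ_val (l L n : ℕ) (h0 : n ≠ 0) (hn : n < 2 ^ (4 * L + 1)) :
    (tyJ l L n).val = ar l n :=
  Nat.mod_eq_of_lt ((ar_le l n h0).trans_lt hn)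

theorem tyJ_congr {l L n n' : ℕ} (h : ar l n = ar l n') : tyJ l L n = tyJ l L n' := by
  apply JJ.val_injective
  change ar l n % 2 ^ (4 * L + 1) = ar l n' % 2 ^ (4 * L + 1)
  rw [h]

/-- good colourings -/
noncomputable def Gd (V K0 : ℕ) : Finset (Fin (V + 1) → Bool) :=
  univ.filter (fun ψ : Fin (V + 1) → Bool => Good V K0 ψ)

/-- numbering of the good colourings -/
noncomputable def cf (V K0 : ℕ) (c : Fin (Gd V K0).card) : Fin (V + 1) → Bool :=
  ((Gd V K0).equivFin.symm c).1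

theorem cf_mem (V K0 : ℕ) (c : Fin (Gd V K0).card) : cf V K0 c ∈ Gd V K0 :=
  ((Gd V K0).equivFin.symm c).2

theorem cf_good (V K0 : ℕ) (c : Fin (Gd V K0).card) : Good V K0 (cf V K0 c) := by
  have := cf_mem V K0 c
  unfold Gd at this
  exact (Finset.mem_filter.mp this).2

theorem card_cf (V K0 v : ℕ) :
    (univ.filter (fun c : Fin (Gd V K0).card => ev (cf V K0 c) v = true)).card =
      (univ.filter (fun ψ : Fin (V + 1) → Bool => Good V K0 ψ ∧ ev ψ v = true)).card := by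
  refine Finset.card_bij (fun c _ => cf V K0 c) ?_ ?_ ?_
  · intro c hc
    rw [Finset.mem_filter] at hc ⊢
    exact ⟨Finset.mem_univ _, cf_good V K0 c, hc.2⟩
  · intro c _ c' _ h
    exact (Gd V K0).equivFin.symm.injective (Subtype.ext h)
  · intro ψ hψ
    rw [Finset.mem_filter] at hψ
    have hm : ψ ∈ Gd V K0 := by
      unfold Gd
      rw [Finset.mem_filter]
      exact ⟨Finset.mem_univ _, hψ.2.1⟩
    have he : cf V K0 ((Gd V K0).equivFin ⟨ψ, hm⟩) = ψ := by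
      unfold cf
      rw [Equiv.symm_apply_apply]
    refine ⟨(Gd V K0).equivFin ⟨ψ, hm⟩, ?_, he⟩
    rw [Finset.mem_filter, he]
    exact ⟨Finset.mem_univ _, hψ.2.2⟩

/-- killed numbers -/
def killed (l L V K0 : ℕ) (f : JJ L → Fin (Gd V K0).card) (n : ℕ) : Prop :=
  ev (cf V K0 (f (tyJ l L n))) (st l n) = true

/-- the set -/
def AA (l L V K0 h : ℕ) (f : JJ L → Fin (Gd V K0).card) : Set ℕ :=
  {n | ¬ killed l L V K0 f n ∨ ∀ x ∈ blk h n, killed l L V K0 f x}

/-- the blocks chosen by `τ` -/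
def UU (l h K0 u p q : ℕ) (τ : ℕ → ℕ) : Finset ℕ :=
  (Finset.range l).biUnion (fun ρ => blk h (bb u p q (l * K0) (ρ + l * τ ρ)))

theorem pr_mono {Ω : Type} [Fintype Ω] {E F : Ω → Prop} (h : ∀ x, E x → F x) : pr E ≤ pr F := by
  unfold pr
  apply div_le_div_of_nonneg_right _ (by positivity)
  exact_mod_cast Finset.card_le_card (fun x hx => by
    rw [Finset.mem_filter] at hx ⊢
    exact ⟨hx.1, h x hx.2⟩)

/-- the set meets every `2 h` consecutive integers -/
theorem AA_meets (l L V K0 h : ℕ) (hh : 0 < h)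
    (f : JJ L → Fin (Gd V K0).card) (n : ℕ) :
    ∃ a ∈ AA l L V K0 h f, n ≤ a ∧ a < n + 2 * h := by
  obtain ⟨b, h1, h2, h3, h4⟩ := exists_blk h n hh
  by_cases hk : ∀ x ∈ blk h b, killed l L V K0 f x
  · exact ⟨b, Or.inr hk, h1, by omega⟩
  · push Not at hk
    obtain ⟨x, hx, hx'⟩ := hk
    exact ⟨x, Or.inl hx', h4 x hx⟩

/-- elements of the blocks of the terms -/
theorem blk_bd {L K h u p q : ℕ} (hh : h ≤ 2 ^ (L - 1)) (hL : 1 ≤ L)
    (hS : InSc L K u p q) {t : ℕ} (ht : t < K) {n : ℕ} (hn : n ∈ blk h (bb u p q K t)) :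
    n ≠ 0 ∧ n < 2 ^ (4 * L + 1) := by
  obtain ⟨h1, h2⟩ := hS t ht
  obtain ⟨h3, h4⟩ := mem_blk _ _ _ hn
  have h5 : 2 ^ L = 2 * 2 ^ (L - 1) := by
    conv_lhs => rw [show L = (L - 1) + 1 by omega, pow_succ]
    ring
  have h6 : 0 < 2 ^ (L - 1) := by positivity
  have h7 : 2 ^ (4 * L + 1) = 2 * 2 ^ (4 * L) := by rw [pow_succ]; ring
  have h8 : 2 ^ (L - 1) ≤ 2 ^ (4 * L) := Nat.pow_le_pow_right (by norm_num) (by omega)
  constructor
  · rintro rfl
    omega
  · omega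

theorem idx_lt {l K0 ρ i : ℕ} (hρ : ρ < l) (hi : i < K0) : ρ + l * i < l * K0 := by
  calc ρ + l * i < l + l * i := by omega
    _ = l * (i + 1) := by ring
    _ ≤ l * K0 := Nat.mul_le_mul_left _ hi

theorem UU_bd {l L h K0 u p q : ℕ} (hh : h ≤ 2 ^ (L - 1)) (hL : 1 ≤ L)
    (hS : InSc L (l * K0) u p q) {τ : ℕ → ℕ} (hτ : ∀ ρ < l, τ ρ < K0) {n : ℕ}
    (hn : n ∈ UU l h K0 u p q τ) : n ≠ 0 ∧ n < 2 ^ (4 * L + 1) := by
  unfold UU at hn
  rw [Finset.mem_biUnion] at hn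
  obtain ⟨ρ, hρ, hn⟩ := hn
  rw [Finset.mem_range] at hρ
  exact blk_bd hh hL hS (idx_lt hρ (hτ ρ hρ)) hn

theorem UU_card (l h K0 u p q : ℕ) (τ : ℕ → ℕ) : (UU l h K0 u p q τ).card ≤ l * h := by
  unfold UU
  refine Finset.card_biUnion_le.trans ?_
  rw [Finset.sum_congr rfl (fun ρ _ => card_blk h _)]
  simp

theorem image_card {l L h K0 u p q : ℕ} (hh : h ≤ 2 ^ (L - 1)) (hL : 1 ≤ L)
    (hS : InSc L (l * K0) u p q) {τ : ℕ → ℕ} (hτ : ∀ ρ < l, τ ρ < K0) :
    ((UU l h K0 u p q τ).image (tyJ l L)).card = ((UU l h K0 u p q τ).image (ar l)).card := by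
  have h1 : (((UU l h K0 u p q τ).image (tyJ l L)).image JJ.val) =
      (UU l h K0 u p q τ).image (ar l) := by
    rw [Finset.image_image]
    refine Finset.image_congr (fun n hn => ?_)
    obtain ⟨h2, h3⟩ := UU_bd hh hL hS hτ (Finset.mem_coe.mp hn)
    exact tyJ_val l L n h2 h3
  rw [← h1, Finset.card_image_of_injective _ JJ.val_injective]

/-- probability of the events of the package -/
theorem pr_E (hCO : Stmt_CO) (hP1 : Stmt_P1) (hIN : Stmt_IN) (l L K0 V : ℕ)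
    (hV : 3 * (V + 1) ^ 3 ≤ 2 ^ (K0 / 2)) (U : Finset ℕ) :
    pr (fun f : JJ L → Fin (Gd V K0).card => ∀ n ∈ U, killed l L V K0 f n) ≤
      (3 / 4 : ℝ) ^ (U.image (tyJ l L)).card := by
  obtain ⟨hM, hk⟩ := hCO V K0 hV
  have hM0 : 0 < (Gd V K0).card := by
    have h2 : 0 < 2 ^ (V + 1) := by positivity
    change 2 * 2 ^ (V + 1) ≤ 3 * (Gd V K0).card at hM
    omega
  -- representatives
  have hrep : ∀ y : JJ L, ∃ n : ℕ, y ∈ U.image (tyJ l L) → n ∈ U ∧
      tyJ l L n = y := by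
    intro y
    by_cases hy : y ∈ U.image (tyJ l L)
    · obtain ⟨n, hn, hny⟩ := Finset.mem_image.mp hy
      exact ⟨n, fun _ => ⟨hn, hny⟩⟩
    · exact ⟨0, fun h => absurd h hy⟩
  choose rp hrp using hrep
  refine le_trans (pr_mono (F := fun f => ∀ y ∈ U.image (tyJ l L),
    f y ∈ univ.filter (fun c : Fin (Gd V K0).card => ev (cf V K0 c) (st l (rp y)) = true)) ?_) ?_
  · intro f hf y hy
    obtain ⟨h1, h2⟩ := hrp y hy
    have h3 := hf (rp y) h1
    unfold killed at h3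
    rw [h2] at h3
    rw [Finset.mem_filter]
    exact ⟨Finset.mem_univ _, h3⟩
  · refine hIN (JJ L) (Gd V K0).card (JJ L)
      (U.image (tyJ l L)) (fun y => {y}) (fun y f =>
        f y ∈ univ.filter (fun c : Fin (Gd V K0).card => ev (cf V K0 c) (st l (rp y)) = true))
      (3 / 4) hM0 (by norm_num) ?_ ?_ ?_
    · intro y _ f f' hff
      have : f y = f' y := hff y (Finset.mem_singleton_self y)
      simp only [this]
    · intro a _ b _ hab
      exact Finset.disjoint_singleton.mpr hab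
    · intro y _
      rw [hP1 _ _ y _ hM0, card_cf]
      have h4 := hk (st l (rp y))
      change 4 * _ ≤ 3 * (Gd V K0).card at h4
      have h5 : (0 : ℝ) < (Gd V K0).card := by exact_mod_cast hM0
      rw [div_le_iff₀ h5]
      have h6 : (4 : ℝ) * ((univ.filter (fun ψ : Fin (V + 1) → Bool => Good V K0 ψ ∧
          ev ψ (st l (rp y)) = true)).card : ℝ) ≤ 3 * ((Gd V K0).card : ℝ) := by
        exact_mod_cast h4
      linarith

theorem exp_half : Real.exp (1 / 2) ≤ 2 := by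
  have h := Real.exp_one_lt_d9
  have h1 : Real.exp (1 / 2) ^ 2 = Real.exp 1 := by
    rw [← Real.exp_nat_mul]
    norm_num
  have h2 : Real.exp (1 / 2) ^ 2 ≤ 2 ^ 2 := by
    rw [h1]
    linarith
  exact (pow_le_pow_iff_left₀ (Real.exp_pos _).le (by norm_num) two_ne_zero).mp h2

/-- the key of the package: goodness -/
theorem key (hQU : Stmt_QU) (l L K0 h : ℕ) (hl : 0 < l) {u p q : ℕ}
    (hW : Win (l * K0) u p q) (hS : InSc L (l * K0) u p q)
    (f : JJ L → Fin (Gd ((4 * L + 1) ^ 2) K0).card)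
    (hf : ∀ t < l * K0, bb u p q (l * K0) t ∈ AA l L ((4 * L + 1) ^ 2) K0 h f) :
    ∃ τ : Fin l → Fin K0, ∀ n ∈ UU l h K0 u p q (fun ρ => if hρ : ρ < l then (τ ⟨ρ, hρ⟩ : ℕ) else 0),
      killed l L ((4 * L + 1) ^ 2) K0 f n := by
  have hu : 0 < u := hW.1
  have hq : 0 < q := hW.2.1
  have hp : 0 < p := hq.trans hW.2.2.1
  have hex : ∀ ρ : Fin l, ∃ i : Fin K0, ∀ n ∈ blk h (bb u p q (l * K0) (ρ + l * i)),
      killed l L ((4 * L + 1) ^ 2) K0 f n := by
    intro ρ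
    obtain ⟨hty, α, β, γ, hγ, hst⟩ := hQU l K0 u p q ρ hl hu hq hW.2.2.1 ρ.2
    have hgood := cf_good ((4 * L + 1) ^ 2) K0 (f (tyJ l L (bb u p q (l * K0) ρ)))
    obtain ⟨i, hi, hev⟩ := hgood (fun i => st l (bb u p q (l * K0) (ρ + l * i))) α β γ hγ
      (fun i hi => by
        refine ⟨?_, hst i hi⟩
        have h1 := hS (ρ + l * i) (idx_lt ρ.2 hi)
        have h2 : bb u p q (l * K0) (ρ + l * i) ≠ 0 := (bb_pos _ _ _ _ _ hu hp hq).ne'
        have h3 := st_le l _ h2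
        have h4 : Nat.log 2 (bb u p q (l * K0) (ρ + l * i)) < 4 * L :=
          Nat.log_lt_of_lt_pow h2 h1.2
        exact h3.trans (Nat.pow_le_pow_left (by omega) 2))
    have hk : killed l L ((4 * L + 1) ^ 2) K0 f (bb u p q (l * K0) (ρ + l * i)) := by
      unfold killed
      have h5 : tyJ l L (bb u p q (l * K0) (ρ + l * i)) = tyJ l L (bb u p q (l * K0) ρ) := by
        exact tyJ_congr (hty i hi)
      rw [h5]
      exact hev
    rcases hf (ρ + l * i) (idx_lt ρ.2 hi) with h6 | h6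
    · exact absurd hk h6
    · exact ⟨⟨i, hi⟩, h6⟩
  choose τ hτ using hex
  refine ⟨τ, fun n hn => ?_⟩
  unfold UU at hn
  rw [Finset.mem_biUnion] at hn
  obtain ⟨ρ, hρ, hn⟩ := hn
  rw [Finset.mem_range] at hρ
  simp only [dif_pos hρ] at hn
  exact hτ ⟨ρ, hρ⟩ n hn

end SCAux

open SCAux

theorem stmt_SC (hQU : Stmt_QU) (hCO : Stmt_CO) (hDC : Stmt_DC) (hCT : Stmt_CT) (hP1 : Stmt_P1)
    (hIN : Stmt_IN) (hLW : Stmt_LW) : Stmt_SC := by
  intro l L m m' h g K0 hl hL hK0 h1 h2 h3 h4 h5 h6 h7 h8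
  have hh : 0 < h := by omega
  have hl0 : 0 < l := by omega
  have hK : 1 ≤ l * K0 := Nat.mul_pos hl0 hK0
  have hhL : h ≤ 2 ^ (L - 1) := by
    have e1 : 2 ^ L = 2 * 2 ^ (L - 1) := by
      conv_lhs => rw [show L = (L - 1) + 1 by omega, pow_succ]
      ring
    have e2 : 0 < 2 ^ (2 * m) := by positivity
    have e3 : 64 * h * 1 ≤ 64 * h * 2 ^ (2 * m) := Nat.mul_le_mul_left _ e2
    omega
  set V := (4 * L + 1) ^ 2 with hV
  obtain ⟨hM, -⟩ := hCO V K0 h7
  have hM0 : 0 < (Gd V K0).card := by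
    have h2 : 0 < 2 ^ (V + 1) := by positivity
    change 2 * 2 ^ (V + 1) ≤ 3 * (Gd V K0).card at hM
    omega
  set T : ℝ := 1 / (4 * ((l * K0 : ℕ) : ℝ) * h) with hT
  have hKr : (1 : ℝ) ≤ ((l * K0 : ℕ) : ℝ) := by exact_mod_cast hK
  have hhr : (1 : ℝ) ≤ (h : ℝ) := by exact_mod_cast hh
  have hKh : (1 : ℝ) ≤ ((l * K0 : ℕ) : ℝ) * h := by nlinarith
  have hT0 : 0 ≤ T := by rw [hT]; positivity
  have hT4 : T ≤ 1 / 4 := by
    rw [hT]
    apply one_div_le_one_div_of_le (by norm_num)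
    nlinarith
  set W : ℝ := 2 * (K0 : ℝ) ^ l * (3 / 4) ^ (l * h / 2) with hWd
  have hpack : ∀ r : ℕ × ℕ × ℕ, Win (l * K0) r.1 r.2.1 r.2.2 → InSc L (l * K0) r.1 r.2.1 r.2.2 →
      PackI T ((Finset.range (l * K0)).biUnion (fun t =>
      (blk h (bb r.1 r.2.1 r.2.2 (l * K0) t)).image (tyJ l L))) W
      (fun f : JJ L → Fin (Gd V K0).card =>
        ¬ ∀ t < l * K0, bb r.1 r.2.1 r.2.2 (l * K0) t ∈ AA l L V K0 h f) := by
    rintro ⟨u, p, q⟩ hWin hInS
    simp only at hWin hInS ⊢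
    let ex : (Fin l → Fin K0) → ℕ → ℕ := fun τ ρ => if hρ : ρ < l then (τ ⟨ρ, hρ⟩ : ℕ) else 0
    have hex : ∀ τ, ∀ ρ < l, ex τ ρ < K0 := by
      intro τ ρ hρ
      simp only [ex, dif_pos hρ]
      exact (τ ⟨ρ, hρ⟩).2
    refine ⟨Fin l → Fin K0, inferInstance, fun τ => (UU l h K0 u p q (ex τ)).image (tyJ l L),
      fun τ f => ∀ n ∈ UU l h K0 u p q (ex τ), killed l L V K0 f n, ?_, ?_, ?_, ?_, ?_⟩
    · intro τ f f' hff
      apply propext
      refine forall_congr' fun n => forall_congr' fun hn => ?_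
      unfold killed
      rw [hff (tyJ l L n) (Finset.mem_image_of_mem _ hn)]
    · intro τ
      refine ⟨tyJ l L (bb u p q (l * K0) (0 + l * ex τ 0)), Finset.mem_image_of_mem _ ?_⟩
      unfold UU
      rw [Finset.mem_biUnion]
      exact ⟨0, Finset.mem_range.mpr hl0, self_mem_blk h _ hh⟩
    · intro τ y hy
      obtain ⟨n, hn, rfl⟩ := Finset.mem_image.mp hy
      unfold UU at hn
      rw [Finset.mem_biUnion] at hn ⊢
      obtain ⟨ρ, hρ, hn⟩ := hn
      rw [Finset.mem_range] at hρ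
      exact ⟨ρ + l * ex τ ρ, Finset.mem_range.mpr (idx_lt hρ (hex τ ρ hρ)),
        Finset.mem_image_of_mem _ hn⟩
    · -- the sum
      have hterm : ∀ τ : Fin l → Fin K0,
          pr (fun f : JJ L → Fin (Gd V K0).card =>
            ∀ n ∈ UU l h K0 u p q (ex τ), killed l L V K0 f n) *
          Real.exp (2 * T * (((UU l h K0 u p q (ex τ)).image (tyJ l L)).card : ℝ)) ≤
            (3 / 4) ^ (l * h / 2) * 2 := by
        intro τ
        have a1 := pr_E hCO hP1 hIN l L K0 V h7 (UU l h K0 u p q (ex τ))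
        have a2 := hDC l L m h g K0 u p q hl hh h1 hL h2 h3 h4 hK0 h5 hWin hInS (ex τ) (hex τ)
        have a3 := image_card hhL hL hInS (hex τ) (h := h)
        change l * h ≤ 2 * ((UU l h K0 u p q (ex τ)).image (ar l)).card at a2
        rw [← a3] at a2
        have a4 : ((UU l h K0 u p q (ex τ)).image (tyJ l L)).card ≤ l * h :=
          Finset.card_image_le.trans (UU_card l h K0 u p q (ex τ))
        refine mul_le_mul (a1.trans ?_) ?_ (Real.exp_pos _).le (by positivity)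
        · apply pow_le_pow_of_le_one (by norm_num) (by norm_num)
          omega
        · refine le_trans (Real.exp_le_exp.mpr ?_) exp_half
          have a5 : ((((UU l h K0 u p q (ex τ)).image (tyJ l L)).card : ℕ) : ℝ) ≤
              (l : ℝ) * h := by exact_mod_cast a4
          have a6 : (l : ℝ) ≤ ((l * K0 : ℕ) : ℝ) := by
            exact_mod_cast Nat.le_mul_of_pos_right l hK0
          calc 2 * T * ((((UU l h K0 u p q (ex τ)).image (tyJ l L)).card : ℕ) : ℝ)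
              ≤ 2 * T * (((l * K0 : ℕ) : ℝ) * h) := by
                refine mul_le_mul_of_nonneg_left (a5.trans ?_) (by positivity)
                exact mul_le_mul_of_nonneg_right a6 (by positivity)
            _ = 1 / 2 := by
                rw [hT]
                field_simp
                norm_num
      calc ∑ τ : Fin l → Fin K0, _ ≤ ∑ _τ : Fin l → Fin K0, ((3 / 4 : ℝ) ^ (l * h / 2) * 2) :=
            Finset.sum_le_sum (fun τ _ => hterm τ)
        _ = W := by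
            rw [Finset.sum_const, Finset.card_univ, Fintype.card_fun, Fintype.card_fin,
              Fintype.card_fin, nsmul_eq_mul, hWd]
            push_cast
            ring
    · intro f hE hall
      obtain ⟨τ, hτ⟩ := key hQU l L K0 h hl0 hWin hInS f hall
      exact hE τ hτ
  have hcount : ∀ y : JJ L, ∀ R : Finset (ℕ × ℕ × ℕ), (∀ r ∈ R, Win (l * K0) r.1 r.2.1 r.2.2 ∧
      InSc L (l * K0) r.1 r.2.1 r.2.2 ∧ y ∈ (Finset.range (l * K0)).biUnion (fun t =>
      (blk h (bb r.1 r.2.1 r.2.2 (l * K0) t)).image (tyJ l L))) → (R.card : ℝ) * W ≤ T := by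
    intro y R hR
    have hc := hCT l L m m' h (l * K0) y.val hl hh hL hhL h5 h6 hK R (fun r hr => by
      obtain ⟨b1, b2, b3⟩ := hR r hr
      refine ⟨b1, b2, ?_⟩
      rw [Finset.mem_biUnion] at b3
      obtain ⟨t, ht, b4⟩ := b3
      rw [Finset.mem_range] at ht
      obtain ⟨n, hn, hny⟩ := Finset.mem_image.mp b4
      obtain ⟨c1, c2⟩ := blk_bd hhL hL b2 ht hn
      refine ⟨t, ht, n, hn, ?_⟩
      rw [← hny, tyJ_val l L n c1 c2])
    have hcr : (R.card : ℝ) ≤ 2 ^ m * h * ((l * K0 : ℕ) : ℝ) * 2 ^ (2 * m') := by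
      exact_mod_cast hc
    have hW0 : 0 ≤ W := by rw [hWd]; positivity
    refine (mul_le_mul_of_nonneg_right hcr hW0).trans ?_
    have h8r : (16 : ℝ) * (((l * K0 : ℕ) : ℝ)) ^ 2 * (h : ℝ) ^ 2 * (K0 : ℝ) ^ l *
        2 ^ (m + 2 * m') * 3 ^ (l * h / 2) ≤ 4 ^ (l * h / 2) := by
      exact_mod_cast h8
    rw [hT, hWd, le_div_iff₀ (by positivity), div_pow]
    set K : ℝ := ((l * K0 : ℕ) : ℝ) with hKd
    set N := l * h / 2 with hN
    have h4N : (0 : ℝ) < 4 ^ N := by positivity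
    have e1 : 2 ^ m * (h : ℝ) * K * 2 ^ (2 * m') * (2 * (K0 : ℝ) ^ l * (3 ^ N / 4 ^ N)) *
        (4 * K * h) = (8 * K ^ 2 * (h : ℝ) ^ 2 * (K0 : ℝ) ^ l * 2 ^ (m + 2 * m') * 3 ^ N) /
          4 ^ N := by
      rw [pow_add]
      field_simp
      ring
    rw [e1, div_le_one h4N]
    refine le_trans ?_ h8r
    have e2 : 0 ≤ K ^ 2 * (h : ℝ) ^ 2 * (K0 : ℝ) ^ l * 2 ^ (m + 2 * m') * 3 ^ N := by positivity
    nlinarith
  obtain ⟨f, hf⟩ := hLW L (l * K0) (JJ L) (Gd V K0).card T W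
    (fun r => (Finset.range (l * K0)).biUnion (fun t =>
      (blk h (bb r.1 r.2.1 r.2.2 (l * K0) t)).image (tyJ l L)))
    (fun r f => ¬ ∀ t < l * K0, bb r.1 r.2.1 r.2.2 (l * K0) t ∈ AA l L V K0 h f)
    hK hM0 hT0 hT4 hpack hcount
  refine ⟨AA l L V K0 h f, fun n _ _ => AA_meets l L V K0 h hh f n, ?_⟩
  intro u p q hWin hInS
  exact hf (u, p, q) hWin hInS

end Pool.Agent.Work.MP_b928c0_nt_tr
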