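import Pool.Agent.Work.MP_b928c0_nt_tr.API

/-!
# MP_b928c0_nt, block TH: at most `2 g` coincidences per difference
-/

set_option autoImplicit false

namespace Pool.Agent.Work.MP_b928c0_nt_tr

open Finset Classical

namespace THAux

/-- a set of naturals without two consecutive large gaps -/
theorem card_le (T : Finset ℕ) (g : ℕ) (hg : 0 < g)
    (H : ∀ t1 ∈ T, ∀ t2 ∈ T, ∀ t3 ∈ T, t1 < t2 → t2 < t3 → t2 - t1 < g ∨ t3 - t2 < g) :
    T.card ≤ 2 * g := by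
  rcases T.eq_empty_or_nonempty with h0 | h0
  · rw [h0]; simp
  · have h1 : T ⊆ Finset.Ico (T.min' h0) (T.min' h0 + g) ∪
        Finset.Ioc (T.max' h0 - g) (T.max' h0) := by
      intro t ht
      have h2 := T.min'_le t ht
      have h3 := T.le_max' t ht
      rw [Finset.mem_union, Finset.mem_Ico, Finset.mem_Ioc]
      rcases Nat.eq_or_lt_of_le h2 with h4 | h4
      · left; omega
      · rcases Nat.eq_or_lt_of_le h3 with h5 | h5
        · right; omega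
        · rcases H _ (T.min'_mem h0) t ht _ (T.max'_mem h0) h4 h5 with h6 | h6
          · left; omega
          · right; omega
    refine (Finset.card_le_card h1).trans ((Finset.card_union_le _ _).trans ?_)
    rw [Nat.card_Ico, Nat.card_Ioc]
    omega

/-- divisibility kills small integers -/
theorem small {N : ℤ} {e : ℤ} (h : N ∣ e) (he : |e| < N) : e = 0 :=
  Int.eq_zero_of_abs_lt_dvd h he

end THAux

theorem stmt_TH (hGP : Stmt_GP) (hDT : Stmt_DT) : Stmt_TH := by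
  intro l L m h g u p q K d hl hh h64 h2h hg hlm hW hI hd hfar S hS
  obtain ⟨hu, hq, hqp, hcop, _⟩ := hW
  have hp : 0 < p := by omega
  rcases S.eq_empty_or_nonempty with h0 | ⟨y0, hy0⟩
  · rw [h0]; simp
  have hL : h < 2 ^ L := by
    have h1 : h * 1 ≤ h * 2 ^ (2 * m) := Nat.mul_le_mul_left _ Nat.one_le_two_pow
    have h2 : 64 * h * 2 ^ (2 * m) = 64 * (h * 2 ^ (2 * m)) := by ring
    omega
  -- basic facts on an element near a term
  have hbas : ∀ t x, t < K → x < bb u p q K t + h → bb u p q K t < x + h →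
      x ≠ 0 ∧ xr l x < 2 ^ m := by
    intro t x ht h1 h2
    obtain ⟨h3, h4⟩ := hI t ht
    have hx : x ≠ 0 := by omega
    refine ⟨hx, xr_lt l x (4 * L + 1) m hx ?_ hlm⟩
    have h5 : 2 ^ L ≤ 2 ^ (4 * L) := Nat.pow_le_pow_right (by norm_num) (by omega)
    rw [pow_succ]
    omega
  -- the reference coincidence
  set yy := xr l y0.2.1 with hyy
  set zz := xr l y0.2.2 with hzz
  have hyy0 : 0 < yy := xr_pos _ _
  have hzz0 : 0 < zz := xr_pos _ _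
  obtain ⟨g0, Y, Z, hg0, hYZ, eY, eZ⟩ := Nat.exists_coprime' (Nat.gcd_pos_of_pos_left zz hyy0)
  have hY0 : 0 < Y := by
    rcases Nat.eq_zero_or_pos Y with h1 | h1
    · rw [h1] at eY; omega
    · exact h1
  have hZ0 : 0 < Z := by
    rcases Nat.eq_zero_or_pos Z with h1 | h1
    · rw [h1] at eZ; omega
    · exact h1
  -- every coincidence has the same ratio
  have hrat : ∀ y ∈ S, y.2.1 * Z ^ l = y.2.2 * Y ^ l ∧ y.2.2 < y.2.1 := by
    intro y hy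
    obtain ⟨c1, c2, c3, c4, c5, c6, c7, c8⟩ := hS y hy
    obtain ⟨d1, d2, d3, d4, d5, d6, d7, d8⟩ := hS y0 hy0
    obtain ⟨n1, r1⟩ := hbas _ _ c1 c2 c3
    obtain ⟨n2, r2⟩ := hbas _ _ (by omega) c4 c5
    obtain ⟨n3, r3⟩ := hbas _ _ d1 d2 d3
    obtain ⟨n4, r4⟩ := hbas _ _ (by omega) d4 d5
    have a1 := ar_mul_xr_pow l _ n1
    have a2 := ar_mul_xr_pow l _ n2
    have a3 := ar_mul_xr_pow l _ n3
    have a4 := ar_mul_xr_pow l _ n4
    rw [← c8] at a2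
    rw [← d8] at a4
    have key : xr l y.2.1 * zz = yy * xr l y.2.2 := by
      refine hGP l L m h (ar l y.2.1) (ar l y0.2.1) (xr l y.2.1) (xr l y.2.2) yy zz
        (bb u p q K (y.1 + d)) (bb u p q K y.1) (bb u p q K (y0.1 + d)) (bb u p q K y0.1)
        hl hh h64 (hI _ c1).1 (hI _ (by omega)).1 (hI _ d1).1 (hI _ (by omega)).1
        (bb_cross u p q K y.1 y0.1 d c1 d1) (xr_pos _ _) (xr_pos _ _) hyy0 hzz0 r1 r2 r3 r4
        ?_ ?_ ?_ ?_ ?_ ?_ ?_ ?_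
      · rw [a1]; exact c2
      · rw [a1]; exact c3
      · rw [a2]; exact c4
      · rw [a2]; exact c5
      · rw [a3]; exact d2
      · rw [a3]; exact d3
      · rw [a4]; exact d4
      · rw [a4]; exact d5
    have key2 : xr l y.2.1 * Z = Y * xr l y.2.2 := by
      rw [eY, eZ] at key
      have : g0 * (xr l y.2.1 * Z) = g0 * (Y * xr l y.2.2) := by
        calc g0 * (xr l y.2.1 * Z) = xr l y.2.1 * (Z * g0) := by ring
          _ = Y * g0 * xr l y.2.2 := key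
          _ = g0 * (Y * xr l y.2.2) := by ring
      exact Nat.eq_of_mul_eq_mul_left hg0 this
    constructor
    · calc y.2.1 * Z ^ l = ar l y.2.1 * xr l y.2.1 ^ l * Z ^ l := by rw [a1]
        _ = ar l y.2.1 * (xr l y.2.1 * Z) ^ l := by rw [mul_pow]; ring
        _ = ar l y.2.1 * (Y * xr l y.2.2) ^ l := by rw [key2]
        _ = ar l y.2.1 * xr l y.2.2 ^ l * Y ^ l := by rw [mul_pow]; ring
        _ = y.2.2 * Y ^ l := by rw [a2]
    · have h5 := bb_far u p q K (2 * h) hfar y.1 d hd c1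
      omega
  have hZY : Z < Y := by
    obtain ⟨h1, h2⟩ := hrat y0 hy0
    by_contra hc
    have h3 : Y ^ l ≤ Z ^ l := Nat.pow_le_pow_left (not_lt.mp hc) l
    have h4 : y0.2.2 * Y ^ l < y0.2.1 * Z ^ l :=
      calc y0.2.2 * Y ^ l ≤ y0.2.2 * Z ^ l := Nat.mul_le_mul_left _ h3
        _ < y0.2.1 * Z ^ l := Nat.mul_lt_mul_of_pos_right h2 (pow_pos hZ0 l)
    omega
  have hYl : 2 ^ l ≤ Y ^ l := Nat.pow_le_pow_left (by omega) l
  have hYlz : (2 * (h : ℤ)) < ((Y ^ l : ℕ) : ℤ) := by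
    have : 2 * h < Y ^ l := by omega
    exact_mod_cast this
  have hcopz : IsCoprime ((Y ^ l : ℕ) : ℤ) ((Z ^ l : ℕ) : ℤ) := by
    rw [Nat.isCoprime_iff_coprime]
    exact Nat.Coprime.pow _ _ hYZ
  set Yl : ℤ := ((Y ^ l : ℕ) : ℤ) with hYldef
  set Zl : ℤ := ((Z ^ l : ℕ) : ℤ) with hZldef
  set E : ℤ := (p : ℤ) ^ d * Zl - (q : ℤ) ^ d * Yl with hE
  set Q : ℤ := (q : ℤ) ^ d with hQ
  have hQ0 : Q ≠ 0 := by
    rw [hQ]; exact pow_ne_zero _ (by exact_mod_cast hq.ne')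
  -- the basic identity
  have hid : ∀ y ∈ S, E * (bb u p q K y.1 : ℕ) =
      Q * ((((y.2.2 : ℕ) : ℤ) - (bb u p q K y.1 : ℕ)) * Yl -
        (((y.2.1 : ℕ) : ℤ) - (bb u p q K (y.1 + d) : ℕ)) * Zl) := by
    intro y hy
    obtain ⟨c1, -⟩ := hS y hy
    have h1 : ((y.2.1 : ℕ) : ℤ) * Zl = ((y.2.2 : ℕ) : ℤ) * Yl := by
      rw [hZldef, hYldef]; exact_mod_cast (hrat y hy).1
    have h2 : Q * (bb u p q K (y.1 + d) : ℕ) = (p : ℤ) ^ d * (bb u p q K y.1 : ℕ) := by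
      rw [hQ]; exact_mod_cast bb_add u p q K y.1 d c1
    rw [hE]
    linear_combination (-Zl) * h2 + Q * h1
  have habs : ∀ y ∈ S, |((y.2.2 : ℕ) : ℤ) - (bb u p q K y.1 : ℕ)| < h ∧
      |((y.2.1 : ℕ) : ℤ) - (bb u p q K (y.1 + d) : ℕ)| < h ∧
      ((y.2.2 : ℕ) : ℤ) - (bb u p q K y.1 : ℕ) ≠ 0 ∧
      ((y.2.1 : ℕ) : ℤ) - (bb u p q K (y.1 + d) : ℕ) ≠ 0 := by
    intro y hy
    obtain ⟨c1, c2, c3, c4, c5, c6, c7, c8⟩ := hS y hy
    refine ⟨?_, ?_, ?_, ?_⟩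
    · rw [abs_lt]; constructor <;> omega
    · rw [abs_lt]; constructor <;> omega
    · omega
    · omega
  have hE0 : E ≠ 0 := by
    intro hE0
    have h1 := hid y0 hy0
    obtain ⟨h2, h3, h4, h5⟩ := habs y0 hy0
    rw [hE0, zero_mul] at h1
    have h6 := (mul_eq_zero.1 h1.symm).resolve_left hQ0
    have h7 : Yl ∣ (((y0.2.1 : ℕ) : ℤ) - (bb u p q K (y0.1 + d) : ℕ)) * Zl :=
      ⟨((y0.2.2 : ℕ) : ℤ) - (bb u p q K y0.1 : ℕ), by linarith⟩
    exact h5 (THAux.small (hcopz.dvd_of_dvd_mul_right h7) (by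
      have : (0 : ℤ) ≤ h := by positivity
      linarith))
  -- uniqueness
  have huniq : ∀ y ∈ S, ∀ y' ∈ S, y.1 = y'.1 → y = y' := by
    intro y hy y' hy' hyy'
    have h1 := hid y hy
    have h2 := hid y' hy'
    obtain ⟨a1, a2, -, -⟩ := habs y hy
    obtain ⟨b1, b2, -, -⟩ := habs y' hy'
    rw [← hyy'] at h2 b1 b2
    rw [h1] at h2
    have h3 := mul_left_cancel₀ hQ0 h2
    have h4 : Yl ∣ (((y.2.1 : ℕ) : ℤ) - ((y'.2.1 : ℕ) : ℤ)) * Zl :=
      ⟨((y.2.2 : ℕ) : ℤ) - ((y'.2.2 : ℕ) : ℤ), by linarith⟩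
    have h5 : ((y.2.1 : ℕ) : ℤ) - ((y'.2.1 : ℕ) : ℤ) = 0 := by
      refine THAux.small (hcopz.dvd_of_dvd_mul_right h4) ?_
      rw [abs_lt] at a2 b2 ⊢
      constructor <;> linarith [a2.1, a2.2, b2.1, b2.2]
    have h6 : (((y.2.2 : ℕ) : ℤ) - ((y'.2.2 : ℕ) : ℤ)) * Yl = 0 := by
      have h7 : ((y.2.1 : ℕ) : ℤ) = ((y'.2.1 : ℕ) : ℤ) := by linarith
      rw [h7] at h3
      linarith
    have hYl0 : Yl ≠ 0 := by
      have : (0 : ℤ) ≤ h := by positivity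
      intro hh0
      rw [hh0] at hYlz
      linarith
    have h8 := (mul_eq_zero.1 h6).resolve_right hYl0
    refine Prod.ext hyy' (Prod.ext ?_ ?_)
    · have : ((y.2.1 : ℕ) : ℤ) = ((y'.2.1 : ℕ) : ℤ) := by linarith
      exact_mod_cast this
    · have : ((y.2.2 : ℕ) : ℤ) = ((y'.2.2 : ℕ) : ℤ) := by linarith
      exact_mod_cast this
  have hcard : (S.image Prod.fst).card = S.card :=
    Finset.card_image_of_injOn (fun y hy y' hy' h1 => huniq y hy y' hy' h1)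
  rw [← hcard]
  have hg0' : 0 < g := by
    rcases Nat.eq_zero_or_pos g with h1 | h1
    · rw [h1] at hg
      have : 1 ≤ h ^ 2 := Nat.one_le_pow _ _ hh
      omega
    · exact h1
  refine THAux.card_le _ g hg0' ?_
  intro t1 ht1 t2 ht2 t3 ht3 h12 h23
  rw [Finset.mem_image] at ht1 ht2 ht3
  obtain ⟨y1, hy1, rfl⟩ := ht1
  obtain ⟨y2, hy2, rfl⟩ := ht2
  obtain ⟨y3, hy3, rfl⟩ := ht3
  obtain ⟨a1, a2, a3, a4⟩ := habs y1 hy1
  obtain ⟨b1, b2, b3, b4⟩ := habs y2 hy2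
  obtain ⟨c1, c2, c3, c4⟩ := habs y3 hy3
  have ht3K : y3.1 + d < K := (hS y3 hy3).1
  have i1 := hid y1 hy1
  have i2 := hid y2 hy2
  have i3 := hid y3 hy3
  have f1 : u * p ^ y1.1 * q ^ (K - 1 - y3.1) * q ^ (y2.1 - y1.1 + (y3.1 - y2.1)) =
      bb u p q K y1.1 := by
    unfold bb
    rw [mul_assoc, ← pow_add]
    congr 2
    omega
  have f2 : u * p ^ y1.1 * q ^ (K - 1 - y3.1) * p ^ (y2.1 - y1.1) * q ^ (y3.1 - y2.1) =
      bb u p q K y2.1 := by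
    unfold bb
    have e1 : y2.1 = y1.1 + (y2.1 - y1.1) := by omega
    have e2 : K - 1 - y2.1 = K - 1 - y3.1 + (y3.1 - y2.1) := by omega
    rw [e2, pow_add]
    conv_rhs => rw [e1, pow_add]
    have e3 : y1.1 + (y2.1 - y1.1) = y2.1 := by omega
    rw [e3]
    ring
  have f3 : u * p ^ y1.1 * q ^ (K - 1 - y3.1) * p ^ (y2.1 - y1.1 + (y3.1 - y2.1)) =
      bb u p q K y3.1 := by
    unfold bb
    have e1 : y3.1 = y1.1 + (y2.1 - y1.1 + (y3.1 - y2.1)) := by omega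
    have e4 : p ^ y3.1 = p ^ y1.1 * p ^ (y2.1 - y1.1 + (y3.1 - y2.1)) := by
      rw [← pow_add]
      congr 1
    rw [e4]
    ring
  refine hDT g h p q (u * p ^ y1.1 * q ^ (K - 1 - y3.1)) (y2.1 - y1.1) (y3.1 - y2.1) E Q Yl Zl
    _ _ _ _ _ _ hg (by positivity) hq hqp hcop hE0 hQ0 a2 a1 b2 b1 c2 c1 b4 c4 ?_ ?_ ?_
  · rw [f1]; exact i1
  · rw [f2]; exact i2
  · rw [f3]; exact i3

end Pool.Agent.Work.MP_b928c0_nt_tr
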