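import Pool.Agent.Work.MP_b928c0_nt_tr.API

/-!
# MP_b928c0_nt, trade-off: block WC (number of windows with a given term)
-/

set_option autoImplicit false

namespace Pool.Agent.Work.MP_b928c0_nt_tr

open Finset Classical

namespace WCAux

/-- `u` is recovered from a term -/
theorem div_bb (u p q K t : ℕ) (hp : 0 < p) (hq : 0 < q) :
    bb u p q K t / (p ^ t * q ^ (K - 1 - t)) = u := by
  have h1 : 0 < p ^ t * q ^ (K - 1 - t) := Nat.mul_pos (pow_pos hp _) (pow_pos hq _)
  have h2 : bb u p q K t = u * (p ^ t * q ^ (K - 1 - t)) := by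
    unfold bb
    ring
  rw [h2]
  exact Nat.mul_div_cancel _ h1

theorem dvd_bb (u p q K t : ℕ) : u ∣ bb u p q K t := by
  unfold bb
  exact ⟨p ^ t * q ^ (K - 1 - t), by ring⟩

end WCAux

theorem stmt_WC : Stmt_WC := by
  intro K D n hK hn hD R hR
  have hsub : R ⊆ (Finset.range K ×ˢ ((xr K n).divisors ×ˢ (xr K n).divisors)).image
      (fun z : ℕ × ℕ × ℕ => (n / (z.2.1 ^ z.1 * z.2.2 ^ (K - 1 - z.1)), z.2.1, z.2.2)) := by
    rintro ⟨u, p, q⟩ hr
    obtain ⟨⟨hu, hq, hqp, hco, hdv⟩, t, ht, hb⟩ := hR _ hr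
    simp only at hu hq hqp hco hdv hb
    have hun : u ∣ n := by
      rw [← hb]
      exact WCAux.dvd_bb u p q K t
    have hpq : (p * q) ^ K ∣ n := dvd_trans hdv hun
    have hxr0 : xr K n ≠ 0 := (xr_pos K n).ne'
    have hpqx : p * q ∣ xr K n := dvd_xr K n (p * q) (by omega) (by omega) hpq
    rw [Finset.mem_image]
    refine ⟨(t, p, q), ?_, ?_⟩
    · simp only [Finset.mem_product, Finset.mem_range, Nat.mem_divisors]
      exact ⟨ht, ⟨dvd_trans (Nat.dvd_mul_right p q) hpqx, hxr0⟩,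
        ⟨dvd_trans (Nat.dvd_mul_left q p) hpqx, hxr0⟩⟩
    · simp only
      rw [← hb, WCAux.div_bb u p q K t (by omega) hq]
  calc R.card ≤ _ := Finset.card_le_card hsub
    _ ≤ (Finset.range K ×ˢ ((xr K n).divisors ×ˢ (xr K n).divisors)).card := Finset.card_image_le
    _ = K * ((xr K n).divisors.card * (xr K n).divisors.card) := by
        rw [Finset.card_product, Finset.card_product, Finset.card_range]
    _ ≤ K * (D * D) := Nat.mul_le_mul_left _ (Nat.mul_le_mul hD hD)
    _ = K * D ^ 2 := by ring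

end Pool.Agent.Work.MP_b928c0_nt_tr
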