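import Pool.Agent.Work.MP_b928c0_nt_tr.F1
import Pool.Agent.Work.MP_b928c0_nt_tr.DV
import Pool.Agent.Work.MP_b928c0_nt_tr.NB
import Pool.Agent.Work.MP_b928c0_nt_tr.BS
import Pool.Agent.Work.MP_b928c0_nt_tr.BH
import Pool.Agent.Work.MP_b928c0_nt_tr.GL
import Pool.Agent.Work.MP_b928c0_nt_tr.FA
import Pool.Agent.Work.MP_b928c0_nt_tr.WC
import Pool.Agent.Work.MP_b928c0_nt_tr.P1
import Pool.Agent.Work.MP_b928c0_nt_tr.IN
import Pool.Agent.Work.MP_b928c0_nt_tr.LW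
import Pool.Agent.Work.MP_b928c0_nt_tr.QU
import Pool.Agent.Work.MP_b928c0_nt_tr.CO
import Pool.Agent.Work.MP_b928c0_nt_tr.GP
import Pool.Agent.Work.MP_b928c0_nt_tr.DT
import Pool.Agent.Work.MP_b928c0_nt_tr.TH
import Pool.Agent.Work.MP_b928c0_nt_tr.BD
import Pool.Agent.Work.MP_b928c0_nt_tr.DC
import Pool.Agent.Work.MP_b928c0_nt_tr.CT
import Pool.Agent.Work.MP_b928c0_nt_tr.SC

/-!
# MP_b928c0_nt: assembly
-/

set_option autoImplicit false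

namespace Pool.Agent.Work.MP_b928c0_nt_tr

theorem all_F1 : Stmt_F1 :=
  stmt_F1 stmt_DV stmt_NB (stmt_BS stmt_FA stmt_WC stmt_P1 stmt_IN stmt_LW)
    (stmt_BH stmt_FA stmt_WC stmt_P1 stmt_IN stmt_LW) stmt_GL

theorem all_SC : Stmt_SC :=
  stmt_SC stmt_QU stmt_CO (stmt_DC (stmt_TH stmt_GP stmt_DT) stmt_BD stmt_FA) stmt_CT stmt_P1
    stmt_IN stmt_LW

end Pool.Agent.Work.MP_b928c0_nt_tr
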