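import Pool.Agent.Work.MP_b928c0_nt_tr.API

/-!
# MP_b928c0_nt, trade-off: the final theorem T3
-/

set_option autoImplicit false

namespace Pool.Agent.Work.MP_b928c0_nt_tr

open Finset Classical

namespace F3Aux

/-- scale of a number -/
theorem exists_scale (i0 x : ℕ) (h : 2 ^ 4 ^ i0 ≤ x) :
    ∃ i, i0 ≤ i ∧ 2 ^ 4 ^ i ≤ x ∧ x < 2 ^ 4 ^ (i + 1) := by
  have hx : x ≠ 0 := by
    have h0 : 0 < 2 ^ 4 ^ i0 := by positivity
    omega
  have h1 : 4 ^ i0 ≤ Nat.log 2 x := Nat.le_log_of_pow_le (by norm_num) h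
  have h2 : Nat.log 2 x ≠ 0 := by
    have : 0 < 4 ^ i0 := by positivity
    omega
  refine ⟨Nat.log 4 (Nat.log 2 x), Nat.le_log_of_pow_le (by norm_num) h1, ?_, ?_⟩
  · exact le_trans (Nat.pow_le_pow_right (by norm_num) (Nat.pow_log_le_self 4 h2))
      (Nat.pow_log_le_self 2 hx)
  · refine lt_of_lt_of_le (Nat.lt_pow_succ_log_self (by norm_num : 1 < 2) x) ?_
    exact Nat.pow_le_pow_right (by norm_num) (Nat.lt_pow_succ_log_self (by norm_num : 1 < 4) _)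

theorem log_ge (i : ℕ) (y : ℝ) (hy : (2 : ℝ) ^ 4 ^ i ≤ y) : (4 : ℝ) ^ i * Real.log 2 ≤ Real.log y := by
  have h1 := Real.log_le_log (by positivity) hy
  rw [Real.log_pow] at h1
  push_cast at h1
  exact h1

theorem four_le (i : ℕ) (y : ℝ) (hy : (2 : ℝ) ^ 4 ^ i ≤ y) : (4 : ℝ) ^ i ≤ 2 * Real.log y := by
  have h1 := log_ge i y hy
  have h2 := Real.log_two_gt_d9
  have h3 : (0 : ℝ) < 4 ^ i := by positivity
  nlinarith

theorem exp_le (i : ℕ) (hi : 1 ≤ i) : Real.exp (((i : ℝ) + 1) / 2) ≤ (4 : ℝ) ^ i * Real.log 2 := by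
  induction i, hi using Nat.le_induction with
  | base =>
    have h1 := Real.exp_one_lt_d9
    have h2 := Real.log_two_gt_d9
    norm_num
    linarith
  | succ n hn ih =>
    have h1 : (((n + 1 : ℕ) : ℝ) + 1) / 2 = ((n : ℝ) + 1) / 2 + 1 / 2 := by push_cast; ring
    rw [h1, Real.exp_add, pow_succ]
    have h2 : Real.exp (1 / 2) ≤ 4 := by
      have h3 : Real.exp (1 / 2) ≤ Real.exp 1 := Real.exp_le_exp.mpr (by norm_num)
      have h4 := Real.exp_one_lt_d9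
      linarith
    have h5 := Real.exp_pos (((n : ℝ) + 1) / 2)
    have h6 := Real.exp_pos (1 / 2 : ℝ)
    nlinarith

theorem loglog_ge (i : ℕ) (hi : 1 ≤ i) (y : ℝ) (hy : (2 : ℝ) ^ 4 ^ i ≤ y) :
    ((i : ℝ) + 1) / 2 ≤ Real.log (Real.log y) := by
  have h1 := log_ge i y hy
  have h2 := exp_le i hi
  rw [Real.le_log_iff_exp_le (lt_of_lt_of_le (Real.exp_pos _) (h2.trans h1))]
  exact h2.trans h1

theorem log_pos' (i : ℕ) (y : ℝ) (hy : (2 : ℝ) ^ 4 ^ i ≤ y) : 0 < Real.log y := by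
  have h1 := four_le i y hy
  have h3 : (0 : ℝ) < 4 ^ i := by positivity
  linarith

theorem rpow_le (i : ℕ) (y β : ℝ) (hβ : 0 ≤ β) (hβ1 : β ≤ 1) (hy : (2 : ℝ) ^ 4 ^ i ≤ y) :
    ((4 : ℝ) ^ i) ^ β ≤ 2 * Real.log y ^ β := by
  have h1 := four_le i y hy
  have h0 := log_pos' i y hy
  calc ((4 : ℝ) ^ i) ^ β ≤ (2 * Real.log y) ^ β := Real.rpow_le_rpow (by positivity) h1 hβ
    _ = 2 ^ β * Real.log y ^ β := Real.mul_rpow (by norm_num) h0.le
    _ ≤ 2 * Real.log y ^ β := by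
      refine mul_le_mul_of_nonneg_right ?_ (Real.rpow_nonneg h0.le _)
      calc (2 : ℝ) ^ β ≤ 2 ^ (1 : ℝ) := Real.rpow_le_rpow_of_exponent_le (by norm_num) hβ1
        _ = 2 := Real.rpow_one 2

end F3Aux

open F3Aux in
theorem stmt_F3 (h1 : Stmt_SC) (h2 : Stmt_N3) (h3 : Stmt_GL) : Stmt_F3 := by
  intro α hα hα'
  obtain ⟨C, i0, l, h, K0, hC, hi0, H⟩ := h2 α hα hα'
  have key : ∀ i, i0 ≤ i → l i * K0 i ≤ l (i + 1) * K0 (i + 1) ∧
      ScaleOK (4 ^ i) (l i * K0 i) (2 * h i) := by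
    intro i hi
    obtain ⟨⟨m, m', g, e1, e2, e3, e4, e5, e6, e7, e8, e9, e10⟩, hmon, -, -⟩ := H i hi
    exact ⟨hmon, h1 (l i) (4 ^ i) m m' (h i) g (K0 i) e1 (Nat.one_le_pow _ _ (by norm_num)) e2 e3 e4
      e5 e6 e7 e8 e9 e10⟩
  obtain ⟨a, hmono, ha0, hgap, hGP⟩ := h3 i0 (fun i => l i * K0 i) (fun i => 2 * h i) key
  have hge : ∀ n, 2 ^ 4 ^ i0 ≤ a n := fun n => ha0.trans (hmono.monotone (Nat.zero_le n))
  refine ⟨4 * C, a, hmono, fun i => ?_, fun n => ?_, fun k x r N hx hr hr1 hr2 hk hall => ?_⟩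
  · have e1 : 2 ^ 2 ≤ 2 ^ 4 ^ i0 := Nat.pow_le_pow_right (by norm_num) (by
      calc 2 ≤ 4 ^ 1 := by norm_num
        _ ≤ 4 ^ i0 := Nat.pow_le_pow_right (by norm_num) hi0)
    have e2 := hge i
    omega
  · obtain ⟨i, hi, e1, e2⟩ := exists_scale i0 (a n) (hge n)
    obtain ⟨-, -, hη, -⟩ := H i hi
    have e3 := hgap n i hi e1 e2
    have e4 : (a (n + 1) : ℝ) - a n ≤ 2 * h i := by
      have e5 : a (n + 1) ≤ a n + 2 * h i := by omega
      have e6 : (a (n + 1) : ℝ) ≤ a n + 2 * h i := by exact_mod_cast e5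
      linarith
    have hy : (2 : ℝ) ^ 4 ^ i ≤ a n := by exact_mod_cast e1
    have f1 := rpow_le i (a n) (1 - 2 * α) (by linarith) (by linarith) hy
    have f2 := loglog_ge i (by omega) (a n) hy
    have f0 : (0 : ℝ) ≤ i := Nat.cast_nonneg i
    have f3 : ((i : ℝ) + 1) ^ 2 ≤ 4 * Real.log (Real.log (a n)) ^ 2 := by nlinarith
    have f4 : 0 ≤ Real.log (a n : ℝ) ^ (1 - 2 * α) := Real.rpow_nonneg (log_pos' i _ hy).le _
    calc (a (n + 1) : ℝ) - a n ≤ 2 * h i := e4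
      _ ≤ C * (((4 : ℝ) ^ i) ^ (1 - 2 * α) + ((i : ℝ) + 1) ^ 2) := hη
      _ ≤ C * (4 * (Real.log (a n) ^ (1 - 2 * α) + Real.log (Real.log (a n)) ^ 2)) :=
        mul_le_mul_of_nonneg_left (by linarith) hC.le
      _ = _ := by ring
  · obtain ⟨i, hi, e1, e2⟩ := hGP k x r N ⟨hx, hr, hr1, hr2, hall⟩ hk
    obtain ⟨-, -, -, hκ⟩ := H i hi
    have f1 := rpow_le i N α hα.le (by linarith) e1
    have f2 := loglog_ge i (by omega) N e1
    have f4 : 0 ≤ Real.log N ^ α := Real.rpow_nonneg (log_pos' i _ e1).le _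
    have e3 : (k : ℝ) ≤ 6 * (l i * K0 i) + 12 := by exact_mod_cast e2
    have f0 : (0 : ℝ) ≤ i := Nat.cast_nonneg i
    calc (k : ℝ) ≤ 6 * (l i * K0 i) + 12 := e3
      _ ≤ C * ((4 : ℝ) ^ i) ^ α * (i + 1) := hκ
      _ = C * (((4 : ℝ) ^ i) ^ α * (i + 1)) := by ring
      _ ≤ C * ((2 * Real.log N ^ α) * (2 * Real.log (Real.log N))) := by
        refine mul_le_mul_of_nonneg_left ?_ hC.le
        exact mul_le_mul f1 (by linarith) (by linarith) (by positivity)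
      _ = _ := by ring

end Pool.Agent.Work.MP_b928c0_nt_tr
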