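import Pool.Agent.Work.MP_b928c0_nt_tr.API
import Pool.Agent.Work.MP_b928c0_nt_tr.F3

/-!
# MP_b928c0_nt: the final theorem T1 (bounded gaps)
-/

set_option autoImplicit false

namespace Pool.Agent.Work.MP_b928c0_nt_tr

open Finset Classical

namespace F1Aux

theorem loglog_le (i : ℕ) (hi : 1 ≤ i) (y : ℝ) (hy : (2 : ℝ) ^ 4 ^ i ≤ y) :
    Real.log (Real.log y) * 4 ^ i ≤ 2 * (i + 1) * Real.log y := by
  have h1 := F3Aux.log_ge i y hy
  have h2 := F3Aux.exp_le i hi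
  have h0 := F3Aux.log_pos' i y hy
  set y0 : ℝ := (4 : ℝ) ^ i * Real.log 2 with hy0
  have hl2 : 0 < Real.log 2 := Real.log_pos (by norm_num)
  have h4 : (0 : ℝ) < 4 ^ i := by positivity
  have hi' : (1 : ℝ) ≤ i := by exact_mod_cast hi
  have h3 : Real.exp 1 ≤ y0 := le_trans (Real.exp_le_exp.mpr (by linarith)) h2
  have h5 : Real.log (Real.log y) / Real.log y ≤ Real.log y0 / y0 :=
    Real.log_div_self_antitoneOn h3 (h3.trans h1) h1
  have h6 : Real.log y0 ≤ i * (2 * Real.log 2) := by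
    rw [hy0, Real.log_mul (by positivity) hl2.ne', Real.log_pow]
    have e1 : Real.log (Real.log 2) ≤ 0 := Real.log_nonpos hl2.le (by
      have := Real.log_two_lt_d9
      linarith)
    have e2 : Real.log 4 = 2 * Real.log 2 := by
      rw [show (4 : ℝ) = 2 ^ 2 by norm_num, Real.log_pow]
      norm_num
    rw [e2]
    linarith
  rw [div_le_iff₀ h0] at h5
  have hy0' : 0 < y0 := by positivity
  calc Real.log (Real.log y) * 4 ^ i ≤ Real.log y0 / y0 * Real.log y * 4 ^ i :=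
        mul_le_mul_of_nonneg_right h5 h4.le
    _ = Real.log y0 * (Real.log y * 4 ^ i / y0) := by ring
    _ ≤ (i * (2 * Real.log 2)) * (Real.log y * 4 ^ i / y0) :=
        mul_le_mul_of_nonneg_right h6 (by positivity)
    _ = 2 * i * Real.log y := by
        rw [hy0]
        field_simp
    _ ≤ 2 * (i + 1) * Real.log y := by nlinarith

end F1Aux

open F1Aux F3Aux in
theorem stmt_F1 (hDV : Stmt_DV) (hNB : Stmt_NB) (hBS : Stmt_BS) (hBH : Stmt_BH)
    (hGL : Stmt_GL) : Stmt_F1 := by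
  obtain ⟨c, hc, hdv⟩ := hDV
  obtain ⟨C, hC, hnb⟩ := hNB c hc
  refine ⟨2 * C, fun h hh => ?_⟩
  obtain ⟨i0, κ, hi0, H⟩ := hnb h hh
  have key : ∀ i, i0 ≤ i → κ i ≤ κ (i + 1) ∧ ScaleOK (4 ^ i) (κ i) h := by
    intro i hi
    obtain ⟨h1, h2, -, m, D, hm2, e1, e2, e3, e4, e5⟩ := H i hi
    refine ⟨h2, ?_⟩
    have hdiv : ∀ n, 0 < n → n < 2 ^ (4 * 4 ^ i) → (xr (κ i) n).divisors.card ≤ D := by
      intro n hn hn'
      have f1 := hdv m (xr (κ i) n) hm2 (xr_pos _ _) (xr_lt (κ i) n (4 * 4 ^ i) m hn.ne' hn' e1)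
      have f2 : ((xr (κ i) n).divisors.card : ℝ) < ((D + 1 : ℕ) : ℝ) := by
        push_cast
        exact f1.trans_lt e3
      exact Nat.lt_succ_iff.mp (by exact_mod_cast f2)
    have hL : 1 ≤ 4 ^ i := Nat.one_le_pow _ _ (by norm_num)
    rcases Nat.lt_or_ge 3 h with h3 | h3
    · refine ScaleOK.mono (hBH (4 ^ i) (κ i) m D (h / 2) h1 hL (by omega) e1 ?_ hdiv
        (e5 h3)) (by omega)
      exact (Nat.mul_le_mul_right _ (Nat.div_le_self h 2)).trans e2
    · refine ScaleOK.mono (hBS (4 ^ i) (κ i) m D h1 hL e1 ?_ hdiv (e4 h3)) hh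
      exact (Nat.mul_le_mul_right _ hh).trans e2
  obtain ⟨a, hmono, ha0, hgap, hGP⟩ := hGL i0 κ (fun _ => h) key
  have hge : ∀ n, 2 ^ 4 ^ i0 ≤ a n := fun n => ha0.trans (hmono.monotone (Nat.zero_le n))
  refine ⟨a, hmono, fun i => ?_, fun n => ?_, fun k x r N hx hr hr1 hr2 hk hall => ?_⟩
  · have e1 : 2 ^ 2 ≤ 2 ^ 4 ^ i0 := Nat.pow_le_pow_right (by norm_num) (by
      calc 2 ≤ 4 ^ 1 := by norm_num
        _ ≤ 4 ^ i0 := Nat.pow_le_pow_right (by norm_num) hi0)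
    have e2 := hge i
    omega
  · obtain ⟨i, hi, e1, e2⟩ := exists_scale i0 (a n) (hge n)
    exact hgap n i hi e1 e2
  · obtain ⟨i, hi, e1, e2⟩ := hGP k x r N ⟨hx, hr, hr1, hr2, hall⟩ hk
    obtain ⟨-, -, e3, -⟩ := H i hi
    have f1 := loglog_le i (by omega) N e1
    have f2 := loglog_ge i (by omega) N e1
    have hlog : 0 ≤ Real.log h := Real.log_nonneg (by exact_mod_cast (by omega : 1 ≤ h))
    have hk' : (k : ℝ) ≤ 6 * κ i + 12 := by exact_mod_cast e2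
    have h4 : (0 : ℝ) < 4 ^ i := by positivity
    have f0 : (0 : ℝ) ≤ i := Nat.cast_nonneg i
    have g0 : 0 ≤ Real.log (Real.log N) := by linarith
    have g1 := log_pos' i N e1
    have g2 : (k : ℝ) ^ 2 ≤ (6 * κ i + 12 : ℝ) ^ 2 := pow_le_pow_left₀ (Nat.cast_nonneg k) hk' 2
    refine le_of_mul_le_mul_right ?_ h4
    calc (k : ℝ) ^ 2 * Real.log h * Real.log (Real.log N) * 4 ^ i
        = ((k : ℝ) ^ 2 * Real.log h) * (Real.log (Real.log N) * 4 ^ i) := by ring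
      _ ≤ ((6 * κ i + 12 : ℝ) ^ 2 * Real.log h) * (2 * (i + 1) * Real.log N) := by
          refine mul_le_mul (mul_le_mul_of_nonneg_right g2 hlog) f1 (by positivity) (by positivity)
      _ = ((6 * κ i + 12 : ℝ) ^ 2 * Real.log h * (i + 1)) * (2 * Real.log N) := by ring
      _ ≤ (C * (4 : ℝ) ^ i) * (2 * Real.log N) :=
          mul_le_mul_of_nonneg_right e3 (by positivity)
      _ = 2 * C * Real.log N * 4 ^ i := by ring

end Pool.Agent.Work.MP_b928c0_nt_tr
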