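import Pool.Agent.Work.MP_db9399_all.Interface

/-!
# MP_b928c0_nt: gaps versus lengths of geometric progressions (interface)

Two theorems.

* **T3** (trade-off). For every real `0 < α ≤ 1/2` there is a strictly increasing sequence with
  gaps `≤ C ((log a)^(1-2α) + (log log a)^2)` such that every `k`-term geometric progression with all
  terms `≤ N` has `k ≤ C (log N)^α log log N`.
* **T1** (bounded gaps). There is `C` such that for every `h ≥ 2` there is a sequence with gaps `≤ h`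
  such that every `k`-term geometric progression with all terms `≤ N` has
  `k^2 log h log log N ≤ C log N`.

Every block is one `Prop` `Stmt_X`; its proof on paper is in the comment. Deliver a file
`Pool/Agent/Work/MP_b928c0_nt_tr/X.lean` with `theorem stmt_X (h1 : Stmt_DEP1) ... : Stmt_X`
(the dependencies of the table, in that order, as hypotheses), own lemmas in `namespace XAux`.
The file `API.lean` has proved basics.
-/

set_option autoImplicit false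

namespace Pool.Agent.Work.MP_b928c0_nt_tr

open Finset Classical
open Pool.Agent.Work.MP_db9399_all (pr DepOnI PackI Stmt_LLLI)

/-! ## Definitions -/

/-- root part: the largest `x` with `x ^ l ∣ n` -/
def xr (l n : ℕ) : ℕ := n.factorization.prod (fun p v => p ^ (v / l))

/-- type: the `l`-free part -/
def ar (l n : ℕ) : ℕ := n.factorization.prod (fun p v => p ^ (v % l))

/-- statistic -/
def st (l n : ℕ) : ℕ := n.factorization.sum (fun _ v => (v / l) ^ 2)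

/-- terms of a window -/
def bb (u p q K t : ℕ) : ℕ := u * p ^ t * q ^ (K - 1 - t)

/-- admissible window -/
def Win (K u p q : ℕ) : Prop := 0 < u ∧ 0 < q ∧ q < p ∧ Nat.Coprime p q ∧ (p * q) ^ K ∣ u

/-- the window lies in the scale -/
def InSc (L K u p q : ℕ) : Prop := ∀ t < K, 2 ^ L ≤ bb u p q K t ∧ bb u p q K t < 2 ^ (4 * L)

/-- A set in the scale `[2^L, 2^(4L))` which meets every `h` consecutive integers and contains no
window of `K` terms. -/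
def ScaleOK (L K h : ℕ) : Prop :=
  ∃ A : Set ℕ, (∀ n, 2 ^ L ≤ n → n + h ≤ 2 ^ (4 * L) → ∃ a ∈ A, n ≤ a ∧ a < n + h) ∧
    ∀ u p q, Win K u p q → InSc L K u p q → ¬ ∀ t < K, bb u p q K t ∈ A

/-- evaluation of a colouring; `true` means killed -/
noncomputable def ev {V : ℕ} (ψ : Fin (V + 1) → Bool) (n : ℕ) : Bool :=
  if h : n < V + 1 then ψ ⟨n, h⟩ else false

/-- every quadratic progression of length `K0` in `[0,V]` has a killed value -/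
def Good (V K0 : ℕ) (ψ : Fin (V + 1) → Bool) : Prop :=
  ∀ (w : ℕ → ℕ) (α β γ : ℤ), 1 ≤ γ →
    (∀ i < K0, w i ≤ V ∧ (w i : ℤ) = α + β * i + γ * (i : ℤ) ^ 2) → ∃ i < K0, ev ψ (w i) = true

/-- the block of `n` (length `h`) -/
def blk (h n : ℕ) : Finset ℕ := Finset.Ico (h * (n / h)) (h * (n / h) + h)

/-- a coincidence of types at difference `d`: `x.1 ≠ b_(t+d)` near `b_(t+d)` and `x.2 ≠ b_t` near
`b_t` of the same type -/
def Coin (l h u p q K d t : ℕ) (x : ℕ × ℕ) : Prop :=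
  t + d < K ∧ x.1 < bb u p q K (t + d) + h ∧ bb u p q K (t + d) < x.1 + h ∧
    x.2 < bb u p q K t + h ∧ bb u p q K t < x.2 + h ∧ x.1 ≠ bb u p q K (t + d) ∧
    x.2 ≠ bb u p q K t ∧ ar l x.1 = ar l x.2

/-- `x, x r, ..., x r^(k-1)` are terms of `a` and are at most `N` (`r` real, `≠ 0, ± 1`) -/
def GPin (a : ℕ → ℕ) (k : ℕ) (x r N : ℝ) : Prop :=
  x ≠ 0 ∧ r ≠ 0 ∧ r ≠ 1 ∧ r ≠ -1 ∧ ∀ j < k, x * r ^ j ≤ N ∧ ∃ i, (a i : ℝ) = x * r ^ j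

/-! ## Arithmetic blocks -/

/-- TY (proved in `API.lean`): types. -/
def Stmt_TY : Prop :=
  ∀ l n : ℕ, 0 < l → n ≠ 0 → ar l n * xr l n ^ l = n ∧ 0 < ar l n ∧ 0 < xr l n ∧
    st l n ≤ (Nat.log 2 n) ^ 2 ∧ ∀ y : ℕ, y ^ l ∣ n → y ∣ xr l n

/-- QU: along a residue class mod `l` the type is constant and the statistic is a quadratic
polynomial. Proof: `v_π (b_(ρ+li)) = v_π u + ρ v_π p + (lK0-1-ρ) v_π q + l i (v_π p - v_π q)`, so
`v % l` does not depend on `i` and `v / l = c_π + i (v_π p - v_π q)` (all over `ℤ`); sum the squares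
over the primes dividing `u p q`; `γ = ∑ (v_π p - v_π q)^2 ≥ 1` because `p ≠ q`. -/
def Stmt_QU : Prop :=
  ∀ l K0 u p q ρ : ℕ, 0 < l → 0 < u → 0 < q → q < p → ρ < l →
    (∀ i < K0, ar l (bb u p q (l * K0) (ρ + l * i)) = ar l (bb u p q (l * K0) ρ)) ∧
    ∃ α β γ : ℤ, 1 ≤ γ ∧
      ∀ i < K0, (st l (bb u p q (l * K0) (ρ + l * i)) : ℤ) = α + β * i + γ * (i : ℤ) ^ 2

/-- CO: at least two thirds of the colourings are good, and no value is killed by more than three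
quarters of the good ones. Proof: a quadratic progression is determined by `w 0, w 1, w 2`
(`K0 ≥ 4` by the hypothesis), so there are at most `(V+1)^3` of them; it takes every value at most
twice, hence has `≥ K0/2` distinct values, so at most `2^(V+1) / 2^(K0/2)` colourings kill none of its
values. Second part: at most `2^V` colourings kill `v`, and `4 * 2^V = 2 * 2^(V+1)`. -/
def Stmt_CO : Prop :=
  ∀ V K0 : ℕ, 3 * (V + 1) ^ 3 ≤ 2 ^ (K0 / 2) →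
    2 * 2 ^ (V + 1) ≤ 3 * (univ.filter (fun ψ : Fin (V + 1) → Bool => Good V K0 ψ)).card ∧
    ∀ v : ℕ, 4 * (univ.filter (fun ψ : Fin (V + 1) → Bool => Good V K0 ψ ∧ ev ψ v = true)).card ≤
      3 * (univ.filter (fun ψ : Fin (V + 1) → Bool => Good V K0 ψ)).card

/-- GP: gap principle; the ratio of the roots of a coincidence is the same for two coincidences with
`b1 / b1' = b2 / b2'`. Proof: with `ε = h / 2^L` all four quotients `a y1^l / b1`, ... lie in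
`[1-ε, 1+ε]`, so `(y1 z2)^l / (y2 z1)^l ∈ [((1-ε)/(1+ε))^2, ((1+ε)/(1-ε))^2]`. If
`y1 z2 > y2 z1` then (as `y2 z1 < 2^(2m)`) `(y1 z2 / (y2 z1))^l ≥ (1 + 2^(-2m))^2 > ((1+ε)/(1-ε))^2`
since `ε < 2^(-2m) / 64`; symmetric for `<`. -/
def Stmt_GP : Prop :=
  ∀ l L m h a c y1 z1 y2 z2 b1 b1' b2 b2' : ℕ, 2 ≤ l → 0 < h → 64 * h * 2 ^ (2 * m) < 2 ^ L →
    2 ^ L ≤ b1 → 2 ^ L ≤ b1' → 2 ^ L ≤ b2 → 2 ^ L ≤ b2' → b1 * b2' = b1' * b2 →
    0 < y1 → 0 < z1 → 0 < y2 → 0 < z2 → y1 < 2 ^ m → z1 < 2 ^ m → y2 < 2 ^ m → z2 < 2 ^ m →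
    a * y1 ^ l < b1 + h → b1 < a * y1 ^ l + h → a * z1 ^ l < b1' + h → b1' < a * z1 ^ l + h →
    c * y2 ^ l < b2 + h → b2 < c * y2 ^ l + h → c * z2 ^ l < b2' + h → b2' < c * z2 ^ l + h →
    y1 * z2 = y2 * z1

/-- DT: the determinant argument, pure integer arithmetic. `(e i', e i)` are the errors of three
coincidences at the same difference. `E b_i = Q (e_i' Y - e_i Z)`, where `b_1, b_2, b_3` are
`c q^(s+s')`, `c p^s q^s'`, `c p^(s+s')` and `E ≠ 0`. Proof: `c1 w1 + c2 w2 + c3 w3 = 0` for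
`w_i = (e_i', e_i)`, `c1 = det (w2, w3)` etc.; apply the linear form `L (w) = e' Y - e Z` and multiply
by `Q / E`, divide by `c`: `c1 q^(s+s') + c2 p^s q^s' + c3 p^(s+s') = 0`. So `p^s ∣ c1`
(coprimality). If `c1 ≠ 0`, `2^s ≤ p^s ≤ |c1| ≤ 2 h^2 < 2^g`. If `c1 = 0`, `w3` and `w2` are
parallel, and `q^s' w3 = p^s' w2` (compare `L`; `L (w2) ≠ 0`), so `p^s' ∣ e3`, `e3 ≠ 0`,
`2^s' ≤ p^s' ≤ |e3| < h < 2^g`. -/
def Stmt_DT : Prop :=
  ∀ (g h p q c s s' : ℕ) (E Q Y Z e1 e1' e2 e2' e3 e3' : ℤ), 2 * h ^ 2 < 2 ^ g → 0 < c → 0 < q →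
    q < p → Nat.Coprime p q → E ≠ 0 → Q ≠ 0 →
    |e1| < h → |e1'| < h → |e2| < h → |e2'| < h → |e3| < h → |e3'| < h →
    e2 ≠ 0 → e3 ≠ 0 →
    E * (c * q ^ (s + s') : ℕ) = Q * (e1' * Y - e1 * Z) →
    E * (c * p ^ s * q ^ s' : ℕ) = Q * (e2' * Y - e2 * Z) →
    E * (c * p ^ (s + s') : ℕ) = Q * (e3' * Y - e3 * Z) →
    s < g ∨ s' < g

/-- FA: consecutive terms of a window are far apart. Proof: `q^K ≤ u ≤ b_t < 2^(4L) ≤ 2^(Km)`, so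
`q < 2^m`; `q b_(t+1) = p b_t`, so `q (b_(t+1) - b_t) ≥ b_t ≥ 2^L ≥ h 2^m ≥ h q`. -/
def Stmt_FA : Prop :=
  ∀ L m h K u p q : ℕ, 1 ≤ K → 4 * L ≤ K * m → h * 2 ^ m ≤ 2 ^ L → Win K u p q → InSc L K u p q →
    ∀ t, t + 1 < K → bb u p q K t + h ≤ bb u p q K (t + 1)

/-- TH: for one difference `d` there are at most `2 g` coincidences `(t, (s, s'))`.
Proof. Let `s = a y^l`, `s' = a z^l` (`ar_mul_xr_pow`, roots `< 2^m`). By GP the ratio `y / z` does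
not depend on the coincidence (`b_(t1+d) b_(t2) = b_(t1) b_(t2+d)`); write `y / z = Y / Z` in lowest
terms; `Y > Z ≥ 1` as `s > s'` (terms are `2h` apart). With `e = s - b_(t+d) ≠ 0`,
`e' = s' - b_t ≠ 0`: `(b_(t+d) + e) Z^l = (b_t + e') Y^l`, so
`E b_t = q^d (e' Y^l - e Z^l)` with `E = p^d Z^l - q^d Y^l`.
(1) `E ≠ 0`: else `e' Y^l = e Z^l`, so `Y^l ∣ e`, `2^l ≤ |e| < h`, contradiction.
(2) for given `t` the pair `(s, s')` is unique: `(e1 - e2) Z^l = (e1' - e2') Y^l`, so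
`Y^l ∣ e1 - e2`, `|e1 - e2| < 2 h < 2^l`, so `e1 = e2`, `e1' = e2'`.
(3) for `t1 < t2 < t3` the statement DT gives `t2 - t1 < g` or `t3 - t2 < g`. So all `t` are in
`[tmin, tmin + g) ∪ (tmax - g, tmax]`. -/
def Stmt_TH : Prop :=
  ∀ l L m h g u p q K d : ℕ, 2 ≤ l → 0 < h → 64 * h * 2 ^ (2 * m) < 2 ^ L → 2 * h < 2 ^ l →
    2 * h ^ 2 < 2 ^ g → 4 * L + 1 ≤ l * m → Win K u p q → InSc L K u p q → 0 < d →
    (∀ t, t + 1 < K → bb u p q K t + 2 * h ≤ bb u p q K (t + 1)) →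
    ∀ S : Finset (ℕ × (ℕ × ℕ)), (∀ y ∈ S, Coin l h u p q K d y.1 y.2) → S.card ≤ 2 * g

/-- BD: two elements of one block have different types. Proof: `n = a y^l`, `n' = a z^l`, `z > y`:
`n' - n ≥ a (z^l - y^l) ≥ a y^(l-1) = n / y ≥ 2^(L-1) / 2^m ≥ h`. -/
def Stmt_BD : Prop :=
  ∀ l L m h : ℕ, 2 ≤ l → 0 < h → 64 * h * 2 ^ (2 * m) < 2 ^ L → 1 ≤ L → 4 * L + 1 ≤ l * m →
    ∀ n n' : ℕ, 2 ^ (L - 1) ≤ n → n < n' → n' < n + h → n' < 2 ^ (4 * L + 1) → ar l n ≠ ar l n'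

/-- DC: many distinct types in `l` blocks. Proof: remove from every block `blk h b_(ρ + l τ_ρ)` its own
element `b_(ρ + l τ_ρ)`; `l (h - 1)` elements remain (the blocks are disjoint by FA with `2h`). Two of
them of the same type lie in different blocks (BD), so with `d > 0` the difference of the two indices
they form a coincidence at difference `d`; there are at most `K = l K0` differences and by TH at most
`2 g` coincidences each. So at least `l (h - 1) - 2 g l K0 ≥ l h / 2` distinct types. (Number of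
distinct values `≥` number of elements `-` number of pairs with equal values.) -/
def Stmt_DC : Prop :=
  ∀ l L m h g K0 u p q : ℕ, 2 ≤ l → 0 < h → 64 * h * 2 ^ (2 * m) < 2 ^ L → 1 ≤ L →
    2 * h < 2 ^ l → 2 * h ^ 2 < 2 ^ g → 2 + 4 * K0 * g ≤ h → 1 ≤ K0 → 4 * L + 1 ≤ l * m →
    Win (l * K0) u p q → InSc L (l * K0) u p q →
    ∀ τ : ℕ → ℕ, (∀ ρ < l, τ ρ < K0) →
      l * h ≤ 2 * (((Finset.range l).biUnion
        (fun ρ => blk h (bb u p q (l * K0) (ρ + l * τ ρ)))).image (ar l)).card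

/-- CT: number of windows with a given type in one of their blocks. Proof: `n = a y^l` with
`y = xr l n < 2^m` (`n < 2^(4L) + h ≤ 2^(4L+1)`, `n > 2^L - h ≥ 0`), so at most `2^m` values of `n`;
then at most `h` values of `b_t` (the block of `n`), `K` values of `t`; `(p q)^K ≤ u ≤ b_t < 2^(4L)`,
so `p, q < 2^m'`; `u` is determined by `b_t, t, p, q`. -/
def Stmt_CT : Prop :=
  ∀ l L m m' h K a : ℕ, 2 ≤ l → 0 < h → 1 ≤ L → h ≤ 2 ^ (L - 1) → 4 * L + 1 ≤ l * m →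
    4 * L ≤ K * m' → 1 ≤ K →
    ∀ R : Finset (ℕ × ℕ × ℕ), (∀ r ∈ R, Win K r.1 r.2.1 r.2.2 ∧ InSc L K r.1 r.2.1 r.2.2 ∧
      ∃ t < K, ∃ n ∈ blk h (bb r.1 r.2.1 r.2.2 K t), ar l n = a) →
    R.card ≤ 2 ^ m * h * K * 2 ^ (2 * m')

/-- WC: number of windows with a given term `n`. Proof: `p^K ∣ u ∣ n`, so `p ∣ xr K n`, same for
`q`; `u` is determined by `n, t, p, q`. -/
def Stmt_WC : Prop :=
  ∀ K D n : ℕ, 1 ≤ K → 0 < n → (xr K n).divisors.card ≤ D →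
    ∀ R : Finset (ℕ × ℕ × ℕ), (∀ r ∈ R, Win K r.1 r.2.1 r.2.2 ∧
      ∃ t < K, bb r.1 r.2.1 r.2.2 K t = n) → R.card ≤ K * D ^ 2

/-- DV: divisor bound. Proof: `d (x) = ∏ (v_p + 1)` over primes `p ∣ x`. For `p ≥ √m`:
`v + 1 ≤ 2^v ≤ (p^v)^(log 2 / log √m)`, product `≤ x^(2 log 2 / log m) ≤ exp (2 m / log m)`. For
`p < √m`: `v + 1 ≤ m + 1`, product `≤ (m+1)^(√m + 1)`, and `(√m + 1) log (m+1) ≤ c m / log m`. -/
def Stmt_DV : Prop :=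
  ∃ c : ℝ, 0 < c ∧ ∀ m x : ℕ, 2 ≤ m → 0 < x → x < 2 ^ m →
    (x.divisors.card : ℝ) ≤ Real.exp (c * m / Real.log m)

/-! ## Probability blocks -/

/-- P1: one coordinate. -/
def Stmt_P1 : Prop :=
  ∀ (J : Type) [Fintype J] (M : ℕ) (y : J) (S : Finset (Fin M)), 0 < M →
    pr (fun f : J → Fin M => f y ∈ S) = (S.card : ℝ) / M

/-- IN: events depending on disjoint sets of coordinates. Proof: induction on `A` with
`Pool.Agent.Work.MP_db9399_all.LLLIAux.indep` (Pool/Agent/Work/MP_db9399_all_helper6/LLLI.lean). -/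
def Stmt_IN : Prop :=
  ∀ (J : Type) [Fintype J] (M : ℕ) (ι : Type) (A : Finset ι) (Q : ι → Finset J)
    (E : ι → (J → Fin M) → Prop) (θ : ℝ), 0 < M → 0 ≤ θ → (∀ a ∈ A, DepOnI (Q a) (E a)) →
    (∀ a ∈ A, ∀ b ∈ A, a ≠ b → Disjoint (Q a) (Q b)) → (∀ a ∈ A, pr (E a) ≤ θ) →
    pr (fun f : J → Fin M => ∀ a ∈ A, E a f) ≤ θ ^ A.card

/-- LW: local lemma for windows. Proof: LLLI with `R` the finite set of windows in the scale
(`u ≤ b_0 < 2^(4L)`, `p, q ≤ (p q)^K ≤ u`), as a subtype of `Fin N × Fin N × Fin N`. -/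
def Stmt_LW : Prop :=
  ∀ (L K : ℕ) (J : Type) [Fintype J] (M : ℕ) (T W : ℝ) (Sc : ℕ × ℕ × ℕ → Finset J)
    (P : ℕ × ℕ × ℕ → (J → Fin M) → Prop), 1 ≤ K → 0 < M → 0 ≤ T → T ≤ 1 / 4 →
    (∀ r, Win K r.1 r.2.1 r.2.2 → InSc L K r.1 r.2.1 r.2.2 → PackI T (Sc r) W (P r)) →
    (∀ y, ∀ R : Finset (ℕ × ℕ × ℕ), (∀ r ∈ R, Win K r.1 r.2.1 r.2.2 ∧
      InSc L K r.1 r.2.1 r.2.2 ∧ y ∈ Sc r) → (R.card : ℝ) * W ≤ T) →
    ∃ f : J → Fin M, ∀ r, Win K r.1 r.2.1 r.2.2 → InSc L K r.1 r.2.1 r.2.2 → P r f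

/-- SC: the scale theorem for T3.
Proof. `V = (4L+1)^2`, `M` = number of good colourings, `ψ : Fin M ≃ good colourings`,
`J = Fin (2^(4L+1))` (types), `killed f n : ev (ψ (f (ar l n))) (st l n) = true`,
`A_f = {n | ¬ killed f n ∨ ∀ n' ∈ blk h n, killed f n'}`. Every `2h` consecutive integers
contain a full block, and every full block has an element of `A_f`. Window `r = (u,p,q)`, `K = l K0`:
`Sc r` = types of all elements of the blocks of its terms, `P r f : ¬ ∀ t < K, b_t ∈ A_f`. Package: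
`κ = Fin l → Fin K0`, `Q τ` = types of the elements of the blocks of `b_(ρ + l τ_ρ)`, `ρ < l`,
`E τ f` = all elements of these blocks are killed; `|Q τ| ≤ l h`;
`pr (E τ) ≤ (3/4)^|Q τ|` (IN, one representative for every type, P1, CO) and `2 |Q τ| ≥ l h` (DC). If
all `b_t ∈ A_f`, then by QU, TY and goodness every residue class `ρ` has a killed
`b_(ρ + l i)`, whose block is then fully killed, so `E τ f` for some `τ`. `T = 1 / (4 K h)`,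
`exp (2 T l h) ≤ exp (1/2) ≤ 2`, `W = 2 K0^l (3/4)^(l h / 2)`; CT and the last hypothesis give
`R.card * W ≤ T`. -/
def Stmt_SC : Prop :=
  ∀ l L m m' h g K0 : ℕ, 2 ≤ l → 1 ≤ L → 1 ≤ K0 → 64 * h * 2 ^ (2 * m) < 2 ^ L →
    2 * h < 2 ^ l → 2 * h ^ 2 < 2 ^ g → 2 + 4 * K0 * g ≤ h → 4 * L + 1 ≤ l * m →
    4 * L ≤ l * K0 * m' → 3 * ((4 * L + 1) ^ 2 + 1) ^ 3 ≤ 2 ^ (K0 / 2) →
    16 * (l * K0) ^ 2 * h ^ 2 * K0 ^ l * 2 ^ (m + 2 * m') * 3 ^ (l * h / 2) ≤ 4 ^ (l * h / 2) →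
    ScaleOK L (l * K0) (2 * h)

/-- BS: the scale theorem for T1, gap 2. Proof: `J = Fin (2^(4L) + 1)`, `M = 2`,
`A_f = {n | ¬ (f n = 1 ∧ f (n+1) = 0)}` (two consecutive integers are never both outside). `Sc r` =
all `b_t, b_t + 1`, one event `E f : ∀ t < K, b_t ∈ A_f`, `pr E ≤ (3/4)^K` (IN, the pairs
`{b_t, b_t + 1}` are disjoint by FA), `T = 1 / (8K)`, `exp (2 T 2K) ≤ 2`, `W = 2 (3/4)^K`; at most
`2 K D^2` windows have `y ∈ Sc r` (WC). -/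
def Stmt_BS : Prop :=
  ∀ L K m D : ℕ, 1 ≤ K → 1 ≤ L → 4 * L ≤ K * m → 2 * 2 ^ m ≤ 2 ^ L →
    (∀ n, 0 < n → n < 2 ^ (4 * L) → (xr K n).divisors.card ≤ D) →
    64 * K ^ 2 * D ^ 2 * 3 ^ K ≤ 4 ^ K → ScaleOK L K 2

/-- BH: the scale theorem for T1, large gap. Proof: one uniformly random element of every block of
length `H`: `J = Fin (2^(4L) / H + 1)`, `M = H`, `A_f = {n | f (n / H) = n % H}`. The terms of a
window are in different blocks (FA), `pr E ≤ (1/H)^K` (IN), `T = 1 / (4K)`, `W = 2 / H^K`; at most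
`H K D^2` windows touch a given block (WC). -/
def Stmt_BH : Prop :=
  ∀ L K m D H : ℕ, 1 ≤ K → 1 ≤ L → 2 ≤ H → 4 * L ≤ K * m → H * 2 ^ m ≤ 2 ^ L →
    (∀ n, 0 < n → n < 2 ^ (4 * L) → (xr K n).divisors.card ≤ D) →
    16 * K ^ 2 * H * D ^ 2 ≤ H ^ K → ScaleOK L K (2 * H)

/-! ## Gluing and numerics -/

/-- GL: gluing of the scales `[2^(4^i), 2^(4^(i+1)))`, `i ≥ i0`.
Proof: `a` enumerates the union of the sets `A_i` restricted to their scales and of the border points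
`2^(4^i)`, `i ≥ i0`. Gaps: if `a_n + 1 + η_i ≤ 2^(4^(i+1))` the set `A_i` has an element in
`[a_n + 1, a_n + 1 + η_i)`, otherwise the next border point is at distance `≤ η_i`.
Progressions: for `k ≤ 12` take `i = i0` (`N ≥ x ≥ a_0 ≥ 2^(4^i0)`). Let `k ≥ 13`; the terms are
positive integers, `r > 0` rational; reversing the order we may take `r = p / q > 1` in lowest
terms, the terms are `c_j = v p^j q^(k-1-j)`, `j < k`, `v ≥ 1` integer. Let `M0 = k / 3` and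
consider `j ∈ [M0, 2 M0)`. `c_(2 M0 - 1) ≤ c_(M0)^2`, so these terms lie in two consecutive scales
`i, i + 1` (`i` the scale of `c_(M0)`). In one scale `s` at most `κ s` of them: otherwise leave out the
first one (it may be the border point), `κ s` consecutive ones `c_(j0 + t)`, `t < κ s`, all in `A_s`,
form the window with `u = v p^(j0) q^(k - j0 - κ s)`, and `(p q)^(κ s) ∣ u` as
`j0 ≥ M0 ≥ κ s` and `k - j0 - κ s ≥ k - 2 M0 ≥ M0 ≥ κ s`. So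
`M0 ≤ κ_s + κ_(s')`, with the larger scale `i` met: `k ≤ 3 M0 + 2 ≤ 6 κ_i + 2`, `N ≥ 2^(4^i)`. -/
def Stmt_GL : Prop :=
  ∀ (i0 : ℕ) (κ η : ℕ → ℕ), (∀ i, i0 ≤ i → κ i ≤ κ (i + 1) ∧ ScaleOK (4 ^ i) (κ i) (η i)) →
    ∃ a : ℕ → ℕ, StrictMono a ∧ 2 ^ 4 ^ i0 ≤ a 0 ∧
      (∀ n i, i0 ≤ i → 2 ^ 4 ^ i ≤ a n → a n < 2 ^ 4 ^ (i + 1) → a (n + 1) - a n ≤ η i) ∧
      ∀ (k : ℕ) (x r N : ℝ), GPin a k x r N → 1 ≤ k → ∃ i, i0 ≤ i ∧ (2 : ℝ) ^ 4 ^ i ≤ N ∧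
        k ≤ 6 * κ i + 12

/-- N3: the parameters of T3. Proof: `L = 4^i`, `l = ⌈L^α⌉`, `K0 = 24 i + 32`,
`h = ⌈C1 (L^(1-2α) + (i+1)^2)⌉` with `C1 = 2^20` (say), `g = 2 * Nat.log 2 h + 4`,
`m = (4L+1)/l + 1`, `m' = 4L/(l K0) + 1`, `i ≥ i0 (α)`.
Fifth inequality: `h ≥ 2^20 (i+1)^2` and `h ≥ 2^s`, `s = Nat.log 2 h`, so
`h ≥ 2^10 (i+1) 2^(s/2) ≥ 2 + 4 K0 (2s+4)`. `3 (26 L^2)^3 ≤ 2^16 L^6 = 2^(12i+16)`. The last one: take
`log2`; `4 + 2 log K + 2 log h + l log K0 + m + 2m' ≤ (2/5) (l h / 2)` because `(4/3)^5 ≥ 4`,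
`log2 K0 ≤ i + 5`, `m + 2m' ≤ 13 L / l + 3` and `L / l^2 ≤ L^(1-2α) ≤ h / 2^20`. -/
def Stmt_N3 : Prop :=
  ∀ α : ℝ, 0 < α → α ≤ 1 / 2 → ∃ (C : ℝ) (i0 : ℕ) (l h K0 : ℕ → ℕ), 0 < C ∧ 1 ≤ i0 ∧
    ∀ i, i0 ≤ i → (∃ m m' g : ℕ, 2 ≤ l i ∧ 1 ≤ K0 i ∧ 64 * h i * 2 ^ (2 * m) < 2 ^ 4 ^ i ∧
      2 * h i < 2 ^ l i ∧ 2 * h i ^ 2 < 2 ^ g ∧ 2 + 4 * K0 i * g ≤ h i ∧
      4 * 4 ^ i + 1 ≤ l i * m ∧ 4 * 4 ^ i ≤ l i * K0 i * m' ∧
      3 * ((4 * 4 ^ i + 1) ^ 2 + 1) ^ 3 ≤ 2 ^ (K0 i / 2) ∧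
      16 * (l i * K0 i) ^ 2 * h i ^ 2 * K0 i ^ l i * 2 ^ (m + 2 * m') * 3 ^ (l i * h i / 2) ≤
        4 ^ (l i * h i / 2)) ∧
      l i * K0 i ≤ l (i + 1) * K0 (i + 1) ∧
      (2 * h i : ℝ) ≤ C * (((4 : ℝ) ^ i) ^ (1 - 2 * α) + ((i : ℝ) + 1) ^ 2) ∧
      (6 * (l i * K0 i) + 12 : ℝ) ≤ C * ((4 : ℝ) ^ i) ^ α * (i + 1)

/-- NB: the parameters of T1. Proof: `L = 4^i`, `κ i = ⌈C1 √(L / (log h (i+1)))⌉`,
`m = ⌈4L / κ i⌉ = (4L - 1) / κ i + 1 ≤ 5L / κ i`, `D = ⌊exp (c m / log m)⌋`, `i ≥ i0 (h)`. As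
`κ i ≤ C' √L`, `m ≥ √L / C'`, so `log m ≥ (i+1) / 4` (large `i`), `log D ≤ 20 c L / (κ i (i+1))`, which is
`≤ (1/100) κ i log h` if `C1^2 ≥ 2000 c`. Every other term is `≤ (1/100) κ i log h` too for large `i`.
Use `log (h / 2) ≥ (1/3) log h` for `h ≥ 4` and `log (4/3) ≥ (1/4) log h` for `h ≤ 3`. -/
def Stmt_NB : Prop :=
  ∀ c : ℝ, 0 < c → ∃ C : ℝ, 0 < C ∧ ∀ h : ℕ, 2 ≤ h → ∃ (i0 : ℕ) (κ : ℕ → ℕ), 1 ≤ i0 ∧
    ∀ i, i0 ≤ i → 1 ≤ κ i ∧ κ i ≤ κ (i + 1) ∧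
      (6 * κ i + 12 : ℝ) ^ 2 * Real.log h * (i + 1) ≤ C * (4 : ℝ) ^ i ∧
      ∃ m D : ℕ, 2 ≤ m ∧ 4 * 4 ^ i ≤ κ i * m ∧ h * 2 ^ m ≤ 2 ^ 4 ^ i ∧
        Real.exp (c * m / Real.log m) < D + 1 ∧
        (h ≤ 3 → 64 * κ i ^ 2 * D ^ 2 * 3 ^ κ i ≤ 4 ^ κ i) ∧
        (4 ≤ h → 16 * κ i ^ 2 * (h / 2) * D ^ 2 ≤ (h / 2) ^ κ i)

/-! ## The theorems -/

/-- F3: the trade-off theorem. Proof: SC + N3 + GL with `κ i = l i * K0 i`, `η i = 2 * h i`. For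
`2^(4^i) ≤ a < 2^(4^(i+1))`, `i ≥ 1`: `4^i ≤ log a / log 2`, `(i+1)/2 ≤ log log a` (as
`i log 4 + log log 2 ≥ (i+1)/2`). -/
def Stmt_F3 : Prop :=
  ∀ α : ℝ, 0 < α → α ≤ 1 / 2 → ∃ (C : ℝ) (a : ℕ → ℕ), StrictMono a ∧ (∀ i, 3 ≤ a i) ∧
    (∀ i, (a (i + 1) : ℝ) - a i ≤
      C * (Real.log (a i) ^ (1 - 2 * α) + Real.log (Real.log (a i)) ^ 2)) ∧
    ∀ (k : ℕ) (x r N : ℝ), x ≠ 0 → r ≠ 0 → r ≠ 1 → r ≠ -1 → 1 ≤ k →
      (∀ j < k, x * r ^ j ≤ N ∧ ∃ i, (a i : ℝ) = x * r ^ j) →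
      (k : ℝ) ≤ C * Real.log N ^ α * Real.log (Real.log N)

/-- F1: bounded gaps. Proof: DV + NB + BS (for `h ≤ 3`) or BH with `H = h / 2` (for `h ≥ 4`) + GL with
`η i = h` (`ScaleOK` is monotone in the gap). `xr K n < 2^m` for `n < 2^(4L)` as
`4L ≤ K m`. `y / log y` is increasing for `y ≥ 3`, `(i+1)/2 ≤ log log N` and
`log N / log log N ≥ c 4^i / (i+1)`. -/
def Stmt_F1 : Prop :=
  ∃ C : ℝ, ∀ h : ℕ, 2 ≤ h → ∃ a : ℕ → ℕ, StrictMono a ∧ (∀ i, 3 ≤ a i) ∧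
    (∀ i, a (i + 1) - a i ≤ h) ∧
    ∀ (k : ℕ) (x r N : ℝ), x ≠ 0 → r ≠ 0 → r ≠ 1 → r ≠ -1 → 1 ≤ k →
      (∀ j < k, x * r ^ j ≤ N ∧ ∃ i, (a i : ℝ) = x * r ^ j) →
      (k : ℝ) ^ 2 * Real.log h * Real.log (Real.log N) ≤ C * Real.log N

end Pool.Agent.Work.MP_b928c0_nt_tr
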