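import Pool.Agent.Work.MP_b928c0_nt_tr.API
import Pool.Agent.Work.MP_db9399_all_helper6.LLLI

/-!
# MP_b928c0_nt, trade-off: block LW
-/

set_option autoImplicit false

namespace Pool.Agent.Work.MP_b928c0_nt_tr

open Finset Classical
open Pool.Agent.Work.MP_db9399_all (pr DepOnI PackI Stmt_LLLI)

namespace LWAux

theorem bound (L K u p q : ℕ) (hK : 1 ≤ K) (hW : Win K u p q) (hS : InSc L K u p q) :
    u < 2 ^ (4 * L) ∧ p < 2 ^ (4 * L) ∧ q < 2 ^ (4 * L) := by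
  obtain ⟨hu, hq, hqp, -, hd⟩ := hW
  have hp : 0 < p := by omega
  have h1 := le_bb u p q K 0 hp hq
  have h2 := (hS 0 (by omega)).2
  have h3 : (p * q) ^ K ≤ u := Nat.le_of_dvd hu hd
  have h4 : p * q ≤ (p * q) ^ K := Nat.le_self_pow (by omega) _
  have h5 : p ≤ p * q := Nat.le_mul_of_pos_right _ hq
  omega

end LWAux

open LWAux in
theorem stmt_LW : Stmt_LW := by
  intro L K J _ M T W Sc P hK hM hT0 hT1 hP hW
  have key : Stmt_LLLI.{0} := Pool.Agent.Work.MP_db9399_all.stmt_LLLI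
  set N := 2 ^ (4 * L) with hN
  let R := {r : Fin N × Fin N × Fin N // Win K r.1 r.2.1 r.2.2 ∧ InSc L K r.1 r.2.1 r.2.2}
  let e : R → ℕ × ℕ × ℕ := fun r => ((r.1.1 : ℕ), (r.1.2.1 : ℕ), (r.1.2.2 : ℕ))
  have he : Function.Injective e := by
    intro r r' h
    simp only [e, Prod.mk.injEq] at h
    apply Subtype.ext
    refine Prod.ext (Fin.ext h.1) (Prod.ext (Fin.ext h.2.1) (Fin.ext h.2.2))
  obtain ⟨f, hf⟩ := key J M R T (fun r => Sc (e r)) (fun _ => W) (fun r => P (e r)) hM hT0 hT1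
    (fun r => hP (e r) r.2.1 r.2.2) (by
      intro y
      rw [Finset.sum_const, nsmul_eq_mul]
      have h1 := hW y ((univ.filter (fun r : R => y ∈ Sc (e r))).image e) (by
        intro r hr
        rw [Finset.mem_image] at hr
        obtain ⟨r', hr', rfl⟩ := hr
        rw [Finset.mem_filter] at hr'
        exact ⟨r'.2.1, r'.2.2, hr'.2⟩)
      rwa [Finset.card_image_of_injective _ he] at h1)
  refine ⟨f, fun r h1 h2 => ?_⟩
  obtain ⟨b1, b2, b3⟩ := bound L K r.1 r.2.1 r.2.2 hK h1 h2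
  exact hf ⟨(⟨r.1, b1⟩, ⟨r.2.1, b2⟩, ⟨r.2.2, b3⟩), h1, h2⟩

end Pool.Agent.Work.MP_b928c0_nt_tr
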