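import Pool.Agent.Work.MP_b928c0_nt_tr.NB
import Pool.Agent.Work.MP_b928c0_nt_tr.F1

/-!
# MP_b928c0_nt, general trade-off: uniform parameters
-/

set_option autoImplicit false

namespace Pool.Agent.Work.MP_b928c0_nt_tr

open Finset Classical

namespace UAux

open NBAux

/-- parameters for BS / BH, uniform in the gap `h ≤ 4 ^ i / 2` -/
theorem paramA (c : ℝ) (hc : 0 < c) : ∃ C : ℝ, 0 < C ∧ ∃ i1 : ℕ, 1 ≤ i1 ∧ ∀ i, i1 ≤ i →
    ∀ h : ℕ, 2 ≤ h → 2 * h ≤ 4 ^ i → ∃ κ m D : ℕ, 1 ≤ κ ∧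
      (6 * κ + 12 : ℝ) ^ 2 * (Real.log h * (i + 1)) ≤ C * (4 : ℝ) ^ i ∧
      2 ≤ m ∧ 4 * 4 ^ i ≤ κ * m ∧ h * 2 ^ m ≤ 2 ^ 4 ^ i ∧
        Real.exp (c * m / Real.log m) < D + 1 ∧
        (h ≤ 3 → 64 * κ ^ 2 * D ^ 2 * 3 ^ κ ≤ 4 ^ κ) ∧
        (4 ≤ h → 16 * κ ^ 2 * (h / 2) * D ^ 2 ≤ (h / 2) ^ κ) := by
  have hlog2 : (0.69 : ℝ) < Real.log 2 := by
    have := Real.log_two_gt_d9
    linarith
  have hlog2' : Real.log 2 < 0.7 := by
    have := Real.log_two_lt_d9
    linarith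
  obtain ⟨a, ha0, hasq⟩ : ∃ a : ℝ, 0 < a ∧ a ^ 2 * Real.log 2 = 2000 * c := by
    refine ⟨Real.sqrt (2000 * c / Real.log 2), Real.sqrt_pos.2 (by positivity), ?_⟩
    rw [Real.sq_sqrt (by positivity)]
    field_simp
  -- the lower bound tends to infinity
  have htend : Filter.Tendsto (fun i : ℕ => Real.sqrt (1000 * c) * (2 ^ i / ((i : ℝ) + 1)))
      Filter.atTop Filter.atTop := by
    apply Filter.Tendsto.const_mul_atTop (Real.sqrt_pos.2 (by positivity))
    have h1 := tendsto_pow_const_div_const_pow_of_one_lt 1 (show (1 : ℝ) < 2 by norm_num)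
    refine Filter.tendsto_atTop.2 fun B => ?_
    have h2 := (tendsto_order.mp h1).2 (1 / (2 * (|B| + 1))) (by positivity)
    filter_upwards [h2, Filter.eventually_ge_atTop 1] with i hi hi1
    have e1 : (0 : ℝ) < 2 ^ i := by positivity
    have e2 : (1 : ℝ) ≤ i := by exact_mod_cast hi1
    rw [pow_one, div_lt_div_iff₀ e1 (by positivity)] at hi
    rw [le_div_iff₀ (by positivity)]
    have e3 := le_abs_self B
    have e4 := abs_nonneg B
    nlinarith
  have hpow2 : Filter.Tendsto (fun i : ℕ => (2 : ℝ) ^ i) Filter.atTop Filter.atTop :=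
    tendsto_pow_atTop_atTop_of_one_lt (by norm_num)
  obtain ⟨X, hX⟩ : ∃ X : ℝ, ∀ x, X ≤ x → Real.log 64 + 2 * Real.log x ≤ x * Real.log 2 / 100 := by
    have h1 : ∀ᶠ x : ℝ in Filter.atTop, Real.log x ≤ (1 / 600) * x := by
      have := Real.isLittleO_log_id_atTop.bound (show (0 : ℝ) < 1 / 600 by positivity)
      filter_upwards [this, Filter.eventually_ge_atTop (1 : ℝ)] with x hx hx1
      simp only [id, Real.norm_eq_abs] at hx
      rw [abs_of_nonneg (Real.log_nonneg hx1), abs_of_nonneg (by linarith)] at hx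
      exact hx
    obtain ⟨X, hX⟩ := Filter.eventually_atTop.1 h1
    refine ⟨max X (1000 * Real.log 64), fun x hx => ?_⟩
    have e1 := hX x (le_trans (le_max_left _ _) hx)
    have e2 := le_trans (le_max_right _ _) hx
    have e3 : (0 : ℝ) < Real.log 64 := Real.log_pos (by norm_num)
    nlinarith
  have hev : ∀ᶠ i : ℕ in Filter.atTop,
      max 100 X ≤ Real.sqrt (1000 * c) * (2 ^ i / ((i : ℝ) + 1)) ∧ 2 * a ≤ (2 : ℝ) ^ i ∧
      (1 / 4 - Real.log (2 / a)) / (Real.log 2 - 1 / 4) ≤ (i : ℝ) := by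
    filter_upwards [htend.eventually_ge_atTop (max 100 X), hpow2.eventually_ge_atTop (2 * a),
      tendsto_natCast_atTop_atTop.eventually_ge_atTop
        ((1 / 4 - Real.log (2 / a)) / (Real.log 2 - 1 / 4))] with i h1 h2 h3
    exact ⟨h1, h2, h3⟩
  obtain ⟨i1, hi1⟩ := Filter.eventually_atTop.1 hev
  refine ⟨1296 * 2000 * c, by positivity, max 1 i1, le_max_left _ _, ?_⟩
  intro i hi h hh h2h
  obtain ⟨hkX, h2a, hlin⟩ := hi1 i (le_trans (le_max_right _ _) hi)
  have hhR : (2 : ℝ) ≤ h := by exact_mod_cast hh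
  have hl2h : Real.log 2 ≤ Real.log h := Real.log_le_log (by norm_num) hhR
  have hlh : 0 < Real.log h := by linarith
  have hi0 : (0 : ℝ) ≤ i := Nat.cast_nonneg i
  have h4pos : (0 : ℝ) < 4 ^ i := by positivity
  have h44 : ((2 : ℝ) ^ i) * 2 ^ i = 4 ^ i := by
    rw [← mul_pow]; norm_num
  set k : ℝ := Real.sqrt (2000 * c * 4 ^ i / (Real.log h * (i + 1))) with hk
  have hkpos : 0 < k := Real.sqrt_pos.2 (by positivity)
  have hksq : k ^ 2 * Real.log h * (i + 1) = 2000 * c * 4 ^ i := by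
    rw [hk, Real.sq_sqrt (by positivity)]
    field_simp
  have hlhu : Real.log h ≤ 2 * ((i : ℝ) + 1) := by
    have e1 : (h : ℝ) ≤ 4 ^ i := by
      have : h ≤ 4 ^ i := by omega
      exact_mod_cast this
    have e2 := Real.log_le_log (by linarith) e1
    rw [Real.log_pow, show (4 : ℝ) = 2 ^ 2 by norm_num, Real.log_pow] at e2
    push_cast at e2
    nlinarith
  have hklow : Real.sqrt (1000 * c) * (2 ^ i / ((i : ℝ) + 1)) ≤ k := by
    rw [hk]
    refine Real.le_sqrt_of_sq_le ?_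
    rw [mul_pow, Real.sq_sqrt (by positivity), div_pow, ← pow_mul, mul_comm i 2, pow_mul,
      show (2 : ℝ) ^ 2 = 4 by norm_num, mul_div_assoc', div_le_div_iff₀ (by positivity) (by positivity)]
    have e1 : Real.log h * ((i : ℝ) + 1) ≤ 2 * ((i : ℝ) + 1) ^ 2 := by nlinarith
    have e2 : 0 ≤ 1000 * c * (4 : ℝ) ^ i := by positivity
    nlinarith [mul_le_mul_of_nonneg_left e1 e2]
  have hkup : k ≤ a * 2 ^ i := by
    rw [hk]
    refine Real.sqrt_le_iff.2 ⟨by positivity, ?_⟩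
    rw [div_le_iff₀ (by positivity), mul_pow, ← pow_mul, mul_comm i 2, pow_mul,
      show (2 : ℝ) ^ 2 = 4 by norm_num, ← hasq]
    have e1 : Real.log 2 ≤ Real.log h * (i + 1) := by nlinarith
    have e2 : 0 ≤ a ^ 2 * (4 : ℝ) ^ i := by positivity
    nlinarith [mul_le_mul_of_nonneg_left e1 e2]
  have hk100 : 100 ≤ k := le_trans (le_trans (le_max_left _ _) hkX) hklow
  have hkX' : X ≤ k := le_trans (le_trans (le_max_right _ _) hkX) hklow
  have hKge : k ≤ (⌈k⌉₊ : ℝ) := Nat.le_ceil _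
  have hKle : (⌈k⌉₊ : ℝ) ≤ 2 * k := by
    have := Nat.ceil_lt_add_one hkpos.le
    linarith
  set K := ⌈k⌉₊ with hKdef
  have hKR : (100 : ℝ) ≤ K := le_trans hk100 hKge
  have hK100 : 100 ≤ K := by exact_mod_cast hKR
  have hp1 : (1 : ℝ) ≤ 2 ^ i := one_le_pow₀ (by norm_num)
  obtain ⟨m, D, hmD⟩ := point c hc h hh i K (4 ^ i) (by omega) (by
      have h1 : (K : ℝ) ≤ 4 ^ i := by
        calc (K : ℝ) ≤ 2 * k := hKle
          _ ≤ 2 * (a * 2 ^ i) := by linarith
          _ = 2 * a * 2 ^ i := by ring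
          _ ≤ 2 ^ i * 2 ^ i := by gcongr
          _ = 4 ^ i := h44
      exact_mod_cast h1) h2h (by
      have e1 := hX K (le_trans hkX' hKge)
      nlinarith) (by
      intro m hm
      have h1 : (4 : ℝ) * 4 ^ i ≤ K * m := by exact_mod_cast hm
      have h2 : (K : ℝ) ≤ 2 * (a * 2 ^ i) := by linarith
      have hm0 : (0 : ℝ) ≤ m := Nat.cast_nonneg m
      have h3 : (4 : ℝ) * 4 ^ i ≤ 2 * (a * 2 ^ i) * m :=
        le_trans h1 (mul_le_mul_of_nonneg_right h2 hm0)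
      have h4 : (2 : ℝ) ^ i * (2 * 2 ^ i) ≤ 2 ^ i * (a * m) := by
        rw [← h44] at h3
        nlinarith
      have h5 : 2 * (2 : ℝ) ^ i ≤ a * m := le_of_mul_le_mul_left h4 (by positivity)
      have h6 : 2 / a * (2 : ℝ) ^ i ≤ m := by
        rw [div_mul_eq_mul_div, div_le_iff₀ ha0]
        linarith
      have h7 : Real.log (2 / a * (2 : ℝ) ^ i) ≤ Real.log m :=
        Real.log_le_log (by positivity) h6
      rw [Real.log_mul (by positivity) (by positivity), Real.log_pow] at h7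
      rw [div_le_iff₀ (by linarith)] at hlin
      nlinarith) (by
      have h1 : k ^ 2 ≤ (K : ℝ) ^ 2 := pow_le_pow_left₀ hkpos.le hKge 2
      push_cast
      rw [← hksq]
      gcongr)
  refine ⟨K, m, D, by omega, ?_, hmD⟩
  have h1 : (6 * (K : ℝ) + 12) ≤ 36 * k := by linarith
  have h2 : (6 * (K : ℝ) + 12) ^ 2 ≤ (36 * k) ^ 2 := by
    apply pow_le_pow_left₀ (by positivity) h1
  calc (6 * (K : ℝ) + 12) ^ 2 * (Real.log h * (i + 1))
      ≤ (36 * k) ^ 2 * (Real.log h * (i + 1)) := by gcongr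
    _ = 1296 * (k ^ 2 * Real.log h * (i + 1)) := by ring
    _ = 1296 * 2000 * c * 4 ^ i := by rw [hksq]; ring

end UAux

end Pool.Agent.Work.MP_b928c0_nt_tr
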