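import Pool.Agent.Work.MP_b928c0_nt_tr.API

/-!
# MP_b928c0_nt, general trade-off: parameters for SC
-/

set_option autoImplicit false

namespace Pool.Agent.Work.MP_b928c0_nt_tr

open Finset Classical

namespace UAux

theorem sq_le (i : ℕ) : (i + 1) ^ 2 ≤ 4 ^ i := by
  have h1 : i + 1 ≤ 2 ^ i := Nat.lt_two_pow_self
  calc (i + 1) ^ 2 ≤ (2 ^ i) ^ 2 := Nat.pow_le_pow_left h1 2
    _ = 4 ^ i := by rw [← pow_mul, mul_comm, pow_mul]; norm_num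

theorem twenty (i : ℕ) (hi : 3 ≤ i) : 20 * i ≤ 4 ^ i := by
  induction i, hi using Nat.le_induction with
  | base => norm_num
  | succ n hn ih => rw [pow_succ]; omega

theorem s_sq (s : ℕ) (hs : 6 ≤ s) : (s + 2) ^ 2 ≤ 2 ^ s := by
  induction s, hs using Nat.le_induction with
  | base => norm_num
  | succ n hn ih =>
    have e1 : (n + 1 + 2) ^ 2 ≤ 2 * (n + 2) ^ 2 := by nlinarith
    have e2 : 2 ^ (n + 1) = 2 * 2 ^ n := by ring
    omega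

theorem two_three (D E : ℕ) (h : E ≤ 2 * (D / 5)) : 2 ^ E * 3 ^ D ≤ 4 ^ D := by
  obtain ⟨q, r, hD, hr⟩ : ∃ q r, D = 5 * q + r ∧ r < 5 := ⟨D / 5, D % 5, by omega, by omega⟩
  have hq : D / 5 = q := by omega
  rw [hq] at h
  have h1 : 2 ^ E ≤ 4 ^ q := by
    calc 2 ^ E ≤ 2 ^ (2 * q) := Nat.pow_le_pow_right (by norm_num) h
      _ = 4 ^ q := by rw [pow_mul]; norm_num
  rw [hD, pow_add, pow_add]
  calc 2 ^ E * (3 ^ (5 * q) * 3 ^ r) ≤ 4 ^ q * (3 ^ (5 * q) * 4 ^ r) := by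
        gcongr
        norm_num
    _ = (4 * 3 ^ 5) ^ q * 4 ^ r := by rw [mul_pow, ← pow_mul]; ring
    _ ≤ (4 ^ 5) ^ q * 4 ^ r := by gcongr; norm_num
    _ = 4 ^ (5 * q) * 4 ^ r := by rw [← pow_mul]

theorem nat_part (i l h : ℕ) (hi : 3 ≤ i) (hl : 100 ≤ l) (hlu : l ≤ 2 ^ (i + 1))
    (hhu : h ≤ 2 ^ (22 + 2 * i)) (h1 : 2 ^ 20 * (i + 1) ^ 2 ≤ h) (h2 : 2 ^ 20 * 4 ^ i ≤ l ^ 2 * h)
    (h3 : 23 + 2 * i < l) : ∃ m m' g : ℕ, 2 ≤ l ∧ 1 ≤ 24 * i + 32 ∧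
      64 * h * 2 ^ (2 * m) < 2 ^ 4 ^ i ∧
      2 * h < 2 ^ l ∧ 2 * h ^ 2 < 2 ^ g ∧ 2 + 4 * (24 * i + 32) * g ≤ h ∧
      4 * 4 ^ i + 1 ≤ l * m ∧ 4 * 4 ^ i ≤ l * (24 * i + 32) * m' ∧
      3 * ((4 * 4 ^ i + 1) ^ 2 + 1) ^ 3 ≤ 2 ^ ((24 * i + 32) / 2) ∧
      16 * (l * (24 * i + 32)) ^ 2 * h ^ 2 * (24 * i + 32) ^ l * 2 ^ (m + 2 * m') * 3 ^ (l * h / 2) ≤
        4 ^ (l * h / 2) := by
  set L := 4 ^ i with hL
  have hL2 : L = 2 ^ (2 * i) := by rw [hL, pow_mul]; norm_num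
  have hL64 : 64 ≤ L := by
    calc 64 = 4 ^ 3 := by norm_num
      _ ≤ 4 ^ i := Nat.pow_le_pow_right (by norm_num) hi
  have h20 := twenty i hi
  rw [← hL] at h20
  set q1 := (4 * L + 1) / l with hq1
  have hq1l : l * q1 ≤ 4 * L + 1 := Nat.mul_div_le _ _
  have hq100 : q1 ≤ (4 * L + 1) / 100 := Nat.div_le_div_left hl (by norm_num)
  set K0 := 24 * i + 32 with hK0
  set q2 := 4 * L / (l * K0) with hq2
  have hlK : l ≤ l * K0 := Nat.le_mul_of_pos_right _ (by omega)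
  have hq2q1 : q2 ≤ q1 := by
    calc q2 ≤ 4 * L / l := Nat.div_le_div_left hlK (by omega)
      _ ≤ q1 := Nat.div_le_div_right (by omega)
  set s := Nat.log 2 h with hs
  have hh0 : h ≠ 0 := by
    have : 0 < 2 ^ 20 * (i + 1) ^ 2 := by positivity
    omega
  have hs1 : 2 ^ s ≤ h := Nat.pow_log_le_self 2 hh0
  have hs2 : h < 2 ^ (s + 1) := Nat.lt_pow_succ_log_self (by norm_num) h
  have hs20 : 20 ≤ s := by
    refine Nat.le_log_of_pow_le (by norm_num) (le_trans ?_ h1)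
    exact Nat.le_mul_of_pos_right _ (by positivity)
  have hK0u : K0 ≤ 2 ^ (i + 5) := by
    have e1 : i + 1 ≤ 2 ^ i := Nat.lt_two_pow_self
    rw [pow_add]
    omega
  refine ⟨q1 + 1, q2 + 1, 2 * s + 4, by omega, by omega, ?_, ?_, ?_, ?_, ?_, ?_, ?_, ?_⟩
  · calc 64 * h * 2 ^ (2 * (q1 + 1)) ≤ 2 ^ 6 * 2 ^ (22 + 2 * i) * 2 ^ (2 * (q1 + 1)) := by
          gcongr; norm_num
      _ = 2 ^ (6 + (22 + 2 * i) + 2 * (q1 + 1)) := by ring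
      _ < 2 ^ L := Nat.pow_lt_pow_right (by norm_num) (by omega)
  · calc 2 * h ≤ 2 ^ 1 * 2 ^ (22 + 2 * i) := by gcongr; norm_num
      _ = 2 ^ (1 + (22 + 2 * i)) := by ring
      _ < 2 ^ l := Nat.pow_lt_pow_right (by norm_num) (by omega)
  · have e1 : h ^ 2 ≤ (2 ^ (s + 1)) ^ 2 := Nat.pow_le_pow_left hs2.le 2
    have e2 : 2 * (2 ^ (s + 1)) ^ 2 = 2 ^ (2 * s + 3) := by ring
    have e3 : 2 ^ (2 * s + 3) < 2 ^ (2 * s + 4) := Nat.pow_lt_pow_right (by norm_num) (by omega)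
    omega
  · have e1 : (1024 * ((i + 1) * (s + 2))) ^ 2 ≤ h ^ 2 := by
      have e2 := s_sq s (by omega)
      calc (1024 * ((i + 1) * (s + 2))) ^ 2 = (2 ^ 20 * (i + 1) ^ 2) * (s + 2) ^ 2 := by ring
        _ ≤ h * h := Nat.mul_le_mul h1 (e2.trans hs1)
        _ = h ^ 2 := by ring
    have e3 : 1024 * ((i + 1) * (s + 2)) ≤ h := by
      by_contra hc
      exact absurd e1 (not_le.mpr (Nat.pow_lt_pow_left (not_le.mp hc) (by norm_num)))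
    have e4 : 1 ≤ (i + 1) * (s + 2) := Nat.mul_pos (by omega) (by omega)
    have e5 : 4 * K0 * (2 * s + 4) ≤ 256 * ((i + 1) * (s + 2)) := by
      rw [hK0]
      nlinarith
    omega
  · exact (Nat.lt_mul_div_succ (4 * L + 1) (by omega : 0 < l)).le
  · exact (Nat.lt_mul_div_succ (4 * L) (by positivity : 0 < l * K0)).le
  · have e1 : K0 / 2 = 12 * i + 16 := by omega
    rw [e1]
    have e2 : (4 * L + 1) ^ 2 + 1 ≤ 26 * L ^ 2 := by nlinarith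
    calc 3 * ((4 * L + 1) ^ 2 + 1) ^ 3 ≤ 3 * (26 * L ^ 2) ^ 3 := by gcongr
      _ = 52728 * L ^ 6 := by ring
      _ ≤ 2 ^ 16 * L ^ 6 := by gcongr; norm_num
      _ = 2 ^ (12 * i + 16) := by rw [hL2, ← pow_mul]; ring
  · set E := 4 + 2 * ((i + 1) + (i + 5)) + 2 * (22 + 2 * i) + (i + 5) * l + (q1 + 1 + 2 * (q2 + 1))
      with hE
    have e1 : 16 * (l * K0) ^ 2 * h ^ 2 * K0 ^ l * 2 ^ (q1 + 1 + 2 * (q2 + 1)) ≤ 2 ^ E := by
      calc 16 * (l * K0) ^ 2 * h ^ 2 * K0 ^ l * 2 ^ (q1 + 1 + 2 * (q2 + 1))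
          ≤ 2 ^ 4 * (2 ^ (i + 1) * 2 ^ (i + 5)) ^ 2 * (2 ^ (22 + 2 * i)) ^ 2 * (2 ^ (i + 5)) ^ l *
            2 ^ (q1 + 1 + 2 * (q2 + 1)) := by gcongr; norm_num
        _ = 2 ^ E := by
            rw [hE, ← pow_add, ← pow_mul, ← pow_mul, ← pow_mul, ← pow_add, ← pow_add, ← pow_add,
              ← pow_add]
            congr 1
            ring
    refine (Nat.mul_le_mul_right _ e1).trans (two_three _ _ ?_)
    set P := l * h with hP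
    have f1 : 2 ^ 20 * q1 ≤ 5 * P := by
      have g1 : l * (2 ^ 20 * q1) ≤ l * (5 * P) := by
        calc l * (2 ^ 20 * q1) = 2 ^ 20 * (l * q1) := by ring
          _ ≤ 2 ^ 20 * (5 * L) := Nat.mul_le_mul_left _ (by omega)
          _ = 5 * (2 ^ 20 * L) := by ring
          _ ≤ 5 * (l ^ 2 * h) := Nat.mul_le_mul_left _ h2
          _ = l * (5 * P) := by rw [hP]; ring
      exact Nat.le_of_mul_le_mul_left g1 (by omega)
    have f2 : 2 ^ 20 * ((i + 1) * l) ≤ P := by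
      calc 2 ^ 20 * ((i + 1) * l) = (2 ^ 20 * (i + 1)) * l := by ring
        _ ≤ (2 ^ 20 * (i + 1) ^ 2) * l := by gcongr; nlinarith
        _ ≤ h * l := Nat.mul_le_mul_right _ h1
        _ = P := by rw [hP]; ring
    have f3 : (i + 5) * l ≤ 5 * ((i + 1) * l) := by nlinarith
    have f4 : 100 * (i + 1) ≤ (i + 1) * l := by nlinarith
    have f5 : E ≤ 70 + 8 * i + (i + 5) * l + 3 * q1 := by omega
    have f6 : E ≤ 70 + 8 * i + 5 * ((i + 1) * l) + 3 * q1 := by omega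
    norm_num at f1 f2
    omega


/-- parameters for SC, for every gap `h` in the admissible range -/
theorem paramB (i h : ℕ) (hi : 3 ≤ i) (h1 : 2 ^ 20 * (i + 1) ^ 2 ≤ h)
    (h2 : h * (100 + 2 * i) ^ 2 ≤ 2 ^ 20 * 4 ^ i) : ∃ l K0 m m' g : ℕ, 2 ≤ l ∧ 1 ≤ K0 ∧
      64 * h * 2 ^ (2 * m) < 2 ^ 4 ^ i ∧
      2 * h < 2 ^ l ∧ 2 * h ^ 2 < 2 ^ g ∧ 2 + 4 * K0 * g ≤ h ∧
      4 * 4 ^ i + 1 ≤ l * m ∧ 4 * 4 ^ i ≤ l * K0 * m' ∧
      3 * ((4 * 4 ^ i + 1) ^ 2 + 1) ^ 3 ≤ 2 ^ (K0 / 2) ∧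
      16 * (l * K0) ^ 2 * h ^ 2 * K0 ^ l * 2 ^ (m + 2 * m') * 3 ^ (l * h / 2) ≤
        4 ^ (l * h / 2) ∧
      (6 * (l * K0) + 12) ^ 2 * h ≤ 2 ^ 40 * (4 ^ i * (i + 1) ^ 2) := by
  have hh0 : 0 < h := by
    have : 0 < 2 ^ 20 * (i + 1) ^ 2 := by positivity
    omega
  set Y := 2 ^ 20 * 4 ^ i with hY
  set t := Nat.sqrt (Y / h) with ht
  have ht1 : t * t ≤ Y / h := Nat.sqrt_le _
  have ht2 : Y / h < (t + 1) * (t + 1) := Nat.lt_succ_sqrt _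
  have ht3 : 100 + 2 * i ≤ t := by
    rw [ht, Nat.le_sqrt, Nat.le_div_iff_mul_le hh0]
    calc (100 + 2 * i) * (100 + 2 * i) * h = h * (100 + 2 * i) ^ 2 := by ring
      _ ≤ Y := h2
  have hth : t * t * h ≤ Y := (Nat.mul_le_mul_right h ht1).trans (Nat.div_mul_le_self Y h)
  have hYl : Y ≤ (t + 1) ^ 2 * h := by
    have e1 : Y < (Y / h + 1) * h := by
      rw [mul_comm]
      exact Nat.lt_mul_div_succ Y hh0
    have e2 : (Y / h + 1) * h ≤ (t + 1) * (t + 1) * h := Nat.mul_le_mul_right h ht2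
    have e3 : (t + 1) * (t + 1) * h = (t + 1) ^ 2 * h := by ring
    omega
  have ht4 : t ≤ 2 ^ i := by
    by_contra hc
    have e1 : 2 ^ i < t := not_le.mp hc
    have e2 : (2 ^ i) * (2 ^ i) < t * t := Nat.mul_lt_mul'' e1 e1
    have e3 : (2 ^ i) * (2 ^ i) = 4 ^ i := by rw [← mul_pow]; norm_num
    have e4 : 4 ^ i * 2 ^ 20 < t * t * 2 ^ 20 := by omega
    have e5 : t * t * 2 ^ 20 ≤ t * t * h := by
      refine Nat.mul_le_mul_left _ (le_trans ?_ h1)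
      exact Nat.le_mul_of_pos_right _ (by positivity)
    have e6 : 4 ^ i * 2 ^ 20 = Y := by rw [hY, mul_comm]
    omega
  have hhu : h ≤ 2 ^ (22 + 2 * i) := by
    have e1 : h ≤ h * (100 + 2 * i) ^ 2 := Nat.le_mul_of_pos_right _ (by positivity)
    have e2 : Y ≤ 2 ^ (22 + 2 * i) := by
      rw [hY, pow_add, pow_mul, show (2 : ℕ) ^ 2 = 4 by norm_num]
      exact Nat.mul_le_mul_right _ (by norm_num)
    omega
  obtain ⟨m, m', g, f1, f2, f3, f4, f5, f6, f7, f8, f9, f10⟩ := nat_part i (t + 1) h hi (by omega)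
    (by rw [pow_succ]; omega) hhu h1 hYl (by omega)
  refine ⟨t + 1, 24 * i + 32, m, m', g, f1, f2, f3, f4, f5, f6, f7, f8, f9, f10, ?_⟩
  have g1 : 6 * ((t + 1) * (24 * i + 32)) + 12 ≤ 400 * (t * (i + 1)) := by nlinarith
  calc (6 * ((t + 1) * (24 * i + 32)) + 12) ^ 2 * h ≤ (400 * (t * (i + 1))) ^ 2 * h := by gcongr
    _ = 160000 * (t * t * h) * (i + 1) ^ 2 := by ring
    _ ≤ 160000 * Y * (i + 1) ^ 2 := by gcongr
    _ = (160000 * 2 ^ 20) * (4 ^ i * (i + 1) ^ 2) := by rw [hY]; ring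
    _ ≤ 2 ^ 40 * (4 ^ i * (i + 1) ^ 2) := Nat.mul_le_mul_right _ (by norm_num)

end UAux

end Pool.Agent.Work.MP_b928c0_nt_tr
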