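import Pool.Agent.Work.MP_b928c0_nt_tr.All1
import Pool.Agent.Work.MP_b928c0_nt_tr.U1
import Pool.Agent.Work.MP_b928c0_nt_tr.U2

/-!
# MP_b928c0_nt, general trade-off: the theorem for arbitrary gap functions
-/

set_option autoImplicit false

namespace Pool.Agent.Work.MP_b928c0_nt_tr

open Finset Classical

/-- monotonicity in the length -/
theorem ScaleOK.monoK {L K K' h : ℕ} (H : ScaleOK L K h) (hK : K ≤ K') : ScaleOK L K' h := by
  obtain ⟨A, h1, h2⟩ := H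
  refine ⟨A, h1, fun u p q hW hS hall => ?_⟩
  obtain ⟨hu, hq, hqp, hcop, hd⟩ := hW
  have hb : ∀ t, t < K → bb (u * q ^ (K' - K)) p q K t = bb u p q K' t := by
    intro t ht
    unfold bb
    have e1 : K' - 1 - t = (K' - K) + (K - 1 - t) := by omega
    rw [e1, pow_add]
    ring
  refine h2 (u * q ^ (K' - K)) p q ⟨by positivity, hq, hqp, hcop, ?_⟩ (fun t ht => ?_)
    (fun t ht => ?_)
  · exact Dvd.dvd.mul_right ((pow_dvd_pow _ hK).trans hd) _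
  · rw [hb t ht]
    exact hS t (by omega)
  · rw [hb t ht]
    exact hall t (by omega)

namespace UAux

open F3Aux F1Aux

/-- the scale theorems BS and BH with the divisor bound -/
theorem scaleA (c : ℝ) (hdv : ∀ m x : ℕ, 2 ≤ m → 0 < x → x < 2 ^ m →
    (x.divisors.card : ℝ) ≤ Real.exp (c * m / Real.log m)) (i κ m D h : ℕ) (hh : 2 ≤ h)
    (h1 : 1 ≤ κ) (hm2 : 2 ≤ m) (e1 : 4 * 4 ^ i ≤ κ * m) (e2 : h * 2 ^ m ≤ 2 ^ 4 ^ i)
    (e3 : Real.exp (c * m / Real.log m) < D + 1)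
    (e4 : h ≤ 3 → 64 * κ ^ 2 * D ^ 2 * 3 ^ κ ≤ 4 ^ κ)
    (e5 : 4 ≤ h → 16 * κ ^ 2 * (h / 2) * D ^ 2 ≤ (h / 2) ^ κ) : ScaleOK (4 ^ i) κ h := by
  have hdiv : ∀ n, 0 < n → n < 2 ^ (4 * 4 ^ i) → (xr κ n).divisors.card ≤ D := by
    intro n hn hn'
    have f1 := hdv m (xr κ n) hm2 (xr_pos _ _) (xr_lt κ n (4 * 4 ^ i) m hn.ne' hn' e1)
    have f2 : ((xr κ n).divisors.card : ℝ) < ((D + 1 : ℕ) : ℝ) := by
      push_cast
      exact f1.trans_lt e3
    exact Nat.lt_succ_iff.mp (by exact_mod_cast f2)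
  have hL : 1 ≤ 4 ^ i := Nat.one_le_pow _ _ (by norm_num)
  rcases Nat.lt_or_ge 3 h with h3 | h3
  · refine ScaleOK.mono (stmt_BH stmt_FA stmt_WC stmt_P1 stmt_IN stmt_LW (4 ^ i) κ m D (h / 2) h1 hL
      (by omega) e1 ?_ hdiv (e5 h3)) (by omega)
    exact (Nat.mul_le_mul_right _ (Nat.div_le_self h 2)).trans e2
  · refine ScaleOK.mono (stmt_BS stmt_FA stmt_WC stmt_P1 stmt_IN stmt_LW (4 ^ i) κ m D h1 hL e1 ?_
      hdiv (e4 h3)) hh
    exact (Nat.mul_le_mul_right _ hh).trans e2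

/-- the cost function of a scale -/
noncomputable def Φ (G : ℝ) (i : ℕ) : ℝ := max (Real.log G * (i + 1)) (G / ((i : ℝ) + 1) ^ 2)

theorem claimK : ∃ C3 : ℝ, 0 < C3 ∧ ∃ j0 : ℕ, 1 ≤ j0 ∧ ∀ i, j0 ≤ i → ∀ G : ℝ, 2 ≤ G →
    G * ((i : ℝ) + 1) ^ 2 ≤ 4 * 4 ^ i → ∃ κ : ℕ, ScaleOK (4 ^ i) κ ⌊G⌋₊ ∧
      (6 * κ + 12 : ℝ) ^ 2 * Φ G i ≤ C3 * 4 ^ i := by
  obtain ⟨c, hc, hdv⟩ := stmt_DV
  obtain ⟨C1, hC1, i1, hi11, hA⟩ := paramA c hc
  refine ⟨2 * C1 + 2 ^ 42, by positivity, max i1 (2 ^ 23), le_trans hi11 (le_max_left _ _), ?_⟩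
  intro i hi G hG hsize
  have hii1 : i1 ≤ i := (le_max_left _ _).trans hi
  have hi23 : 2 ^ 23 ≤ i := (le_max_right _ _).trans hi
  have hiR : (2 : ℝ) ^ 23 ≤ i := by exact_mod_cast hi23
  have h4 : (0 : ℝ) < 4 ^ i := by positivity
  have hlog2 := Real.log_two_gt_d9
  have hlG : Real.log 2 ≤ Real.log G := Real.log_le_log (by norm_num) hG
  set h := ⌊G⌋₊ with hh
  have hh1 : (h : ℝ) ≤ G := Nat.floor_le (by linarith)
  have hh2 : G < h + 1 := Nat.lt_floor_add_one G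
  have hh3 : 2 ≤ h := Nat.le_floor (by exact_mod_cast hG)
  have hhR : (2 : ℝ) ≤ h := by exact_mod_cast hh3
  rcases le_or_gt G (((i : ℝ) + 1) ^ 3 * Real.log G) with hcase | hcase
  · -- case A
    have h2h : 2 * h ≤ 4 ^ i := by
      have e1 : (8 : ℝ) ≤ ((i : ℝ) + 1) ^ 2 := by nlinarith
      have e2 : G * 8 ≤ 4 * 4 ^ i := le_trans (mul_le_mul_of_nonneg_left e1 (by linarith)) hsize
      have e3 : (2 * h : ℝ) ≤ 4 ^ i := by linarith
      exact_mod_cast e3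
    obtain ⟨κ, m, D, f1, f2, f3, f4, f5, f6, f7, f8⟩ := hA i hii1 h hh3 h2h
    refine ⟨κ, scaleA c hdv i κ m D h hh3 f1 f3 f4 f5 f6 f7 f8, ?_⟩
    have g1 : Real.log G ≤ 2 * Real.log h := by
      have e1 : G ≤ (h : ℝ) ^ 2 := by nlinarith
      have e2 := Real.log_le_log (by linarith) e1
      rw [Real.log_pow] at e2
      exact_mod_cast e2
    have g2 : Φ G i ≤ 2 * (Real.log h * (i + 1)) := by
      unfold Φ
      refine max_le ?_ ?_
      · nlinarith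
      · rw [div_le_iff₀ (by positivity)]
        calc G ≤ ((i : ℝ) + 1) ^ 3 * Real.log G := hcase
          _ ≤ ((i : ℝ) + 1) ^ 3 * (2 * Real.log h) := mul_le_mul_of_nonneg_left g1 (by positivity)
          _ = _ := by ring
    calc (6 * κ + 12 : ℝ) ^ 2 * Φ G i ≤ (6 * κ + 12 : ℝ) ^ 2 * (2 * (Real.log h * (i + 1))) :=
          mul_le_mul_of_nonneg_left g2 (by positivity)
      _ = 2 * ((6 * κ + 12 : ℝ) ^ 2 * (Real.log h * (i + 1))) := by ring
      _ ≤ 2 * (C1 * 4 ^ i) := by linarith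
      _ ≤ (2 * C1 + 2 ^ 42) * 4 ^ i := by nlinarith
  · -- case B
    have hGbig : (2 : ℝ) ^ 22 * ((i : ℝ) + 1) ^ 2 ≤ G := by
      have e1 : (2 : ℝ) ^ 22 ≤ ((i : ℝ) + 1) * Real.log G := by nlinarith
      calc (2 : ℝ) ^ 22 * ((i : ℝ) + 1) ^ 2 ≤ (((i : ℝ) + 1) * Real.log G) * ((i : ℝ) + 1) ^ 2 :=
            mul_le_mul_of_nonneg_right e1 (by positivity)
        _ = ((i : ℝ) + 1) ^ 3 * Real.log G := by ring
        _ ≤ G := hcase.le
    have hG4 : (4 : ℝ) ≤ G := by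
      have : (1 : ℝ) ≤ ((i : ℝ) + 1) ^ 2 := by nlinarith
      nlinarith
    obtain ⟨q, hq1, hq2⟩ : ∃ q : ℕ, 2 * q ≤ h ∧ h ≤ 2 * q + 1 := ⟨h / 2, by omega, by omega⟩
    have hq1R : (2 * q : ℝ) ≤ h := by exact_mod_cast hq1
    have hq2R : (h : ℝ) ≤ 2 * q + 1 := by exact_mod_cast hq2
    have hq3 : G ≤ 4 * q := by linarith
    have hq4 : 2 ^ 20 * (i + 1) ^ 2 ≤ q := by
      have : (2 : ℝ) ^ 20 * ((i : ℝ) + 1) ^ 2 ≤ q := by
        have e1 : (2 : ℝ) ^ 22 = 4 * 2 ^ 20 := by norm_num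
        rw [e1] at hGbig
        linarith
      exact_mod_cast this
    have hq5 : q * (100 + 2 * i) ^ 2 ≤ 2 ^ 20 * 4 ^ i := by
      have e1 : ((100 : ℝ) + 2 * i) ^ 2 ≤ (100 * ((i : ℝ) + 1)) ^ 2 := by
        apply pow_le_pow_left₀ (by positivity)
        linarith
      have e2 : (q : ℝ) * (100 + 2 * i) ^ 2 ≤ 2 ^ 20 * 4 ^ i := by
        calc (q : ℝ) * (100 + 2 * i) ^ 2 ≤ (G / 2) * (100 * ((i : ℝ) + 1)) ^ 2 := by
              refine mul_le_mul (by linarith) e1 (by positivity) (by linarith)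
          _ = 5000 * (G * ((i : ℝ) + 1) ^ 2) := by ring
          _ ≤ 5000 * (4 * 4 ^ i) := by linarith
          _ ≤ 2 ^ 20 * 4 ^ i := by nlinarith
      exact_mod_cast e2
    have hi3 : 3 ≤ i := le_trans (by norm_num) hi23
    obtain ⟨l, K0, m, m', g, f1, f2, f3, f4, f5, f6, f7, f8, f9, f10, f11⟩ :=
      paramB i q hi3 hq4 hq5
    have hsc := all_SC l (4 ^ i) m m' q g K0 f1 (Nat.one_le_pow _ _ (by norm_num)) f2 f3 f4 f5 f6 f7
      f8 f9 f10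
    refine ⟨l * K0, hsc.mono hq1, ?_⟩
    have g1 : Φ G i = G / ((i : ℝ) + 1) ^ 2 := by
      unfold Φ
      refine max_eq_right ?_
      rw [le_div_iff₀ (by positivity)]
      calc Real.log G * ((i : ℝ) + 1) * ((i : ℝ) + 1) ^ 2 = ((i : ℝ) + 1) ^ 3 * Real.log G := by ring
        _ ≤ G := hcase.le
    have g2 : (6 * ((l * K0 : ℕ) : ℝ) + 12) ^ 2 * q ≤ 2 ^ 40 * (4 ^ i * ((i : ℝ) + 1) ^ 2) := by
      exact_mod_cast f11
    rw [g1, mul_div_assoc', div_le_iff₀ (by positivity)]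
    have g3 : 0 ≤ (6 * ((l * K0 : ℕ) : ℝ) + 12) ^ 2 := by positivity
    calc (6 * ((l * K0 : ℕ) : ℝ) + 12) ^ 2 * G ≤ (6 * ((l * K0 : ℕ) : ℝ) + 12) ^ 2 * (4 * q) :=
          mul_le_mul_of_nonneg_left hq3 g3
      _ = 4 * ((6 * ((l * K0 : ℕ) : ℝ) + 12) ^ 2 * q) := by ring
      _ ≤ 4 * (2 ^ 40 * (4 ^ i * ((i : ℝ) + 1) ^ 2)) := by linarith
      _ = 2 ^ 42 * (4 ^ i * ((i : ℝ) + 1) ^ 2) := by ring
      _ ≤ (2 * C1 + 2 ^ 42) * (4 ^ i * ((i : ℝ) + 1) ^ 2) := by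
          refine mul_le_mul_of_nonneg_right (by linarith) (by positivity)
      _ = _ := by ring

theorem sq_exp (L : ℝ) (hL : 0 ≤ L) : (1 + 2 * L) ^ 2 ≤ 4 * Real.exp L := by
  have h1 := Real.quadratic_le_exp_of_nonneg (show 0 ≤ L / 2 by linarith)
  have h2 : Real.exp L = Real.exp (L / 2) ^ 2 := by
    rw [← Real.exp_nat_mul]
    congr 1
    push_cast
    ring
  have h3 : 1 + 2 * L ≤ 2 * Real.exp (L / 2) := by nlinarith [sq_nonneg (L / 2 - 1)]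
  rw [h2]
  nlinarith [Real.exp_pos (L / 2)]

/-- comparison of the cost at `N` with the cost of the scale -/
theorem compare (i : ℕ) (hi : 1 ≤ i) (N : ℝ) (hN : (2 : ℝ) ^ 4 ^ i ≤ N) (G gN : ℝ) (hG : 2 ≤ G)
    (hgN : 2 ≤ gN) (hgr : gN * (4 ^ i * Real.log 2) ≤ G * Real.log N) :
    max (Real.log gN * Real.log (Real.log N)) (gN / Real.log (Real.log N) ^ 2) * 4 ^ i ≤
      12 * Φ G i * Real.log N := by
  have hl2 := Real.log_two_gt_d9
  have hl2' := Real.log_two_lt_d9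
  have h1 := log_ge i N hN
  have h0 := log_pos' i N hN
  have h2 := loglog_ge i hi N hN
  have h4 : (0 : ℝ) < 4 ^ i := by positivity
  have hi' : (1 : ℝ) ≤ i := by exact_mod_cast hi
  have hlG : Real.log 2 ≤ Real.log G := Real.log_le_log (by norm_num) hG
  have hll : 0 < Real.log (Real.log N) := lt_of_lt_of_le (by positivity) h2
  rw [max_mul_of_nonneg _ _ h4.le]
  refine max_le ?_ ?_
  · -- first term
    have hΦ : Real.log G * (i + 1) ≤ Φ G i := le_max_left _ _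
    set y0 : ℝ := 4 ^ i * Real.log 2 with hy0
    have hy0p : 0 < y0 := by positivity
    set ϱ : ℝ := Real.log N / y0 with hϱ
    have hϱ1 : 1 ≤ ϱ := by rw [hϱ, one_le_div hy0p]; exact h1
    set L : ℝ := Real.log ϱ with hL
    have hL0 : 0 ≤ L := Real.log_nonneg hϱ1
    have hNϱ : Real.log N = ϱ * y0 := by rw [hϱ]; field_simp
    have e1 : Real.log gN ≤ Real.log G * (1 + 2 * L) := by
      have e2 : gN ≤ ϱ * G := by
        rw [hϱ, div_mul_eq_mul_div, le_div_iff₀ hy0p]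
        linarith
      have e3 := Real.log_le_log (by linarith) e2
      rw [Real.log_mul (by positivity) (by positivity)] at e3
      nlinarith
    have e4 : Real.log (Real.log N) ≤ 2 * ((i : ℝ) + 1) * (1 + 2 * L) := by
      have e5 : Real.log (Real.log N) = L + Real.log y0 := by
        rw [hNϱ, Real.log_mul (by positivity) (by positivity)]
      have e6 : Real.log y0 ≤ 2 * i := by
        rw [hy0, Real.log_mul (by positivity) (by positivity), Real.log_pow]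
        have e7 : Real.log (Real.log 2) ≤ 0 := Real.log_nonpos (by linarith) (by linarith)
        have e8 : Real.log 4 = 2 * Real.log 2 := by
          rw [show (4 : ℝ) = 2 ^ 2 by norm_num, Real.log_pow]
          norm_num
        rw [e8]
        nlinarith
      rw [e5]
      nlinarith
    have e9 := sq_exp L hL0
    rw [hL, Real.exp_log (by positivity), ← hL] at e9
    have e10 : Real.log gN * Real.log (Real.log N) ≤ 8 * (Real.log G * (i + 1)) * ϱ := by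
      calc Real.log gN * Real.log (Real.log N)
          ≤ (Real.log G * (1 + 2 * L)) * (2 * ((i : ℝ) + 1) * (1 + 2 * L)) := by
            refine mul_le_mul e1 e4 hll.le ?_
            have : 0 ≤ 1 + 2 * L := by linarith
            have : 0 ≤ Real.log G := by linarith
            positivity
        _ = 2 * (Real.log G * (i + 1)) * (1 + 2 * L) ^ 2 := by ring
        _ ≤ 2 * (Real.log G * (i + 1)) * (4 * ϱ) := by
            refine mul_le_mul_of_nonneg_left e9 ?_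
            have : 0 ≤ Real.log G := by linarith
            positivity
        _ = _ := by ring
    have e11 : 0 ≤ Real.log G * ((i : ℝ) + 1) := by
      have : 0 ≤ Real.log G := by linarith
      positivity
    have e12 : ϱ * 4 ^ i ≤ 3 / 2 * Real.log N := by
      rw [hNϱ, hy0]
      have : 0 ≤ ϱ * 4 ^ i := by positivity
      nlinarith
    calc Real.log gN * Real.log (Real.log N) * 4 ^ i
        ≤ 8 * (Real.log G * (i + 1)) * ϱ * 4 ^ i := mul_le_mul_of_nonneg_right e10 h4.le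
      _ = 8 * (Real.log G * (i + 1)) * (ϱ * 4 ^ i) := by ring
      _ ≤ 8 * (Real.log G * (i + 1)) * (3 / 2 * Real.log N) :=
          mul_le_mul_of_nonneg_left e12 (by positivity)
      _ = 12 * (Real.log G * (i + 1)) * Real.log N := by ring
      _ ≤ 12 * Φ G i * Real.log N := by
          refine mul_le_mul_of_nonneg_right (by linarith) h0.le
  · have hΦ : G / ((i : ℝ) + 1) ^ 2 ≤ Φ G i := le_max_right _ _
    have e1 : gN * 4 ^ i ≤ 3 / 2 * (G * Real.log N) := by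
      have e2 : 0 ≤ gN * 4 ^ i := by positivity
      nlinarith
    have e3 : (((i : ℝ) + 1) / 2) ^ 2 ≤ Real.log (Real.log N) ^ 2 :=
      pow_le_pow_left₀ (by positivity) h2 2
    calc gN / Real.log (Real.log N) ^ 2 * 4 ^ i = gN * 4 ^ i / Real.log (Real.log N) ^ 2 := by ring
      _ ≤ 3 / 2 * (G * Real.log N) / (((i : ℝ) + 1) / 2) ^ 2 := by
          refine div_le_div₀ (by positivity) e1 (by positivity) e3
      _ = 6 * (G / ((i : ℝ) + 1) ^ 2) * Real.log N := by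
          field_simp
          ring
      _ ≤ 12 * Φ G i * Real.log N := by
          refine mul_le_mul_of_nonneg_right ?_ h0.le
          have : 0 ≤ G / ((i : ℝ) + 1) ^ 2 := by positivity
          linarith

end UAux

/-- **U**: the trade-off theorem for gap functions. -/
def Stmt_U : Prop :=
  ∃ C : ℝ, ∀ g : ℕ → ℝ, (∀ n, 2 ≤ g n) → Monotone g →
    (∀ m n : ℕ, 2 ≤ m → m ≤ n → g n * Real.log m ≤ g m * Real.log n) →
    (∃ n0 : ℕ, ∀ n : ℕ, n0 ≤ n → g n * Real.log (Real.log n) ^ 2 ≤ Real.log n) →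
    ∃ a : ℕ → ℕ, StrictMono a ∧ (∀ i, 3 ≤ a i) ∧ (∀ i, (a (i + 1) : ℝ) - a i ≤ g (a i)) ∧
      ∀ (k N : ℕ) (x r : ℝ), x ≠ 0 → r ≠ 0 → r ≠ 1 → r ≠ -1 → 1 ≤ k →
        (∀ j < k, x * r ^ j ≤ N ∧ ∃ i, (a i : ℝ) = x * r ^ j) →
        (k : ℝ) ^ 2 * max (Real.log (g N) * Real.log (Real.log N))
          (g N / Real.log (Real.log N) ^ 2) ≤ C * Real.log N

open UAux F3Aux in
theorem stmt_U : Stmt_U := by
  obtain ⟨C3, hC3, j0, hj0, hK⟩ := claimK
  refine ⟨12 * C3, fun g hg2 hgm hgr ⟨n0, hn0⟩ => ?_⟩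
  set i0 := max j0 n0 with hi0
  have hi01 : 1 ≤ i0 := hj0.trans (le_max_left _ _)
  have hcast : ∀ i : ℕ, (((2 ^ 4 ^ i : ℕ)) : ℝ) = (2 : ℝ) ^ 4 ^ i := fun i => by push_cast; rfl
  have hsize : ∀ i, i0 ≤ i → g (2 ^ 4 ^ i) * ((i : ℝ) + 1) ^ 2 ≤ 4 * 4 ^ i := by
    intro i hi
    have h1 : n0 ≤ 2 ^ 4 ^ i := by
      calc n0 ≤ i := (le_max_right _ _).trans hi
        _ ≤ 4 ^ i := (Nat.lt_pow_self (by norm_num)).le
        _ ≤ 2 ^ 4 ^ i := Nat.lt_two_pow_self.le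
    have h2 := hn0 _ h1
    rw [hcast] at h2
    have h3 := loglog_ge i (hi01.trans hi) ((2 : ℝ) ^ 4 ^ i) le_rfl
    have h4 : Real.log ((2 : ℝ) ^ 4 ^ i) = 4 ^ i * Real.log 2 := by
      rw [Real.log_pow]
      push_cast
      rfl
    have h5 : (((i : ℝ) + 1) / 2) ^ 2 ≤ Real.log (Real.log ((2 : ℝ) ^ 4 ^ i)) ^ 2 :=
      pow_le_pow_left₀ (by positivity) h3 2
    have h6 := hg2 (2 ^ 4 ^ i)
    have h7 : g (2 ^ 4 ^ i) * (((i : ℝ) + 1) / 2) ^ 2 ≤ 4 ^ i * Real.log 2 := by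
      rw [← h4]
      exact le_trans (mul_le_mul_of_nonneg_left h5 (by linarith)) h2
    have h8 := Real.log_two_lt_d9
    have h9 : (0 : ℝ) < 4 ^ i := by positivity
    nlinarith
  have hK' : ∀ i, ∃ κ : ℕ, i0 ≤ i → ScaleOK (4 ^ i) κ ⌊g (2 ^ 4 ^ i)⌋₊ ∧
      (6 * κ + 12 : ℝ) ^ 2 * Φ (g (2 ^ 4 ^ i)) i ≤ C3 * 4 ^ i := by
    intro i
    by_cases hi : i0 ≤ i
    · obtain ⟨κ, h1⟩ := hK i ((le_max_left _ _).trans hi) (g (2 ^ 4 ^ i)) (hg2 _) (hsize i hi)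
      exact ⟨κ, fun _ => h1⟩
    · exact ⟨0, fun h => absurd h hi⟩
  choose κ hκ using hK'
  have key : ∀ i, i0 ≤ i → (Finset.Icc i0 i).sup κ ≤ (Finset.Icc i0 (i + 1)).sup κ ∧
      ScaleOK (4 ^ i) ((Finset.Icc i0 i).sup κ) ⌊g (2 ^ 4 ^ i)⌋₊ := by
    intro i hi
    refine ⟨Finset.sup_mono (Finset.Icc_subset_Icc_right (Nat.le_succ i)), ?_⟩
    exact (hκ i hi).1.monoK (Finset.le_sup (f := κ) (Finset.mem_Icc.mpr ⟨hi, le_rfl⟩))
  obtain ⟨a, hmono, ha0, hgap, hGP⟩ := stmt_GL i0 (fun i => (Finset.Icc i0 i).sup κ)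
    (fun i => ⌊g (2 ^ 4 ^ i)⌋₊) key
  have hge : ∀ n, 2 ^ 4 ^ i0 ≤ a n := fun n => ha0.trans (hmono.monotone (Nat.zero_le n))
  refine ⟨a, hmono, fun i => ?_, fun n => ?_, fun k N x r hx hr hr1 hr2 hk hall => ?_⟩
  · have e1 : 2 ^ 2 ≤ 2 ^ 4 ^ i0 := Nat.pow_le_pow_right (by norm_num) (by
      calc 2 ≤ 4 ^ 1 := by norm_num
        _ ≤ 4 ^ i0 := Nat.pow_le_pow_right (by norm_num) hi01)
    have e2 := hge i
    omega
  · obtain ⟨i, hi, e1, e2⟩ := exists_scale i0 (a n) (hge n)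
    have e3 := hgap n i hi e1 e2
    have e4 : (⌊g (2 ^ 4 ^ i)⌋₊ : ℝ) ≤ g (2 ^ 4 ^ i) := Nat.floor_le (by
      have := hg2 (2 ^ 4 ^ i)
      linarith)
    have e5 : g (2 ^ 4 ^ i) ≤ g (a n) := hgm e1
    have e6 : a (n + 1) ≤ a n + ⌊g (2 ^ 4 ^ i)⌋₊ := by omega
    have e7 : (a (n + 1) : ℝ) ≤ a n + ⌊g (2 ^ 4 ^ i)⌋₊ := by exact_mod_cast e6
    linarith
  · obtain ⟨i, hi, e1, e2⟩ := hGP k x r N ⟨hx, hr, hr1, hr2, hall⟩ hk
    obtain ⟨s, hs, hse⟩ := Finset.exists_mem_eq_sup (Finset.Icc i0 i) ⟨i, Finset.mem_Icc.mpr ⟨hi, le_rfl⟩⟩ κ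
    rw [Finset.mem_Icc] at hs
    have e2' : k ≤ 6 * κ s + 12 := by
      rw [← hse]
      exact e2
    have e1' : (2 : ℝ) ^ 4 ^ s ≤ N := by
      refine le_trans ?_ e1
      exact pow_le_pow_right₀ (by norm_num) (Nat.pow_le_pow_right (by norm_num) hs.2)
    have hsN : 2 ^ 4 ^ s ≤ N := by
      rw [← hcast] at e1'
      exact_mod_cast e1'
    have hs1 : 1 ≤ s := hi01.trans hs.1
    have h2s : 2 ≤ 2 ^ 4 ^ s := by
      calc 2 = 2 ^ 1 := by norm_num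
        _ ≤ 2 ^ 4 ^ s := Nat.pow_le_pow_right (by norm_num) (Nat.one_le_pow _ _ (by norm_num))
    have g1 := hgr (2 ^ 4 ^ s) N h2s hsN
    rw [hcast, Real.log_pow] at g1
    push_cast at g1
    have g2 := compare s hs1 N e1' (g (2 ^ 4 ^ s)) (g N) (hg2 _) (hg2 _) g1
    have g3 := (hκ s hs.1).2
    have h4 : (0 : ℝ) < 4 ^ s := by positivity
    have hk' : (k : ℝ) ≤ 6 * κ s + 12 := by exact_mod_cast e2'
    have g4 : (k : ℝ) ^ 2 ≤ (6 * κ s + 12 : ℝ) ^ 2 := pow_le_pow_left₀ (Nat.cast_nonneg k) hk' 2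
    have g5 := log_pos' s N e1'
    have g6 : 0 ≤ Φ (g (2 ^ 4 ^ s)) s := by
      unfold Φ
      refine le_max_of_le_right ?_
      have := hg2 (2 ^ 4 ^ s)
      positivity
    refine le_of_mul_le_mul_right ?_ h4
    calc (k : ℝ) ^ 2 * max (Real.log (g N) * Real.log (Real.log N))
          (g N / Real.log (Real.log N) ^ 2) * 4 ^ s
        = (k : ℝ) ^ 2 * (max (Real.log (g N) * Real.log (Real.log N))
          (g N / Real.log (Real.log N) ^ 2) * 4 ^ s) := by ring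
      _ ≤ (k : ℝ) ^ 2 * (12 * Φ (g (2 ^ 4 ^ s)) s * Real.log N) :=
          mul_le_mul_of_nonneg_left g2 (by positivity)
      _ ≤ (6 * κ s + 12 : ℝ) ^ 2 * (12 * Φ (g (2 ^ 4 ^ s)) s * Real.log N) :=
          mul_le_mul_of_nonneg_right g4 (by positivity)
      _ = 12 * Real.log N * ((6 * κ s + 12 : ℝ) ^ 2 * Φ (g (2 ^ 4 ^ s)) s) := by ring
      _ ≤ 12 * Real.log N * (C3 * 4 ^ s) := mul_le_mul_of_nonneg_left g3 (by positivity)
      _ = 12 * C3 * Real.log N * 4 ^ s := by ring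

end Pool.Agent.Work.MP_b928c0_nt_tr
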